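import Mathlib

/-!
# The generalized Johnson graphs `J(n, 4, 1)` are strongly 2-monophonic

For every `n ≥ 8` and every two distinct non-adjacent vertices `x, y` of `J(n, 4, 1)`, every vertex
lies on an induced path from `x` to `y`; and the monophonic number is `2`.

Proof: let `x, y, w` be vertices, `j` the number of elements of `x ∩ y` and `k` the number of
elements of `w` which are not in `x ∪ y`. Then `x, y, w` are contained in a set of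
`max (8, 8 - j + k)` elements. In these small sets the induced paths are listed, up to the order of
the elements.
-/

set_option autoImplicit false

namespace Pool.Agent.Results.MP_785afb_co.FourSubsets

/-- The generalized Johnson graph `J(n, r, i)`: the vertices are the `r`-element subsets of an
`n`-element set, two distinct vertices are adjacent if and only if they have exactly `i` common
elements. -/
def johnson (n r i : ℕ) : SimpleGraph {A : Finset (Fin n) // A.card = r} where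
  Adj A B := A ≠ B ∧ (A.1 ∩ B.1).card = i
  symm := ⟨fun A B h => ⟨h.1.symm, by rw [Finset.inter_comm]; exact h.2⟩⟩
  loopless := ⟨fun _ h => h.1 rfl⟩

/-- `w` lies on an induced path `f 0, f 1, …, f l` from `u` to `v` in the graph `G`: the vertices
`f 0, …, f l` are distinct, and two of them are adjacent in `G` if and only if they are consecutive. -/
def OnInducedPath {V : Type} (G : SimpleGraph V) (u v w : V) : Prop :=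
  ∃ (l : ℕ) (f : ℕ → V), f 0 = u ∧ f l = v ∧
    (∀ a ≤ l, ∀ b ≤ l, f a = f b → a = b) ∧
    (∀ a ≤ l, ∀ b ≤ l, G.Adj (f a) (f b) ↔ (a + 1 = b ∨ b + 1 = a)) ∧
    ∃ c ≤ l, f c = w

/-- A set `S` of vertices is monophonic if every vertex lies on an induced path between two vertices
of `S` (which may be equal). -/
def Monophonic {V : Type} (G : SimpleGraph V) (S : Finset V) : Prop :=
  ∀ w : V, ∃ x ∈ S, ∃ y ∈ S, OnInducedPath G x y w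

/-- The monophonic number of `G` is two: there is a monophonic set with two vertices, and none with
fewer vertices. -/
def MonophonicNumberTwo {V : Type} (G : SimpleGraph V) : Prop :=
  (∃ S : Finset V, S.card = 2 ∧ Monophonic G S) ∧ ∀ S : Finset V, Monophonic G S → 2 ≤ S.card

/-- `l` is a list of 4-element sets which form an induced path from `x` to `y`. -/
def Good {m : ℕ} (x y : Finset (Fin m)) (l : List (Finset (Fin m))) : Prop :=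
  0 < l.length ∧ l.getD 0 x = x ∧ l.getD (l.length - 1) x = y ∧
  (∀ a < l.length, (l.getD a x).card = 4) ∧
  (∀ a < l.length, ∀ b < l.length, (l.getD a x ∩ l.getD b x).card = 1 ↔ (a + 1 = b ∨ b + 1 = a)) ∧
  (∀ a < l.length, ∀ b < l.length, l.getD a x = l.getD b x → a = b)

instance {m : ℕ} (x y : Finset (Fin m)) (l : List (Finset (Fin m))) : Decidable (Good x y l) := by
  unfold Good; infer_instance

def t0_8 : List (List (Finset (Fin 8))) :=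
  [[{0, 1, 2, 3}, {3, 4, 5, 7}, {1, 2, 5, 6}, {0, 1, 3, 4}, {4, 5, 6, 7}],
   [{0, 1, 2, 3}, {1, 4, 6, 7}, {0, 2, 5, 6}, {1, 2, 3, 7}, {4, 5, 6, 7}],
   [{0, 1, 2, 3}, {3, 4, 5, 7}, {0, 1, 5, 6}, {0, 2, 3, 7}, {4, 5, 6, 7}],
   [{0, 1, 2, 3}, {1, 4, 6, 7}, {0, 2, 5, 7}, {0, 1, 3, 4}, {4, 5, 6, 7}],
   [{0, 1, 2, 3}, {2, 4, 5, 6}, {0, 1, 2, 7}, {4, 5, 6, 7}],
   [{0, 1, 2, 3}, {1, 4, 6, 7}, {0, 3, 5, 7}, {0, 1, 2, 4}, {4, 5, 6, 7}],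
   [{0, 1, 2, 3}, {0, 4, 6, 7}, {0, 1, 2, 5}, {4, 5, 6, 7}],
   [{0, 1, 2, 3}, {2, 5, 6, 7}, {0, 1, 4, 6}, {1, 2, 3, 5}, {4, 5, 6, 7}],
   [{0, 1, 2, 3}, {3, 4, 5, 6}, {1, 2, 5, 7}, {0, 1, 3, 4}, {4, 5, 6, 7}],
   [{0, 1, 2, 3}, {3, 5, 6, 7}, {0, 1, 2, 5}, {4, 5, 6, 7}],
   [{0, 1, 2, 3}, {1, 4, 6, 7}, {0, 2, 4, 5}, {0, 1, 3, 6}, {4, 5, 6, 7}],
   [{0, 1, 2, 3}, {1, 4, 5, 6}, {0, 2, 3, 5}, {4, 5, 6, 7}],
   [{0, 1, 2, 3}, {1, 5, 6, 7}, {0, 3, 4, 6}, {1, 2, 3, 5}, {4, 5, 6, 7}],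
   [{0, 1, 2, 3}, {3, 5, 6, 7}, {0, 1, 2, 6}, {4, 5, 6, 7}],
   [{0, 1, 2, 3}, {3, 5, 6, 7}, {1, 2, 3, 4}, {4, 5, 6, 7}],
   [{0, 1, 2, 3}, {2, 4, 6, 7}, {0, 1, 4, 5}, {1, 2, 3, 6}, {4, 5, 6, 7}],
   [{0, 1, 2, 3}, {3, 4, 6, 7}, {1, 2, 3, 5}, {4, 5, 6, 7}],
   [{0, 1, 2, 3}, {2, 4, 6, 7}, {0, 3, 4, 5}, {0, 1, 2, 6}, {4, 5, 6, 7}],
   [{0, 1, 2, 3}, {3, 5, 6, 7}, {0, 2, 4, 7}, {0, 1, 3, 6}, {4, 5, 6, 7}],
   [{0, 1, 2, 3}, {1, 4, 5, 7}, {0, 2, 3, 5}, {4, 5, 6, 7}],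
   [{0, 1, 2, 3}, {2, 4, 5, 6}, {0, 1, 4, 7}, {0, 2, 3, 5}, {4, 5, 6, 7}],
   [{0, 1, 2, 3}, {2, 5, 6, 7}, {1, 3, 4, 6}, {0, 2, 3, 7}, {4, 5, 6, 7}],
   [{0, 1, 2, 3}, {1, 4, 5, 7}, {0, 3, 6, 7}, {0, 1, 2, 4}, {4, 5, 6, 7}],
   [{0, 1, 2, 3}, {2, 4, 5, 6}, {1, 3, 4, 7}, {0, 1, 2, 6}, {4, 5, 6, 7}],
   [{0, 1, 2, 3}, {0, 4, 6, 7}, {1, 3, 4, 5}, {0, 1, 2, 7}, {4, 5, 6, 7}],
   [{0, 1, 2, 3}, {3, 5, 6, 7}, {1, 2, 4, 5}, {0, 2, 3, 6}, {4, 5, 6, 7}],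
   [{0, 1, 2, 3}, {1, 5, 6, 7}, {2, 3, 4, 5}, {0, 1, 2, 7}, {4, 5, 6, 7}],
   [{0, 1, 2, 3}, {0, 4, 6, 7}, {2, 3, 5, 7}, {0, 1, 3, 6}, {4, 5, 6, 7}],
   [{0, 1, 2, 3}, {0, 5, 6, 7}, {0, 1, 2, 4}, {4, 5, 6, 7}],
   [{0, 1, 2, 3}, {3, 4, 5, 7}, {1, 2, 4, 6}, {0, 2, 3, 5}, {4, 5, 6, 7}],
   [{0, 1, 2, 3}, {2, 4, 5, 7}, {0, 1, 3, 7}, {4, 5, 6, 7}],
   [{0, 1, 2, 3}, {0, 4, 5, 7}, {2, 3, 4, 6}, {0, 1, 3, 7}, {4, 5, 6, 7}],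
   [{0, 1, 2, 3}, {3, 5, 6, 7}, {0, 2, 4, 6}, {0, 1, 3, 7}, {4, 5, 6, 7}],
   [{0, 1, 2, 3}, {1, 4, 6, 7}, {2, 3, 5, 6}, {0, 1, 3, 7}, {4, 5, 6, 7}],
   [{0, 1, 2, 3}, {2, 4, 5, 6}, {0, 1, 6, 7}, {0, 2, 3, 5}, {4, 5, 6, 7}],
   [{0, 1, 2, 3}, {1, 4, 6, 7}, {0, 3, 5, 6}, {0, 1, 2, 7}, {4, 5, 6, 7}],
   [{0, 1, 2, 3}, {3, 4, 5, 6}, {1, 2, 6, 7}, {0, 1, 3, 5}, {4, 5, 6, 7}],
   [{0, 1, 2, 3}, {0, 4, 5, 6}, {1, 3, 5, 7}, {0, 1, 2, 4}, {4, 5, 6, 7}],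
   [{0, 1, 2, 3}, {2, 4, 5, 7}, {1, 3, 5, 6}, {0, 2, 3, 4}, {4, 5, 6, 7}],
   [{0, 1, 2, 3}, {2, 4, 5, 6}, {0, 3, 4, 7}, {0, 1, 2, 6}, {4, 5, 6, 7}],
   [{0, 1, 2, 3}, {2, 4, 6, 7}, {0, 1, 5, 7}, {0, 2, 3, 4}, {4, 5, 6, 7}],
   [{0, 1, 2, 3}, {2, 4, 5, 6}, {1, 3, 6, 7}, {0, 2, 3, 5}, {4, 5, 6, 7}],
   [{0, 1, 2, 3}, {3, 4, 5, 7}, {0, 2, 6, 7}, {0, 1, 3, 5}, {4, 5, 6, 7}],
   [{0, 1, 2, 3}, {0, 5, 6, 7}, {1, 2, 4, 7}, {0, 2, 3, 6}, {4, 5, 6, 7}],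
   [{0, 1, 2, 3}, {1, 4, 5, 7}, {2, 3, 6, 7}, {0, 1, 3, 5}, {4, 5, 6, 7}],
   [{0, 1, 2, 3}, {0, 4, 5, 6}, {2, 3, 4, 7}, {0, 1, 3, 6}, {4, 5, 6, 7}]]

def t0_9 : List (List (Finset (Fin 9))) :=
  [[{0, 1, 2, 3}, {1, 4, 6, 7}, {0, 1, 2, 8}, {0, 3, 6, 7}, {1, 2, 3, 4}, {4, 5, 6, 7}],
   [{0, 1, 2, 3}, {1, 5, 7, 8}, {0, 3, 6, 8}, {4, 5, 6, 7}],
   [{0, 1, 2, 3}, {1, 4, 5, 8}, {1, 2, 3, 7}, {4, 5, 6, 7}],
   [{0, 1, 2, 3}, {0, 4, 6, 8}, {0, 1, 2, 7}, {4, 5, 6, 7}],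
   [{0, 1, 2, 3}, {1, 4, 5, 7}, {0, 2, 7, 8}, {4, 5, 6, 7}],
   [{0, 1, 2, 3}, {0, 5, 6, 7}, {1, 2, 6, 8}, {4, 5, 6, 7}],
   [{0, 1, 2, 3}, {2, 4, 6, 7}, {1, 2, 5, 8}, {4, 5, 6, 7}],
   [{0, 1, 2, 3}, {1, 6, 7, 8}, {0, 3, 4, 8}, {4, 5, 6, 7}],
   [{0, 1, 2, 3}, {2, 6, 7, 8}, {0, 3, 4, 8}, {4, 5, 6, 7}],
   [{0, 1, 2, 3}, {0, 6, 7, 8}, {0, 1, 2, 4}, {4, 5, 6, 7}],
   [{0, 1, 2, 3}, {2, 4, 6, 8}, {1, 3, 5, 8}, {4, 5, 6, 7}],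
   [{0, 1, 2, 3}, {2, 5, 7, 8}, {0, 1, 3, 5}, {4, 5, 6, 7}],
   [{0, 1, 2, 3}, {0, 4, 6, 7}, {2, 3, 6, 8}, {4, 5, 6, 7}],
   [{0, 1, 2, 3}, {3, 4, 5, 7}, {0, 1, 3, 8}, {1, 2, 4, 7}, {0, 2, 6, 8}, {4, 5, 6, 7}],
   [{0, 1, 2, 3}, {3, 4, 5, 6}, {0, 2, 3, 8}, {4, 5, 7, 8}, {0, 1, 3, 5}, {4, 5, 6, 7}],
   [{0, 1, 2, 3}, {1, 4, 7, 8}, {0, 3, 5, 8}, {4, 5, 6, 7}],
   [{0, 1, 2, 3}, {2, 4, 5, 8}, {0, 1, 2, 6}, {4, 5, 6, 7}],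
   [{0, 1, 2, 3}, {1, 4, 5, 8}, {2, 3, 7, 8}, {4, 5, 6, 7}],
   [{0, 1, 2, 3}, {2, 4, 7, 8}, {0, 2, 3, 6}, {4, 5, 6, 7}],
   [{0, 1, 2, 3}, {0, 4, 5, 8}, {1, 2, 6, 8}, {4, 5, 6, 7}],
   [{0, 1, 2, 3}, {3, 4, 6, 8}, {0, 1, 2, 4}, {4, 5, 6, 7}],
   [{0, 1, 2, 3}, {0, 4, 7, 8}, {2, 3, 5, 8}, {4, 5, 6, 7}],
   [{0, 1, 2, 3}, {3, 4, 7, 8}, {0, 2, 6, 8}, {4, 5, 6, 7}],
   [{0, 1, 2, 3}, {3, 4, 7, 8}, {0, 1, 5, 8}, {4, 5, 6, 7}],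
   [{0, 1, 2, 3}, {2, 4, 5, 7}, {0, 3, 7, 8}, {4, 5, 6, 7}],
   [{0, 1, 2, 3}, {3, 5, 6, 8}, {1, 2, 4, 8}, {4, 5, 6, 7}],
   [{0, 1, 2, 3}, {0, 5, 6, 8}, {0, 2, 3, 7}, {4, 5, 6, 7}],
   [{0, 1, 2, 3}, {2, 5, 6, 8}, {0, 1, 5, 7}, {4, 5, 6, 8}, {0, 2, 7, 8}, {4, 5, 6, 7}],
   [{0, 1, 2, 3}, {2, 4, 5, 8}, {0, 1, 7, 8}, {4, 5, 6, 7}],
   [{0, 1, 2, 3}, {3, 6, 7, 8}, {0, 2, 4, 8}, {4, 5, 6, 7}],
   [{0, 1, 2, 3}, {2, 4, 6, 8}, {0, 3, 4, 7}, {5, 6, 7, 8}, {0, 1, 3, 5}, {4, 5, 6, 7}],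
   [{0, 1, 2, 3}, {3, 5, 6, 7}, {1, 3, 4, 8}, {4, 5, 6, 7}],
   [{0, 1, 2, 3}, {3, 5, 7, 8}, {0, 2, 3, 6}, {4, 5, 6, 7}],
   [{0, 1, 2, 3}, {1, 5, 6, 7}, {0, 2, 5, 8}, {4, 5, 6, 7}],
   [{0, 1, 2, 3}, {1, 4, 6, 7}, {2, 3, 4, 8}, {4, 5, 6, 7}],
   [{0, 1, 2, 3}, {1, 4, 6, 8}, {0, 1, 3, 5}, {4, 5, 6, 7}],
   [{0, 1, 2, 3}, {2, 6, 7, 8}, {0, 1, 3, 8}, {4, 6, 7, 8}, {0, 1, 3, 4}, {4, 5, 6, 7}],
   [{0, 1, 2, 3}, {0, 6, 7, 8}, {1, 2, 3, 8}, {0, 3, 5, 7}, {0, 1, 6, 8}, {4, 5, 6, 7}],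
   [{0, 1, 2, 3}, {1, 5, 6, 8}, {0, 3, 4, 8}, {4, 5, 6, 7}],
   [{0, 1, 2, 3}, {1, 5, 6, 7}, {0, 1, 4, 8}, {4, 5, 6, 7}],
   [{0, 1, 2, 3}, {0, 5, 7, 8}, {1, 2, 6, 8}, {4, 5, 6, 7}],
   [{0, 1, 2, 3}, {3, 5, 6, 7}, {1, 2, 7, 8}, {4, 5, 6, 7}],
   [{0, 1, 2, 3}, {1, 4, 5, 6}, {1, 3, 7, 8}, {4, 5, 6, 7}],
   [{0, 1, 2, 3}, {1, 4, 5, 7}, {1, 3, 6, 8}, {4, 5, 6, 7}],
   [{0, 1, 2, 3}, {3, 4, 5, 8}, {0, 2, 7, 8}, {4, 5, 6, 7}]]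

def t0_10 : List (List (Finset (Fin 10))) :=
  [[{0, 1, 2, 3}, {3, 6, 8, 9}, {4, 5, 6, 7}],
   [{0, 1, 2, 3}, {1, 5, 8, 9}, {4, 5, 6, 7}],
   [{0, 1, 2, 3}, {1, 4, 6, 8}, {5, 7, 8, 9}, {0, 2, 6, 8}, {4, 5, 6, 7}],
   [{0, 1, 2, 3}, {2, 4, 5, 9}, {0, 3, 8, 9}, {1, 2, 7, 9}, {4, 5, 6, 7}],
   [{0, 1, 2, 3}, {1, 4, 8, 9}, {4, 5, 6, 7}],
   [{0, 1, 2, 3}, {3, 4, 5, 6}, {6, 7, 8, 9}, {0, 1, 2, 7}, {4, 5, 6, 7}],
   [{0, 1, 2, 3}, {3, 4, 8, 9}, {4, 5, 6, 7}],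
   [{0, 1, 2, 3}, {0, 5, 8, 9}, {4, 5, 6, 7}],
   [{0, 1, 2, 3}, {1, 4, 7, 9}, {5, 6, 8, 9}, {0, 1, 7, 9}, {4, 5, 6, 7}],
   [{0, 1, 2, 3}, {1, 5, 7, 9}, {4, 6, 8, 9}, {1, 2, 5, 8}, {4, 5, 6, 7}],
   [{0, 1, 2, 3}, {3, 4, 6, 9}, {0, 1, 8, 9}, {0, 2, 3, 6}, {4, 5, 6, 7}],
   [{0, 1, 2, 3}, {2, 6, 8, 9}, {4, 5, 6, 7}],
   [{0, 1, 2, 3}, {0, 6, 8, 9}, {4, 5, 6, 7}],
   [{0, 1, 2, 3}, {0, 5, 6, 8}, {1, 2, 8, 9}, {0, 2, 3, 5}, {4, 5, 6, 7}],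
   [{0, 1, 2, 3}, {1, 7, 8, 9}, {4, 5, 6, 7}],
   [{0, 1, 2, 3}, {2, 7, 8, 9}, {4, 5, 6, 7}],
   [{0, 1, 2, 3}, {0, 4, 8, 9}, {4, 5, 6, 7}],
   [{0, 1, 2, 3}, {1, 6, 7, 9}, {4, 5, 8, 9}, {1, 3, 7, 9}, {4, 5, 6, 7}],
   [{0, 1, 2, 3}, {2, 4, 8, 9}, {4, 5, 6, 7}],
   [{0, 1, 2, 3}, {0, 6, 7, 8}, {2, 3, 8, 9}, {0, 1, 5, 8}, {4, 5, 6, 7}],
   [{0, 1, 2, 3}, {0, 7, 8, 9}, {4, 5, 6, 7}],
   [{0, 1, 2, 3}, {3, 5, 8, 9}, {4, 5, 6, 7}],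
   [{0, 1, 2, 3}, {0, 5, 6, 7}, {4, 7, 8, 9}, {0, 1, 5, 9}, {4, 5, 6, 7}],
   [{0, 1, 2, 3}, {0, 4, 5, 8}, {1, 3, 8, 9}, {0, 2, 4, 8}, {4, 5, 6, 7}],
   [{0, 1, 2, 3}, {1, 6, 8, 9}, {4, 5, 6, 7}],
   [{0, 1, 2, 3}, {2, 5, 8, 9}, {4, 5, 6, 7}],
   [{0, 1, 2, 3}, {3, 7, 8, 9}, {4, 5, 6, 7}],
   [{0, 1, 2, 3}, {1, 5, 7, 9}, {0, 2, 8, 9}, {1, 3, 7, 8}, {4, 5, 6, 7}]]

def t0_11 : List (List (Finset (Fin 11))) :=
  [[{0, 1, 2, 3}, {0, 5, 7, 10}, {6, 8, 9, 10}, {4, 5, 6, 7}],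
   [{0, 1, 2, 3}, {1, 8, 9, 10}, {0, 3, 4, 10}, {4, 5, 6, 7}],
   [{0, 1, 2, 3}, {2, 8, 9, 10}, {0, 1, 6, 10}, {4, 5, 6, 7}],
   [{0, 1, 2, 3}, {3, 8, 9, 10}, {1, 2, 4, 9}, {4, 5, 6, 7}],
   [{0, 1, 2, 3}, {0, 8, 9, 10}, {1, 3, 6, 8}, {4, 5, 6, 7}],
   [{0, 1, 2, 3}, {3, 4, 5, 10}, {7, 8, 9, 10}, {4, 5, 6, 7}],
   [{0, 1, 2, 3}, {2, 4, 6, 10}, {5, 8, 9, 10}, {4, 5, 6, 7}],
   [{0, 1, 2, 3}, {1, 4, 5, 6}, {4, 8, 9, 10}, {4, 5, 6, 7}]]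

def t0_12 : List (List (Finset (Fin 12))) :=
  [[{0, 1, 2, 3}, {1, 4, 6, 8}, {8, 9, 10, 11}, {1, 3, 5, 8}, {4, 5, 6, 7}]]

def t2_8 : List (List (Finset (Fin 8))) :=
  [[{0, 1, 2, 3}, {3, 4, 5, 6}, {0, 1, 4, 7}, {2, 3, 5, 7}, {0, 1, 4, 5}],
   [{0, 1, 2, 3}, {0, 4, 5, 7}, {0, 2, 3, 6}, {0, 1, 4, 5}],
   [{0, 1, 2, 3}, {3, 4, 5, 7}, {0, 1, 2, 4}, {2, 3, 5, 7}, {0, 1, 4, 5}],
   [{0, 1, 2, 3}, {2, 4, 5, 7}, {1, 2, 3, 6}, {0, 1, 4, 5}],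
   [{0, 1, 2, 3}, {1, 4, 6, 7}, {0, 2, 3, 7}, {0, 1, 4, 5}],
   [{0, 1, 2, 3}, {1, 4, 5, 7}, {0, 2, 3, 4}, {1, 3, 6, 7}, {0, 1, 4, 5}],
   [{0, 1, 2, 3}, {0, 5, 6, 7}, {2, 3, 4, 5}, {1, 3, 6, 7}, {0, 1, 4, 5}],
   [{0, 1, 2, 3}, {0, 4, 5, 6}, {1, 3, 6, 7}, {0, 1, 4, 5}],
   [{0, 1, 2, 3}, {2, 4, 5, 6}, {0, 1, 6, 7}, {2, 3, 5, 6}, {0, 1, 4, 5}],
   [{0, 1, 2, 3}, {1, 5, 6, 7}, {0, 2, 4, 5}, {1, 2, 6, 7}, {0, 1, 4, 5}],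
   [{0, 1, 2, 3}, {0, 4, 5, 6}, {1, 2, 5, 7}, {2, 3, 4, 6}, {0, 1, 4, 5}],
   [{0, 1, 2, 3}, {3, 4, 5, 7}, {0, 1, 2, 7}, {2, 3, 4, 6}, {0, 1, 4, 5}],
   [{0, 1, 2, 3}, {1, 5, 6, 7}, {0, 3, 4, 5}, {0, 2, 6, 7}, {0, 1, 4, 5}],
   [{0, 1, 2, 3}, {0, 4, 5, 6}, {0, 1, 3, 7}, {2, 3, 5, 6}, {0, 1, 4, 5}],
   [{0, 1, 2, 3}, {3, 4, 6, 7}, {0, 1, 4, 5}],
   [{0, 1, 2, 3}, {2, 4, 6, 7}, {0, 1, 4, 5}],
   [{0, 1, 2, 3}, {3, 4, 5, 7}, {0, 1, 4, 6}, {2, 3, 5, 6}, {0, 1, 4, 5}],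
   [{0, 1, 2, 3}, {2, 4, 5, 6}, {0, 1, 3, 4}, {0, 2, 6, 7}, {0, 1, 4, 5}],
   [{0, 1, 2, 3}, {0, 4, 6, 7}, {2, 3, 5, 6}, {0, 1, 4, 5}],
   [{0, 1, 2, 3}, {1, 4, 5, 6}, {0, 3, 6, 7}, {0, 1, 4, 5}],
   [{0, 1, 2, 3}, {3, 4, 5, 7}, {0, 2, 4, 6}, {1, 2, 3, 7}, {0, 1, 4, 5}],
   [{0, 1, 2, 3}, {3, 4, 5, 6}, {0, 1, 5, 7}, {1, 2, 3, 6}, {0, 1, 4, 5}],
   [{0, 1, 2, 3}, {3, 5, 6, 7}, {0, 1, 4, 5}],
   [{0, 1, 2, 3}, {2, 4, 5, 6}, {1, 3, 5, 7}, {0, 2, 3, 6}, {0, 1, 4, 5}],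
   [{0, 1, 2, 3}, {1, 5, 6, 7}, {0, 2, 4, 7}, {1, 3, 6, 7}, {0, 1, 4, 5}],
   [{0, 1, 2, 3}, {0, 4, 6, 7}, {0, 1, 2, 5}, {0, 3, 6, 7}, {0, 1, 4, 5}],
   [{0, 1, 2, 3}, {1, 4, 5, 6}, {0, 3, 4, 7}, {1, 2, 3, 6}, {0, 1, 4, 5}],
   [{0, 1, 2, 3}, {1, 4, 5, 7}, {0, 3, 5, 6}, {1, 2, 6, 7}, {0, 1, 4, 5}],
   [{0, 1, 2, 3}, {0, 5, 6, 7}, {1, 2, 4, 6}, {0, 3, 6, 7}, {0, 1, 4, 5}],
   [{0, 1, 2, 3}, {1, 5, 6, 7}, {2, 3, 4, 7}, {0, 1, 4, 5}],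
   [{0, 1, 2, 3}, {0, 5, 6, 7}, {1, 3, 4, 7}, {2, 3, 5, 6}, {0, 1, 4, 5}],
   [{0, 1, 2, 3}, {1, 4, 6, 7}, {0, 2, 5, 6}, {1, 3, 6, 7}, {0, 1, 4, 5}],
   [{0, 1, 2, 3}, {2, 5, 6, 7}, {0, 1, 4, 5}],
   [{0, 1, 2, 3}, {3, 4, 5, 6}, {0, 1, 2, 6}, {2, 3, 5, 7}, {0, 1, 4, 5}],
   [{0, 1, 2, 3}, {1, 5, 6, 7}, {0, 3, 4, 6}, {2, 3, 5, 7}, {0, 1, 4, 5}],
   [{0, 1, 2, 3}, {2, 4, 5, 7}, {1, 3, 5, 6}, {0, 2, 6, 7}, {0, 1, 4, 5}],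
   [{0, 1, 2, 3}, {1, 4, 6, 7}, {1, 2, 3, 5}, {0, 3, 6, 7}, {0, 1, 4, 5}],
   [{0, 1, 2, 3}, {1, 5, 6, 7}, {0, 2, 3, 5}, {1, 2, 6, 7}, {0, 1, 4, 5}],
   [{0, 1, 2, 3}, {0, 5, 6, 7}, {1, 2, 4, 5}, {1, 3, 6, 7}, {0, 1, 4, 5}],
   [{0, 1, 2, 3}, {3, 4, 5, 7}, {0, 1, 5, 6}, {1, 2, 3, 7}, {0, 1, 4, 5}],
   [{0, 1, 2, 3}, {0, 4, 6, 7}, {1, 3, 4, 5}, {0, 2, 3, 7}, {0, 1, 4, 5}],
   [{0, 1, 2, 3}, {3, 4, 5, 6}, {0, 1, 2, 5}, {4, 5, 6, 7}, {1, 2, 3, 6}, {0, 1, 4, 5}],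
   [{0, 1, 2, 3}, {2, 4, 5, 6}, {0, 3, 5, 7}, {1, 2, 6, 7}, {0, 1, 4, 5}],
   [{0, 1, 2, 3}, {3, 4, 5, 6}, {1, 2, 4, 7}, {2, 3, 5, 6}, {0, 1, 4, 5}],
   [{0, 1, 2, 3}, {1, 4, 6, 7}, {0, 2, 5, 7}, {1, 2, 3, 6}, {0, 1, 4, 5}],
   [{0, 1, 2, 3}, {1, 4, 5, 7}, {2, 3, 6, 7}, {0, 1, 2, 4}, {1, 3, 6, 7}, {0, 1, 4, 5}],
   [{0, 1, 2, 3}, {2, 4, 5, 6}, {0, 1, 3, 5}, {1, 2, 6, 7}, {0, 1, 4, 5}],
   [{0, 1, 2, 3}, {0, 4, 5, 7}, {0, 1, 3, 6}, {2, 3, 4, 7}, {0, 1, 4, 5}],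
   [{0, 1, 2, 3}, {2, 4, 5, 7}, {1, 3, 4, 6}, {0, 2, 3, 7}, {0, 1, 4, 5}],
   [{0, 1, 2, 3}, {1, 5, 6, 7}, {1, 2, 3, 4}, {0, 3, 6, 7}, {0, 1, 4, 5}],
   [{0, 1, 2, 3}, {0, 4, 6, 7}, {1, 2, 5, 6}, {0, 3, 6, 7}, {0, 1, 4, 5}]]

def t2_9 : List (List (Finset (Fin 9))) :=
  [[{0, 1, 2, 3}, {2, 6, 7, 8}, {1, 3, 4, 7}, {0, 2, 7, 8}, {0, 1, 4, 5}],
   [{0, 1, 2, 3}, {0, 6, 7, 8}, {0, 1, 4, 5}],
   [{0, 1, 2, 3}, {3, 4, 5, 8}, {0, 1, 3, 7}, {4, 6, 7, 8}, {0, 1, 4, 5}],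
   [{0, 1, 2, 3}, {1, 6, 7, 8}, {0, 1, 4, 5}],
   [{0, 1, 2, 3}, {1, 4, 6, 8}, {2, 3, 4, 5}, {5, 6, 7, 8}, {0, 1, 4, 5}],
   [{0, 1, 2, 3}, {3, 6, 7, 8}, {0, 1, 5, 7}, {0, 2, 6, 8}, {0, 1, 4, 5}]]

def t2_10 : List (List (Finset (Fin 10))) :=
  [[{0, 1, 2, 3}, {3, 4, 5, 6}, {6, 7, 8, 9}, {2, 3, 5, 6}, {0, 1, 4, 5}]]

def t3_8 : List (List (Finset (Fin 8))) :=
  [[{0, 1, 2, 3}, {2, 4, 5, 6}, {1, 3, 4, 7}, {2, 3, 5, 6}, {0, 1, 2, 4}],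
   [{0, 1, 2, 3}, {0, 4, 5, 6}, {1, 2, 3, 4}, {0, 3, 5, 6}, {0, 1, 2, 4}],
   [{0, 1, 2, 3}, {3, 4, 5, 6}, {0, 1, 2, 4}],
   [{0, 1, 2, 3}, {1, 4, 5, 6}, {0, 2, 3, 6}, {1, 3, 5, 7}, {0, 1, 2, 4}],
   [{0, 1, 2, 3}, {2, 4, 5, 6}, {0, 3, 4, 7}, {1, 3, 5, 6}, {0, 1, 2, 4}],
   [{0, 1, 2, 3}, {1, 4, 6, 7}, {0, 2, 5, 7}, {1, 3, 6, 7}, {0, 1, 2, 4}],
   [{0, 1, 2, 3}, {3, 5, 6, 7}, {0, 1, 2, 5}, {4, 5, 6, 7}, {0, 1, 2, 4}],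
   [{0, 1, 2, 3}, {0, 5, 6, 7}, {0, 1, 2, 4}],
   [{0, 1, 2, 3}, {2, 4, 5, 7}, {0, 1, 5, 6}, {2, 3, 5, 7}, {0, 1, 2, 4}],
   [{0, 1, 2, 3}, {1, 4, 6, 7}, {0, 3, 4, 5}, {1, 3, 6, 7}, {0, 1, 2, 4}],
   [{0, 1, 2, 3}, {1, 4, 5, 7}, {0, 2, 3, 5}, {4, 5, 6, 7}, {0, 1, 2, 4}],
   [{0, 1, 2, 3}, {3, 4, 6, 7}, {0, 1, 2, 4}],
   [{0, 1, 2, 3}, {1, 4, 5, 7}, {0, 2, 3, 7}, {1, 3, 5, 6}, {0, 1, 2, 4}],
   [{0, 1, 2, 3}, {3, 4, 5, 7}, {0, 1, 2, 4}],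
   [{0, 1, 2, 3}, {1, 4, 5, 6}, {0, 3, 6, 7}, {0, 1, 2, 4}],
   [{0, 1, 2, 3}, {3, 5, 6, 7}, {0, 1, 3, 4}, {2, 3, 6, 7}, {0, 1, 2, 4}],
   [{0, 1, 2, 3}, {0, 4, 5, 7}, {0, 1, 2, 6}, {4, 5, 6, 7}, {0, 1, 2, 4}],
   [{0, 1, 2, 3}, {2, 4, 6, 7}, {1, 3, 5, 7}, {0, 1, 2, 4}],
   [{0, 1, 2, 3}, {1, 4, 6, 7}, {0, 2, 4, 5}, {0, 3, 6, 7}, {0, 1, 2, 4}],
   [{0, 1, 2, 3}, {1, 4, 6, 7}, {0, 2, 5, 6}, {1, 3, 6, 7}, {0, 1, 2, 4}],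
   [{0, 1, 2, 3}, {1, 4, 5, 6}, {0, 1, 2, 7}, {4, 5, 6, 7}, {0, 1, 2, 4}],
   [{0, 1, 2, 3}, {1, 5, 6, 7}, {0, 1, 2, 4}],
   [{0, 1, 2, 3}, {1, 4, 5, 7}, {0, 2, 6, 7}, {1, 3, 5, 7}, {0, 1, 2, 4}],
   [{0, 1, 2, 3}, {2, 4, 5, 6}, {0, 3, 5, 7}, {0, 1, 2, 4}],
   [{0, 1, 2, 3}, {1, 4, 5, 7}, {0, 2, 3, 4}, {1, 3, 5, 6}, {0, 1, 2, 4}],
   [{0, 1, 2, 3}, {2, 4, 6, 7}, {1, 3, 4, 5}, {2, 3, 6, 7}, {0, 1, 2, 4}],
   [{0, 1, 2, 3}, {0, 4, 6, 7}, {0, 1, 3, 5}, {4, 5, 6, 7}, {0, 1, 2, 4}],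
   [{0, 1, 2, 3}, {1, 4, 5, 6}, {1, 2, 3, 7}, {4, 5, 6, 7}, {0, 1, 2, 4}],
   [{0, 1, 2, 3}, {1, 4, 6, 7}, {1, 2, 3, 5}, {0, 3, 6, 7}, {0, 1, 2, 4}],
   [{0, 1, 2, 3}, {0, 4, 6, 7}, {1, 2, 5, 7}, {0, 3, 6, 7}, {0, 1, 2, 4}],
   [{0, 1, 2, 3}, {0, 4, 5, 7}, {1, 2, 4, 6}, {0, 3, 6, 7}, {0, 1, 2, 4}],
   [{0, 1, 2, 3}, {0, 4, 5, 7}, {1, 2, 6, 7}, {0, 3, 5, 7}, {0, 1, 2, 4}],
   [{0, 1, 2, 3}, {2, 5, 6, 7}, {0, 1, 2, 4}],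
   [{0, 1, 2, 3}, {0, 4, 5, 7}, {1, 3, 4, 6}, {2, 3, 5, 7}, {0, 1, 2, 4}],
   [{0, 1, 2, 3}, {0, 4, 5, 6}, {1, 2, 4, 7}, {0, 3, 5, 7}, {0, 1, 2, 4}],
   [{0, 1, 2, 3}, {3, 5, 6, 7}, {0, 1, 4, 7}, {1, 3, 5, 6}, {0, 1, 2, 4}],
   [{0, 1, 2, 3}, {3, 5, 6, 7}, {0, 1, 4, 5}, {2, 3, 5, 7}, {0, 1, 2, 4}],
   [{0, 1, 2, 3}, {2, 4, 5, 6}, {0, 1, 6, 7}, {2, 3, 5, 6}, {0, 1, 2, 4}],
   [{0, 1, 2, 3}, {0, 4, 5, 7}, {0, 1, 3, 6}, {2, 3, 5, 7}, {0, 1, 2, 4}],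
   [{0, 1, 2, 3}, {0, 4, 6, 7}, {2, 3, 4, 5}, {1, 3, 6, 7}, {0, 1, 2, 4}],
   [{0, 1, 2, 3}, {3, 5, 6, 7}, {1, 2, 4, 5}, {2, 3, 6, 7}, {0, 1, 2, 4}],
   [{0, 1, 2, 3}, {2, 4, 5, 7}, {0, 1, 3, 7}, {2, 3, 5, 6}, {0, 1, 2, 4}],
   [{0, 1, 2, 3}, {1, 4, 5, 6}, {2, 3, 4, 7}, {0, 3, 5, 6}, {0, 1, 2, 4}],
   [{0, 1, 2, 3}, {3, 5, 6, 7}, {0, 2, 4, 7}, {1, 3, 5, 7}, {0, 1, 2, 4}],
   [{0, 1, 2, 3}, {2, 4, 5, 6}, {0, 1, 5, 7}, {2, 3, 6, 7}, {0, 1, 2, 4}],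
   [{0, 1, 2, 3}, {3, 5, 6, 7}, {0, 1, 4, 6}, {2, 3, 6, 7}, {0, 1, 2, 4}],
   [{0, 1, 2, 3}, {1, 4, 5, 7}, {0, 3, 4, 6}, {1, 3, 5, 7}, {0, 1, 2, 4}],
   [{0, 1, 2, 3}, {1, 4, 5, 7}, {0, 2, 4, 6}, {2, 3, 5, 7}, {0, 1, 2, 4}],
   [{0, 1, 2, 3}, {0, 4, 5, 7}, {1, 2, 5, 6}, {0, 3, 6, 7}, {0, 1, 2, 4}],
   [{0, 1, 2, 3}, {0, 4, 5, 6}, {1, 2, 3, 6}, {4, 5, 6, 7}, {0, 1, 2, 4}],
   [{0, 1, 2, 3}, {0, 4, 5, 7}, {2, 3, 4, 6}, {0, 3, 5, 7}, {0, 1, 2, 4}]]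

def t3_9 : List (List (Finset (Fin 9))) :=
  [[{0, 1, 2, 3}, {3, 5, 6, 8}, {0, 1, 4, 8}, {5, 6, 7, 8}, {0, 2, 3, 8}, {4, 5, 7, 8}, {0, 1, 2, 4}]]

set_option maxRecDepth 100000 in
theorem good_t0_8 : ∀ l ∈ t0_8, Good {0, 1, 2, 3} {4, 5, 6, 7} l := by decide
set_option maxRecDepth 100000 in
theorem cov_t0_8 : ∀ w : Finset (Fin 8), w.card = 4 → ∃ l ∈ t0_8, w ∈ l := by decide
set_option maxRecDepth 100000 in
theorem good_t0_9 : ∀ l ∈ t0_9, Good {0, 1, 2, 3} {4, 5, 6, 7} l := by decide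
set_option maxRecDepth 100000 in
theorem cov_t0_9 : ∀ w : Finset (Fin 9), w.card = 4 → 8 ∈ w → ∃ l ∈ t0_9, w ∈ l := by decide
set_option maxRecDepth 100000 in
theorem good_t0_10 : ∀ l ∈ t0_10, Good {0, 1, 2, 3} {4, 5, 6, 7} l := by decide
set_option maxRecDepth 100000 in
theorem cov_t0_10 : ∀ w : Finset (Fin 10), w.card = 4 → 8 ∈ w → 9 ∈ w → ∃ l ∈ t0_10, w ∈ l := by decide
set_option maxRecDepth 100000 in
theorem good_t0_11 : ∀ l ∈ t0_11, Good {0, 1, 2, 3} {4, 5, 6, 7} l := by decide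
set_option maxRecDepth 100000 in
theorem cov_t0_11 : ∀ a : Fin 11, ¬ (a = 8 ∨ a = 9 ∨ a = 10) → ∃ l ∈ t0_11, ({a, 8, 9, 10} : Finset (Fin 11)) ∈ l := by decide
set_option maxRecDepth 100000 in
theorem good_t0_12 : ∀ l ∈ t0_12, Good {0, 1, 2, 3} {4, 5, 6, 7} l := by decide
set_option maxRecDepth 100000 in
theorem cov_t0_12 : ∃ l ∈ t0_12, ({8, 9, 10, 11} : Finset (Fin 12)) ∈ l := by decide
set_option maxRecDepth 100000 in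
theorem good_t2_8 : ∀ l ∈ t2_8, Good {0, 1, 2, 3} {0, 1, 4, 5} l := by decide
set_option maxRecDepth 100000 in
theorem cov_t2_8 : ∀ w : Finset (Fin 8), w.card = 4 → ∃ l ∈ t2_8, w ∈ l := by decide
set_option maxRecDepth 100000 in
theorem good_t2_9 : ∀ l ∈ t2_9, Good {0, 1, 2, 3} {0, 1, 4, 5} l := by decide
set_option maxRecDepth 100000 in
theorem cov_t2_9 : ∀ a : Fin 9, ¬ (a = 6 ∨ a = 7 ∨ a = 8) → ∃ l ∈ t2_9, ({a, 6, 7, 8} : Finset (Fin 9)) ∈ l := by decide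
set_option maxRecDepth 100000 in
theorem good_t2_10 : ∀ l ∈ t2_10, Good {0, 1, 2, 3} {0, 1, 4, 5} l := by decide
set_option maxRecDepth 100000 in
theorem cov_t2_10 : ∃ l ∈ t2_10, ({6, 7, 8, 9} : Finset (Fin 10)) ∈ l := by decide
set_option maxRecDepth 100000 in
theorem good_t3_8 : ∀ l ∈ t3_8, Good {0, 1, 2, 3} {0, 1, 2, 4} l := by decide
set_option maxRecDepth 100000 in
theorem cov_t3_8 : ∀ w : Finset (Fin 8), w.card = 4 → ∃ l ∈ t3_8, w ∈ l := by decide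
set_option maxRecDepth 100000 in
theorem good_t3_9 : ∀ l ∈ t3_9, Good {0, 1, 2, 3} {0, 1, 2, 4} l := by decide
set_option maxRecDepth 100000 in
theorem cov_t3_9 : ∃ l ∈ t3_9, ({5, 6, 7, 8} : Finset (Fin 9)) ∈ l := by decide

/-- Transfer of an induced path along an injection. -/
theorem transfer {m n : ℕ} (g : Fin m → Fin n) (hg : Function.Injective g) {x0 y0 w0 : Finset (Fin m)}
    (l : List (Finset (Fin m))) (h : Good x0 y0 l) (hw0 : w0 ∈ l) (hx0 : x0.card = 4)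
    (x y w : {A : Finset (Fin n) // A.card = 4}) (hx : x.1 = x0.image g) (hy : y.1 = y0.image g)
    (hw : w.1 = w0.image g) : OnInducedPath (johnson n 4 1) x y w := by
  obtain ⟨h0, h1, h2, h3, h4, h5⟩ := h
  have hc : ∀ a, (l.getD a x0).card = 4 := by
    intro a
    rcases Nat.lt_or_ge a l.length with ha | ha
    · exact h3 a ha
    · rw [List.getD_eq_default _ _ ha]; exact hx0
  have hci : ∀ A : Finset (Fin m), (A.image g).card = A.card := fun A =>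
    Finset.card_image_of_injective A hg
  have hii : ∀ A B : Finset (Fin m), (A.image g ∩ B.image g).card = (A ∩ B).card := by
    intro A B
    rw [← Finset.image_inter A B hg, hci]
  have hinj : ∀ A B : Finset (Fin m), A.image g = B.image g → A = B := fun A B hAB =>
    Finset.image_injective hg hAB
  refine ⟨l.length - 1, fun a => ⟨(l.getD a x0).image g, by rw [hci, hc]⟩, ?_, ?_, ?_, ?_, ?_⟩
  · apply Subtype.ext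
    show (l.getD 0 x0).image g = x.1
    rw [h1, hx]
  · apply Subtype.ext
    show (l.getD (l.length - 1) x0).image g = y.1
    rw [h2, hy]
  · intro a ha b hb hab
    have h6 : (l.getD a x0).image g = (l.getD b x0).image g := congrArg Subtype.val hab
    exact h5 a (by omega) b (by omega) (hinj _ _ h6)
  · intro a ha b hb
    rw [← h4 a (by omega) b (by omega), ← hii]
    constructor
    · exact fun h6 => h6.2
    · intro h6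
      refine ⟨fun h7 => ?_, h6⟩
      have h8 : (l.getD a x0).image g = (l.getD b x0).image g := congrArg Subtype.val h7
      rw [h8, Finset.inter_self, hci, hc] at h6
      omega
  · obtain ⟨c, hc1, hc2⟩ := List.mem_iff_getElem.1 hw0
    refine ⟨c, by omega, ?_⟩
    apply Subtype.ext
    show (l.getD c x0).image g = w.1
    rw [List.getD_eq_getElem _ _ hc1, hc2, hw]

/-- The preimage of `w` under an injection whose range contains `w`. -/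
theorem pre {m n : ℕ} (g : Fin m → Fin n) (hg : Function.Injective g) (w : Finset (Fin n))
    (hw : ∀ a ∈ w, ∃ i, g i = a) :
    ∃ w0 : Finset (Fin m), w = w0.image g ∧ w0.card = w.card ∧ ∀ i, i ∈ w0 ↔ g i ∈ w := by
  classical
  refine ⟨Finset.univ.filter fun i => g i ∈ w, ?_, ?_, fun i => by simp⟩
  · ext a
    simp only [Finset.mem_image, Finset.mem_filter, Finset.mem_univ, true_and]
    constructor
    · intro ha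
      obtain ⟨i, hi⟩ := hw a ha
      exact ⟨i, by rw [hi]; exact ha, hi⟩
    · rintro ⟨i, hi, rfl⟩
      exact hi
  · have h1 : w = (Finset.univ.filter fun i => g i ∈ w).image g := by
      ext a
      simp only [Finset.mem_image, Finset.mem_filter, Finset.mem_univ, true_and]
      constructor
      · intro ha
        obtain ⟨i, hi⟩ := hw a ha
        exact ⟨i, by rw [hi]; exact ha, hi⟩
      · rintro ⟨i, hi, rfl⟩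
        exact hi
    conv_rhs => rw [h1]
    rw [Finset.card_image_of_injective _ hg]

/-- Distinct values listed by `g`. -/
theorem inj_of {m n : ℕ} (g : Fin m → Fin n) (h : (List.ofFn g).Nodup) : Function.Injective g :=
  List.nodup_ofFn.1 h

theorem mem_of {m n : ℕ} (g : Fin m → Fin n) {a : Fin n} (h : a ∈ List.ofFn g) : ∃ i, g i = a := by
  rw [List.mem_ofFn] at h
  exact h


theorem four {n : ℕ} {s : Finset (Fin n)} (h : s.card = 4) : ∃ a b c d, a ≠ b ∧ a ≠ c ∧ a ≠ d ∧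
    b ≠ c ∧ b ≠ d ∧ c ≠ d ∧ s = {a, b, c, d} := by
  obtain ⟨a, t, hat, hs, ht⟩ := Finset.card_eq_succ.1 h
  obtain ⟨b, c, d, hbc, hbd, hcd, rfl⟩ := Finset.card_eq_three.1 ht
  simp only [Finset.mem_insert, Finset.mem_singleton, not_or] at hat
  exact ⟨a, b, c, d, hat.1, hat.2.1, hat.2.2, hbc, hbd, hcd, hs.symm⟩

/-- A set with four elements, three of which are given. -/
theorem fourth {m : ℕ} {w : Finset (Fin m)} (hw : w.card = 4) {p q r : Fin m} (hp : p ∈ w)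
    (hq : q ∈ w) (hr : r ∈ w) (hpq : p ≠ q) (hpr : p ≠ r) (hqr : q ≠ r) :
    ∃ a, ¬ (a = p ∨ a = q ∨ a = r) ∧ w = {a, p, q, r} := by
  have h1 : ({p, q, r} : Finset (Fin m)) ⊆ w := by
    intro v hv
    simp only [Finset.mem_insert, Finset.mem_singleton] at hv
    rcases hv with rfl | rfl | rfl <;> assumption
  have h2 : ({p, q, r} : Finset (Fin m)).card = 3 := Finset.card_eq_three.2 ⟨p, q, r, hpq, hpr, hqr, rfl⟩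
  have h3 : (w \ {p, q, r}).card = 1 := by
    rw [Finset.card_sdiff_of_subset h1, hw, h2]
  obtain ⟨a, ha⟩ := Finset.card_eq_one.1 h3
  have h4 : a ∈ w \ {p, q, r} := by rw [ha]; simp
  refine ⟨a, ?_, ?_⟩
  · have := (Finset.mem_sdiff.1 h4).2
    simpa only [Finset.mem_insert, Finset.mem_singleton] using this
  · rw [← Finset.sdiff_union_of_subset h1, ha]
    ext v; simp; tauto

theorem case0 {n : ℕ} (_hn : 8 ≤ n) (x y w : {A : Finset (Fin n) // A.card = 4})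
    (h : (x.1 ∩ y.1).card = 0) : OnInducedPath (johnson n 4 1) x y w := by
  have hx1 : (x.1 \ y.1).card = 4 := by
    have := Finset.card_inter_add_card_sdiff x.1 y.1
    rw [x.2, h] at this
    omega
  have hy1 : (y.1 \ x.1).card = 4 := by
    have := Finset.card_inter_add_card_sdiff y.1 x.1
    rw [y.2, Finset.inter_comm, h] at this
    omega
  have hP := Finset.card_eq_zero.1 h
  obtain ⟨a1, a2, a3, a4, n_a1_a2, n_a1_a3, n_a1_a4, n_a2_a3, n_a2_a4, n_a3_a4, hA⟩ := four hx1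
  obtain ⟨b1, b2, b3, b4, n_b1_b2, n_b1_b3, n_b1_b4, n_b2_b3, n_b2_b4, n_b3_b4, hB⟩ := four hy1
  have i_a1 : a1 ∈ x.1 \ y.1 := by rw [hA]; simp
  have i_a2 : a2 ∈ x.1 \ y.1 := by rw [hA]; simp
  have i_a3 : a3 ∈ x.1 \ y.1 := by rw [hA]; simp
  have i_a4 : a4 ∈ x.1 \ y.1 := by rw [hA]; simp
  have i_b1 : b1 ∈ y.1 \ x.1 := by rw [hB]; simp
  have i_b2 : b2 ∈ y.1 \ x.1 := by rw [hB]; simp
  have i_b3 : b3 ∈ y.1 \ x.1 := by rw [hB]; simp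
  have i_b4 : b4 ∈ y.1 \ x.1 := by rw [hB]; simp
  rw [Finset.mem_sdiff] at i_a1
  rw [Finset.mem_sdiff] at i_a2
  rw [Finset.mem_sdiff] at i_a3
  rw [Finset.mem_sdiff] at i_a4
  rw [Finset.mem_sdiff] at i_b1
  rw [Finset.mem_sdiff] at i_b2
  rw [Finset.mem_sdiff] at i_b3
  rw [Finset.mem_sdiff] at i_b4
  have n_a1_b1 : a1 ≠ b1 := fun e => i_b1.2 (e ▸ i_a1.1)
  have n_a1_b2 : a1 ≠ b2 := fun e => i_b2.2 (e ▸ i_a1.1)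
  have n_a1_b3 : a1 ≠ b3 := fun e => i_b3.2 (e ▸ i_a1.1)
  have n_a1_b4 : a1 ≠ b4 := fun e => i_b4.2 (e ▸ i_a1.1)
  have n_a2_b1 : a2 ≠ b1 := fun e => i_b1.2 (e ▸ i_a2.1)
  have n_a2_b2 : a2 ≠ b2 := fun e => i_b2.2 (e ▸ i_a2.1)
  have n_a2_b3 : a2 ≠ b3 := fun e => i_b3.2 (e ▸ i_a2.1)
  have n_a2_b4 : a2 ≠ b4 := fun e => i_b4.2 (e ▸ i_a2.1)
  have n_a3_b1 : a3 ≠ b1 := fun e => i_b1.2 (e ▸ i_a3.1)
  have n_a3_b2 : a3 ≠ b2 := fun e => i_b2.2 (e ▸ i_a3.1)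
  have n_a3_b3 : a3 ≠ b3 := fun e => i_b3.2 (e ▸ i_a3.1)
  have n_a3_b4 : a3 ≠ b4 := fun e => i_b4.2 (e ▸ i_a3.1)
  have n_a4_b1 : a4 ≠ b1 := fun e => i_b1.2 (e ▸ i_a4.1)
  have n_a4_b2 : a4 ≠ b2 := fun e => i_b2.2 (e ▸ i_a4.1)
  have n_a4_b3 : a4 ≠ b3 := fun e => i_b3.2 (e ▸ i_a4.1)
  have n_a4_b4 : a4 ≠ b4 := fun e => i_b4.2 (e ▸ i_a4.1)
  have hx : x.1 = {a1, a2, a3, a4} := by
    rw [← Finset.sdiff_union_inter x.1 y.1, hP, hA]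
    ext v; simp; try tauto
  have hy : y.1 = {b1, b2, b3, b4} := by
    rw [← Finset.sdiff_union_inter y.1 x.1, Finset.inter_comm, hP, hB]
    ext v; simp; try tauto
  have hU : (x.1 ∪ y.1).card = 8 := by
    have := Finset.card_union_add_card_inter x.1 y.1
    rw [x.2, y.2, h] at this
    omega
  obtain ⟨z, hz⟩ : ∃ z, z = w.1 \ (x.1 ∪ y.1) := ⟨_, rfl⟩
  have hzw : z ⊆ w.1 := by rw [hz]; exact Finset.sdiff_subset
  have hz4 : z.card ≤ 4 := by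
    have := Finset.card_le_card hzw
    rwa [w.2] at this
  have hwz : ∀ a ∈ w.1, a ∈ x.1 ∨ a ∈ y.1 ∨ a ∈ z := by
    intro a ha
    by_cases h1 : a ∈ x.1
    · exact Or.inl h1
    · by_cases h2 : a ∈ y.1
      · exact Or.inr (Or.inl h2)
      · exact Or.inr (Or.inr (by rw [hz, Finset.mem_sdiff, Finset.mem_union]; tauto))
  have hzU : z ⊆ (x.1 ∪ y.1)ᶜ := by
    intro a ha
    rw [hz, Finset.mem_sdiff] at ha
    rw [Finset.mem_compl]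
    exact ha.2
  have hcases : z.card ≤ 0 ∨ z.card = 1 ∨ z.card = 2 ∨ z.card = 3 ∨ z.card = 4 := by omega
  rcases hcases with hk | hk | hk | hk | hk
  · obtain ⟨T, hzT, hTU, hTc⟩ := Finset.exists_subsuperset_card_eq (n := 0) hzU (by omega) (by
      rw [Finset.card_compl, Fintype.card_fin, hU]; omega)
    have hT := Finset.card_eq_zero.1 hTc
    have hTx : ∀ c ∈ T, ∀ a, (a ∈ x.1 ∨ a ∈ y.1) → a ≠ c := by
      rintro c hc a ha rfl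
      have := hTU hc
      rw [Finset.mem_compl, Finset.mem_union] at this
      exact this ha
    have hg := inj_of ![a1, a2, a3, a4, b1, b2, b3, b4] (by
      show [a1, a2, a3, a4, b1, b2, b3, b4].Nodup
      simp [n_a1_a2,
        n_a1_a3,
        n_a1_a4,
        n_a2_a3,
        n_a2_a4,
        n_a3_a4,
        n_b1_b2,
        n_b1_b3,
        n_b1_b4,
        n_b2_b3,
        n_b2_b4,
        n_b3_b4,
        n_a1_b1,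
        n_a1_b2,
        n_a1_b3,
        n_a1_b4,
        n_a2_b1,
        n_a2_b2,
        n_a2_b3,
        n_a2_b4,
        n_a3_b1,
        n_a3_b2,
        n_a3_b3,
        n_a3_b4,
        n_a4_b1,
        n_a4_b2,
        n_a4_b3,
        n_a4_b4])
    obtain ⟨w0, hw0, hc0, hm0⟩ := pre ![a1, a2, a3, a4, b1, b2, b3, b4] hg w.1 (by
      intro a ha
      apply mem_of
      show a ∈ [a1, a2, a3, a4, b1, b2, b3, b4]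
      rcases hwz a ha with h1 | h1 | h1
      · rw [hx] at h1; simp at h1 ⊢; tauto
      · rw [hy] at h1; simp at h1 ⊢; tauto
      · have h1 := hzT h1
        rw [hT] at h1; simp at h1 ⊢; try tauto)
    obtain ⟨l, hl, hwl⟩ := cov_t0_8 w0 (by rw [hc0, w.2])
    exact transfer _ hg l (good_t0_8 l hl) hwl (by decide) x y w (by rw [hx]; simp) (by rw [hy]; simp) hw0
  · obtain ⟨T, hTz⟩ : ∃ T, T = z := ⟨z, rfl⟩
    have hzT : z ⊆ T := by rw [hTz]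
    have hTU : T ⊆ (x.1 ∪ y.1)ᶜ := by rw [hTz]; exact hzU
    have hTc : T.card = 1 := by rw [hTz, hk]
    obtain ⟨t1, hT⟩ := Finset.card_eq_one.1 hTc
    have m_t1 : t1 ∈ T := by rw [hT]; simp
    have hTx : ∀ c ∈ T, ∀ a, (a ∈ x.1 ∨ a ∈ y.1) → a ≠ c := by
      rintro c hc a ha rfl
      have := hTU hc
      rw [Finset.mem_compl, Finset.mem_union] at this
      exact this ha
    have hg := inj_of ![a1, a2, a3, a4, b1, b2, b3, b4, t1] (by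
      show [a1, a2, a3, a4, b1, b2, b3, b4, t1].Nodup
      simp [n_a1_a2,
        n_a1_a3,
        n_a1_a4,
        n_a2_a3,
        n_a2_a4,
        n_a3_a4,
        n_b1_b2,
        n_b1_b3,
        n_b1_b4,
        n_b2_b3,
        n_b2_b4,
        n_b3_b4,
        n_a1_b1,
        n_a1_b2,
        n_a1_b3,
        n_a1_b4,
        n_a2_b1,
        n_a2_b2,
        n_a2_b3,
        n_a2_b4,
        n_a3_b1,
        n_a3_b2,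
        n_a3_b3,
        n_a3_b4,
        n_a4_b1,
        n_a4_b2,
        n_a4_b3,
        n_a4_b4,
        hTx _ m_t1 _ (Or.inl i_a1.1),
        hTx _ m_t1 _ (Or.inl i_a2.1),
        hTx _ m_t1 _ (Or.inl i_a3.1),
        hTx _ m_t1 _ (Or.inl i_a4.1),
        hTx _ m_t1 _ (Or.inr i_b1.1),
        hTx _ m_t1 _ (Or.inr i_b2.1),
        hTx _ m_t1 _ (Or.inr i_b3.1),
        hTx _ m_t1 _ (Or.inr i_b4.1)])
    obtain ⟨w0, hw0, hc0, hm0⟩ := pre ![a1, a2, a3, a4, b1, b2, b3, b4, t1] hg w.1 (by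
      intro a ha
      apply mem_of
      show a ∈ [a1, a2, a3, a4, b1, b2, b3, b4, t1]
      rcases hwz a ha with h1 | h1 | h1
      · rw [hx] at h1; simp at h1 ⊢; tauto
      · rw [hy] at h1; simp at h1 ⊢; tauto
      · have h1 := hzT h1
        rw [hT] at h1; simp at h1 ⊢; try tauto)
    obtain ⟨l, hl, hwl⟩ := cov_t0_9 w0 (by rw [hc0, w.2]) ((hm0 8).2 (hzw (hTz ▸ m_t1)))
    exact transfer _ hg l (good_t0_9 l hl) hwl (by decide) x y w (by rw [hx]; simp) (by rw [hy]; simp) hw0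
  · obtain ⟨T, hTz⟩ : ∃ T, T = z := ⟨z, rfl⟩
    have hzT : z ⊆ T := by rw [hTz]
    have hTU : T ⊆ (x.1 ∪ y.1)ᶜ := by rw [hTz]; exact hzU
    have hTc : T.card = 2 := by rw [hTz, hk]
    obtain ⟨t1, t2, n_t1_t2, hT⟩ := Finset.card_eq_two.1 hTc
    have m_t1 : t1 ∈ T := by rw [hT]; simp
    have m_t2 : t2 ∈ T := by rw [hT]; simp
    have hTx : ∀ c ∈ T, ∀ a, (a ∈ x.1 ∨ a ∈ y.1) → a ≠ c := by
      rintro c hc a ha rfl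
      have := hTU hc
      rw [Finset.mem_compl, Finset.mem_union] at this
      exact this ha
    have hg := inj_of ![a1, a2, a3, a4, b1, b2, b3, b4, t1, t2] (by
      show [a1, a2, a3, a4, b1, b2, b3, b4, t1, t2].Nodup
      simp [n_a1_a2,
        n_a1_a3,
        n_a1_a4,
        n_a2_a3,
        n_a2_a4,
        n_a3_a4,
        n_b1_b2,
        n_b1_b3,
        n_b1_b4,
        n_b2_b3,
        n_b2_b4,
        n_b3_b4,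
        n_a1_b1,
        n_a1_b2,
        n_a1_b3,
        n_a1_b4,
        n_a2_b1,
        n_a2_b2,
        n_a2_b3,
        n_a2_b4,
        n_a3_b1,
        n_a3_b2,
        n_a3_b3,
        n_a3_b4,
        n_a4_b1,
        n_a4_b2,
        n_a4_b3,
        n_a4_b4,
        n_t1_t2,
        hTx _ m_t1 _ (Or.inl i_a1.1),
        hTx _ m_t1 _ (Or.inl i_a2.1),
        hTx _ m_t1 _ (Or.inl i_a3.1),
        hTx _ m_t1 _ (Or.inl i_a4.1),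
        hTx _ m_t1 _ (Or.inr i_b1.1),
        hTx _ m_t1 _ (Or.inr i_b2.1),
        hTx _ m_t1 _ (Or.inr i_b3.1),
        hTx _ m_t1 _ (Or.inr i_b4.1),
        hTx _ m_t2 _ (Or.inl i_a1.1),
        hTx _ m_t2 _ (Or.inl i_a2.1),
        hTx _ m_t2 _ (Or.inl i_a3.1),
        hTx _ m_t2 _ (Or.inl i_a4.1),
        hTx _ m_t2 _ (Or.inr i_b1.1),
        hTx _ m_t2 _ (Or.inr i_b2.1),
        hTx _ m_t2 _ (Or.inr i_b3.1),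
        hTx _ m_t2 _ (Or.inr i_b4.1)])
    obtain ⟨w0, hw0, hc0, hm0⟩ := pre ![a1, a2, a3, a4, b1, b2, b3, b4, t1, t2] hg w.1 (by
      intro a ha
      apply mem_of
      show a ∈ [a1, a2, a3, a4, b1, b2, b3, b4, t1, t2]
      rcases hwz a ha with h1 | h1 | h1
      · rw [hx] at h1; simp at h1 ⊢; tauto
      · rw [hy] at h1; simp at h1 ⊢; tauto
      · have h1 := hzT h1
        rw [hT] at h1; simp at h1 ⊢; try tauto)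
    obtain ⟨l, hl, hwl⟩ := cov_t0_10 w0 (by rw [hc0, w.2]) ((hm0 8).2 (hzw (hTz ▸ m_t1))) ((hm0 9).2 (hzw (hTz ▸ m_t2)))
    exact transfer _ hg l (good_t0_10 l hl) hwl (by decide) x y w (by rw [hx]; simp) (by rw [hy]; simp) hw0
  · obtain ⟨T, hTz⟩ : ∃ T, T = z := ⟨z, rfl⟩
    have hzT : z ⊆ T := by rw [hTz]
    have hTU : T ⊆ (x.1 ∪ y.1)ᶜ := by rw [hTz]; exact hzU
    have hTc : T.card = 3 := by rw [hTz, hk]
    obtain ⟨t1, t2, t3, n_t1_t2, n_t1_t3, n_t2_t3, hT⟩ := Finset.card_eq_three.1 hTc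
    have m_t1 : t1 ∈ T := by rw [hT]; simp
    have m_t2 : t2 ∈ T := by rw [hT]; simp
    have m_t3 : t3 ∈ T := by rw [hT]; simp
    have hTx : ∀ c ∈ T, ∀ a, (a ∈ x.1 ∨ a ∈ y.1) → a ≠ c := by
      rintro c hc a ha rfl
      have := hTU hc
      rw [Finset.mem_compl, Finset.mem_union] at this
      exact this ha
    have hg := inj_of ![a1, a2, a3, a4, b1, b2, b3, b4, t1, t2, t3] (by
      show [a1, a2, a3, a4, b1, b2, b3, b4, t1, t2, t3].Nodup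
      simp [n_a1_a2,
        n_a1_a3,
        n_a1_a4,
        n_a2_a3,
        n_a2_a4,
        n_a3_a4,
        n_b1_b2,
        n_b1_b3,
        n_b1_b4,
        n_b2_b3,
        n_b2_b4,
        n_b3_b4,
        n_a1_b1,
        n_a1_b2,
        n_a1_b3,
        n_a1_b4,
        n_a2_b1,
        n_a2_b2,
        n_a2_b3,
        n_a2_b4,
        n_a3_b1,
        n_a3_b2,
        n_a3_b3,
        n_a3_b4,
        n_a4_b1,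
        n_a4_b2,
        n_a4_b3,
        n_a4_b4,
        n_t1_t2,
        n_t1_t3,
        n_t2_t3,
        hTx _ m_t1 _ (Or.inl i_a1.1),
        hTx _ m_t1 _ (Or.inl i_a2.1),
        hTx _ m_t1 _ (Or.inl i_a3.1),
        hTx _ m_t1 _ (Or.inl i_a4.1),
        hTx _ m_t1 _ (Or.inr i_b1.1),
        hTx _ m_t1 _ (Or.inr i_b2.1),
        hTx _ m_t1 _ (Or.inr i_b3.1),
        hTx _ m_t1 _ (Or.inr i_b4.1),
        hTx _ m_t2 _ (Or.inl i_a1.1),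
        hTx _ m_t2 _ (Or.inl i_a2.1),
        hTx _ m_t2 _ (Or.inl i_a3.1),
        hTx _ m_t2 _ (Or.inl i_a4.1),
        hTx _ m_t2 _ (Or.inr i_b1.1),
        hTx _ m_t2 _ (Or.inr i_b2.1),
        hTx _ m_t2 _ (Or.inr i_b3.1),
        hTx _ m_t2 _ (Or.inr i_b4.1),
        hTx _ m_t3 _ (Or.inl i_a1.1),
        hTx _ m_t3 _ (Or.inl i_a2.1),
        hTx _ m_t3 _ (Or.inl i_a3.1),
        hTx _ m_t3 _ (Or.inl i_a4.1),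
        hTx _ m_t3 _ (Or.inr i_b1.1),
        hTx _ m_t3 _ (Or.inr i_b2.1),
        hTx _ m_t3 _ (Or.inr i_b3.1),
        hTx _ m_t3 _ (Or.inr i_b4.1)])
    obtain ⟨w0, hw0, hc0, hm0⟩ := pre ![a1, a2, a3, a4, b1, b2, b3, b4, t1, t2, t3] hg w.1 (by
      intro a ha
      apply mem_of
      show a ∈ [a1, a2, a3, a4, b1, b2, b3, b4, t1, t2, t3]
      rcases hwz a ha with h1 | h1 | h1
      · rw [hx] at h1; simp at h1 ⊢; tauto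
      · rw [hy] at h1; simp at h1 ⊢; tauto
      · have h1 := hzT h1
        rw [hT] at h1; simp at h1 ⊢; try tauto)
    obtain ⟨v, hv, hwv⟩ := fourth (hc0.trans w.2) (p := 8) (q := 9) (r := 10)
      ((hm0 8).2 (hzw (hTz ▸ m_t1))) ((hm0 9).2 (hzw (hTz ▸ m_t2))) ((hm0 10).2 (hzw (hTz ▸ m_t3))) (by decide) (by decide) (by decide)
    obtain ⟨l, hl, hwl⟩ := cov_t0_11 v hv
    rw [← hwv] at hwl
    exact transfer _ hg l (good_t0_11 l hl) hwl (by decide) x y w (by rw [hx]; simp) (by rw [hy]; simp) hw0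
  · obtain ⟨T, hTz⟩ : ∃ T, T = z := ⟨z, rfl⟩
    have hzT : z ⊆ T := by rw [hTz]
    have hTU : T ⊆ (x.1 ∪ y.1)ᶜ := by rw [hTz]; exact hzU
    have hTc : T.card = 4 := by rw [hTz, hk]
    obtain ⟨t1, t2, t3, t4, n_t1_t2, n_t1_t3, n_t1_t4, n_t2_t3, n_t2_t4, n_t3_t4, hT⟩ := four hTc
    have m_t1 : t1 ∈ T := by rw [hT]; simp
    have m_t2 : t2 ∈ T := by rw [hT]; simp
    have m_t3 : t3 ∈ T := by rw [hT]; simp
    have m_t4 : t4 ∈ T := by rw [hT]; simp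
    have hTx : ∀ c ∈ T, ∀ a, (a ∈ x.1 ∨ a ∈ y.1) → a ≠ c := by
      rintro c hc a ha rfl
      have := hTU hc
      rw [Finset.mem_compl, Finset.mem_union] at this
      exact this ha
    have hg := inj_of ![a1, a2, a3, a4, b1, b2, b3, b4, t1, t2, t3, t4] (by
      show [a1, a2, a3, a4, b1, b2, b3, b4, t1, t2, t3, t4].Nodup
      simp [n_a1_a2,
        n_a1_a3,
        n_a1_a4,
        n_a2_a3,
        n_a2_a4,
        n_a3_a4,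
        n_b1_b2,
        n_b1_b3,
        n_b1_b4,
        n_b2_b3,
        n_b2_b4,
        n_b3_b4,
        n_a1_b1,
        n_a1_b2,
        n_a1_b3,
        n_a1_b4,
        n_a2_b1,
        n_a2_b2,
        n_a2_b3,
        n_a2_b4,
        n_a3_b1,
        n_a3_b2,
        n_a3_b3,
        n_a3_b4,
        n_a4_b1,
        n_a4_b2,
        n_a4_b3,
        n_a4_b4,
        n_t1_t2,
        n_t1_t3,
        n_t1_t4,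
        n_t2_t3,
        n_t2_t4,
        n_t3_t4,
        hTx _ m_t1 _ (Or.inl i_a1.1),
        hTx _ m_t1 _ (Or.inl i_a2.1),
        hTx _ m_t1 _ (Or.inl i_a3.1),
        hTx _ m_t1 _ (Or.inl i_a4.1),
        hTx _ m_t1 _ (Or.inr i_b1.1),
        hTx _ m_t1 _ (Or.inr i_b2.1),
        hTx _ m_t1 _ (Or.inr i_b3.1),
        hTx _ m_t1 _ (Or.inr i_b4.1),
        hTx _ m_t2 _ (Or.inl i_a1.1),
        hTx _ m_t2 _ (Or.inl i_a2.1),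
        hTx _ m_t2 _ (Or.inl i_a3.1),
        hTx _ m_t2 _ (Or.inl i_a4.1),
        hTx _ m_t2 _ (Or.inr i_b1.1),
        hTx _ m_t2 _ (Or.inr i_b2.1),
        hTx _ m_t2 _ (Or.inr i_b3.1),
        hTx _ m_t2 _ (Or.inr i_b4.1),
        hTx _ m_t3 _ (Or.inl i_a1.1),
        hTx _ m_t3 _ (Or.inl i_a2.1),
        hTx _ m_t3 _ (Or.inl i_a3.1),
        hTx _ m_t3 _ (Or.inl i_a4.1),
        hTx _ m_t3 _ (Or.inr i_b1.1),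
        hTx _ m_t3 _ (Or.inr i_b2.1),
        hTx _ m_t3 _ (Or.inr i_b3.1),
        hTx _ m_t3 _ (Or.inr i_b4.1),
        hTx _ m_t4 _ (Or.inl i_a1.1),
        hTx _ m_t4 _ (Or.inl i_a2.1),
        hTx _ m_t4 _ (Or.inl i_a3.1),
        hTx _ m_t4 _ (Or.inl i_a4.1),
        hTx _ m_t4 _ (Or.inr i_b1.1),
        hTx _ m_t4 _ (Or.inr i_b2.1),
        hTx _ m_t4 _ (Or.inr i_b3.1),
        hTx _ m_t4 _ (Or.inr i_b4.1)])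
    have hwz' : z = w.1 := Finset.eq_of_subset_of_card_le hzw (by rw [hk, w.2])
    obtain ⟨l, hl, hwl⟩ := cov_t0_12
    exact transfer _ hg l (good_t0_12 l hl) hwl (by decide) x y w (by rw [hx]; simp) (by rw [hy]; simp)
      (by rw [← hwz', ← hTz, hT]; simp)

theorem case2 {n : ℕ} (hn : 8 ≤ n) (x y w : {A : Finset (Fin n) // A.card = 4})
    (h : (x.1 ∩ y.1).card = 2) : OnInducedPath (johnson n 4 1) x y w := by
  have hx1 : (x.1 \ y.1).card = 2 := by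
    have := Finset.card_inter_add_card_sdiff x.1 y.1
    rw [x.2, h] at this
    omega
  have hy1 : (y.1 \ x.1).card = 2 := by
    have := Finset.card_inter_add_card_sdiff y.1 x.1
    rw [y.2, Finset.inter_comm, h] at this
    omega
  obtain ⟨p1, p2, n_p1_p2, hP⟩ := Finset.card_eq_two.1 h
  obtain ⟨a1, a2, n_a1_a2, hA⟩ := Finset.card_eq_two.1 hx1
  obtain ⟨b1, b2, n_b1_b2, hB⟩ := Finset.card_eq_two.1 hy1
  have i_p1 : p1 ∈ x.1 ∩ y.1 := by rw [hP]; simp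
  have i_p2 : p2 ∈ x.1 ∩ y.1 := by rw [hP]; simp
  have i_a1 : a1 ∈ x.1 \ y.1 := by rw [hA]; simp
  have i_a2 : a2 ∈ x.1 \ y.1 := by rw [hA]; simp
  have i_b1 : b1 ∈ y.1 \ x.1 := by rw [hB]; simp
  have i_b2 : b2 ∈ y.1 \ x.1 := by rw [hB]; simp
  rw [Finset.mem_inter] at i_p1
  rw [Finset.mem_inter] at i_p2
  rw [Finset.mem_sdiff] at i_a1
  rw [Finset.mem_sdiff] at i_a2
  rw [Finset.mem_sdiff] at i_b1
  rw [Finset.mem_sdiff] at i_b2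
  have n_p1_a1 : p1 ≠ a1 := fun e => i_a1.2 (e ▸ i_p1.2)
  have n_p1_a2 : p1 ≠ a2 := fun e => i_a2.2 (e ▸ i_p1.2)
  have n_p1_b1 : p1 ≠ b1 := fun e => i_b1.2 (e ▸ i_p1.1)
  have n_p1_b2 : p1 ≠ b2 := fun e => i_b2.2 (e ▸ i_p1.1)
  have n_p2_a1 : p2 ≠ a1 := fun e => i_a1.2 (e ▸ i_p2.2)
  have n_p2_a2 : p2 ≠ a2 := fun e => i_a2.2 (e ▸ i_p2.2)
  have n_p2_b1 : p2 ≠ b1 := fun e => i_b1.2 (e ▸ i_p2.1)
  have n_p2_b2 : p2 ≠ b2 := fun e => i_b2.2 (e ▸ i_p2.1)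
  have n_a1_b1 : a1 ≠ b1 := fun e => i_b1.2 (e ▸ i_a1.1)
  have n_a1_b2 : a1 ≠ b2 := fun e => i_b2.2 (e ▸ i_a1.1)
  have n_a2_b1 : a2 ≠ b1 := fun e => i_b1.2 (e ▸ i_a2.1)
  have n_a2_b2 : a2 ≠ b2 := fun e => i_b2.2 (e ▸ i_a2.1)
  have hx : x.1 = {p1, p2, a1, a2} := by
    rw [← Finset.sdiff_union_inter x.1 y.1, hP, hA]
    ext v; simp; try tauto
  have hy : y.1 = {p1, p2, b1, b2} := by
    rw [← Finset.sdiff_union_inter y.1 x.1, Finset.inter_comm, hP, hB]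
    ext v; simp; try tauto
  have hU : (x.1 ∪ y.1).card = 6 := by
    have := Finset.card_union_add_card_inter x.1 y.1
    rw [x.2, y.2, h] at this
    omega
  obtain ⟨z, hz⟩ : ∃ z, z = w.1 \ (x.1 ∪ y.1) := ⟨_, rfl⟩
  have hzw : z ⊆ w.1 := by rw [hz]; exact Finset.sdiff_subset
  have hz4 : z.card ≤ 4 := by
    have := Finset.card_le_card hzw
    rwa [w.2] at this
  have hwz : ∀ a ∈ w.1, a ∈ x.1 ∨ a ∈ y.1 ∨ a ∈ z := by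
    intro a ha
    by_cases h1 : a ∈ x.1
    · exact Or.inl h1
    · by_cases h2 : a ∈ y.1
      · exact Or.inr (Or.inl h2)
      · exact Or.inr (Or.inr (by rw [hz, Finset.mem_sdiff, Finset.mem_union]; tauto))
  have hzU : z ⊆ (x.1 ∪ y.1)ᶜ := by
    intro a ha
    rw [hz, Finset.mem_sdiff] at ha
    rw [Finset.mem_compl]
    exact ha.2
  have hcases : z.card ≤ 2 ∨ z.card = 3 ∨ z.card = 4 := by omega
  rcases hcases with hk | hk | hk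
  · obtain ⟨T, hzT, hTU, hTc⟩ := Finset.exists_subsuperset_card_eq (n := 2) hzU (by omega) (by
      rw [Finset.card_compl, Fintype.card_fin, hU]; omega)
    obtain ⟨t1, t2, n_t1_t2, hT⟩ := Finset.card_eq_two.1 hTc
    have m_t1 : t1 ∈ T := by rw [hT]; simp
    have m_t2 : t2 ∈ T := by rw [hT]; simp
    have hTx : ∀ c ∈ T, ∀ a, (a ∈ x.1 ∨ a ∈ y.1) → a ≠ c := by
      rintro c hc a ha rfl
      have := hTU hc
      rw [Finset.mem_compl, Finset.mem_union] at this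
      exact this ha
    have hg := inj_of ![p1, p2, a1, a2, b1, b2, t1, t2] (by
      show [p1, p2, a1, a2, b1, b2, t1, t2].Nodup
      simp [n_p1_p2,
        n_a1_a2,
        n_b1_b2,
        n_p1_a1,
        n_p1_a2,
        n_p1_b1,
        n_p1_b2,
        n_p2_a1,
        n_p2_a2,
        n_p2_b1,
        n_p2_b2,
        n_a1_b1,
        n_a1_b2,
        n_a2_b1,
        n_a2_b2,
        n_t1_t2,
        hTx _ m_t1 _ (Or.inl i_p1.1),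
        hTx _ m_t1 _ (Or.inl i_p2.1),
        hTx _ m_t1 _ (Or.inl i_a1.1),
        hTx _ m_t1 _ (Or.inl i_a2.1),
        hTx _ m_t1 _ (Or.inr i_b1.1),
        hTx _ m_t1 _ (Or.inr i_b2.1),
        hTx _ m_t2 _ (Or.inl i_p1.1),
        hTx _ m_t2 _ (Or.inl i_p2.1),
        hTx _ m_t2 _ (Or.inl i_a1.1),
        hTx _ m_t2 _ (Or.inl i_a2.1),
        hTx _ m_t2 _ (Or.inr i_b1.1),
        hTx _ m_t2 _ (Or.inr i_b2.1)])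
    obtain ⟨w0, hw0, hc0, hm0⟩ := pre ![p1, p2, a1, a2, b1, b2, t1, t2] hg w.1 (by
      intro a ha
      apply mem_of
      show a ∈ [p1, p2, a1, a2, b1, b2, t1, t2]
      rcases hwz a ha with h1 | h1 | h1
      · rw [hx] at h1; simp at h1 ⊢; tauto
      · rw [hy] at h1; simp at h1 ⊢; tauto
      · have h1 := hzT h1
        rw [hT] at h1; simp at h1 ⊢; try tauto)
    obtain ⟨l, hl, hwl⟩ := cov_t2_8 w0 (by rw [hc0, w.2])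
    exact transfer _ hg l (good_t2_8 l hl) hwl (by decide) x y w (by rw [hx]; simp) (by rw [hy]; simp) hw0
  · obtain ⟨T, hTz⟩ : ∃ T, T = z := ⟨z, rfl⟩
    have hzT : z ⊆ T := by rw [hTz]
    have hTU : T ⊆ (x.1 ∪ y.1)ᶜ := by rw [hTz]; exact hzU
    have hTc : T.card = 3 := by rw [hTz, hk]
    obtain ⟨t1, t2, t3, n_t1_t2, n_t1_t3, n_t2_t3, hT⟩ := Finset.card_eq_three.1 hTc
    have m_t1 : t1 ∈ T := by rw [hT]; simp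
    have m_t2 : t2 ∈ T := by rw [hT]; simp
    have m_t3 : t3 ∈ T := by rw [hT]; simp
    have hTx : ∀ c ∈ T, ∀ a, (a ∈ x.1 ∨ a ∈ y.1) → a ≠ c := by
      rintro c hc a ha rfl
      have := hTU hc
      rw [Finset.mem_compl, Finset.mem_union] at this
      exact this ha
    have hg := inj_of ![p1, p2, a1, a2, b1, b2, t1, t2, t3] (by
      show [p1, p2, a1, a2, b1, b2, t1, t2, t3].Nodup
      simp [n_p1_p2,
        n_a1_a2,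
        n_b1_b2,
        n_p1_a1,
        n_p1_a2,
        n_p1_b1,
        n_p1_b2,
        n_p2_a1,
        n_p2_a2,
        n_p2_b1,
        n_p2_b2,
        n_a1_b1,
        n_a1_b2,
        n_a2_b1,
        n_a2_b2,
        n_t1_t2,
        n_t1_t3,
        n_t2_t3,
        hTx _ m_t1 _ (Or.inl i_p1.1),
        hTx _ m_t1 _ (Or.inl i_p2.1),
        hTx _ m_t1 _ (Or.inl i_a1.1),
        hTx _ m_t1 _ (Or.inl i_a2.1),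
        hTx _ m_t1 _ (Or.inr i_b1.1),
        hTx _ m_t1 _ (Or.inr i_b2.1),
        hTx _ m_t2 _ (Or.inl i_p1.1),
        hTx _ m_t2 _ (Or.inl i_p2.1),
        hTx _ m_t2 _ (Or.inl i_a1.1),
        hTx _ m_t2 _ (Or.inl i_a2.1),
        hTx _ m_t2 _ (Or.inr i_b1.1),
        hTx _ m_t2 _ (Or.inr i_b2.1),
        hTx _ m_t3 _ (Or.inl i_p1.1),
        hTx _ m_t3 _ (Or.inl i_p2.1),
        hTx _ m_t3 _ (Or.inl i_a1.1),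
        hTx _ m_t3 _ (Or.inl i_a2.1),
        hTx _ m_t3 _ (Or.inr i_b1.1),
        hTx _ m_t3 _ (Or.inr i_b2.1)])
    obtain ⟨w0, hw0, hc0, hm0⟩ := pre ![p1, p2, a1, a2, b1, b2, t1, t2, t3] hg w.1 (by
      intro a ha
      apply mem_of
      show a ∈ [p1, p2, a1, a2, b1, b2, t1, t2, t3]
      rcases hwz a ha with h1 | h1 | h1
      · rw [hx] at h1; simp at h1 ⊢; tauto
      · rw [hy] at h1; simp at h1 ⊢; tauto
      · have h1 := hzT h1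
        rw [hT] at h1; simp at h1 ⊢; try tauto)
    obtain ⟨v, hv, hwv⟩ := fourth (hc0.trans w.2) (p := 6) (q := 7) (r := 8)
      ((hm0 6).2 (hzw (hTz ▸ m_t1))) ((hm0 7).2 (hzw (hTz ▸ m_t2))) ((hm0 8).2 (hzw (hTz ▸ m_t3))) (by decide) (by decide) (by decide)
    obtain ⟨l, hl, hwl⟩ := cov_t2_9 v hv
    rw [← hwv] at hwl
    exact transfer _ hg l (good_t2_9 l hl) hwl (by decide) x y w (by rw [hx]; simp) (by rw [hy]; simp) hw0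
  · obtain ⟨T, hTz⟩ : ∃ T, T = z := ⟨z, rfl⟩
    have hzT : z ⊆ T := by rw [hTz]
    have hTU : T ⊆ (x.1 ∪ y.1)ᶜ := by rw [hTz]; exact hzU
    have hTc : T.card = 4 := by rw [hTz, hk]
    obtain ⟨t1, t2, t3, t4, n_t1_t2, n_t1_t3, n_t1_t4, n_t2_t3, n_t2_t4, n_t3_t4, hT⟩ := four hTc
    have m_t1 : t1 ∈ T := by rw [hT]; simp
    have m_t2 : t2 ∈ T := by rw [hT]; simp
    have m_t3 : t3 ∈ T := by rw [hT]; simp
    have m_t4 : t4 ∈ T := by rw [hT]; simp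
    have hTx : ∀ c ∈ T, ∀ a, (a ∈ x.1 ∨ a ∈ y.1) → a ≠ c := by
      rintro c hc a ha rfl
      have := hTU hc
      rw [Finset.mem_compl, Finset.mem_union] at this
      exact this ha
    have hg := inj_of ![p1, p2, a1, a2, b1, b2, t1, t2, t3, t4] (by
      show [p1, p2, a1, a2, b1, b2, t1, t2, t3, t4].Nodup
      simp [n_p1_p2,
        n_a1_a2,
        n_b1_b2,
        n_p1_a1,
        n_p1_a2,
        n_p1_b1,
        n_p1_b2,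
        n_p2_a1,
        n_p2_a2,
        n_p2_b1,
        n_p2_b2,
        n_a1_b1,
        n_a1_b2,
        n_a2_b1,
        n_a2_b2,
        n_t1_t2,
        n_t1_t3,
        n_t1_t4,
        n_t2_t3,
        n_t2_t4,
        n_t3_t4,
        hTx _ m_t1 _ (Or.inl i_p1.1),
        hTx _ m_t1 _ (Or.inl i_p2.1),
        hTx _ m_t1 _ (Or.inl i_a1.1),
        hTx _ m_t1 _ (Or.inl i_a2.1),
        hTx _ m_t1 _ (Or.inr i_b1.1),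
        hTx _ m_t1 _ (Or.inr i_b2.1),
        hTx _ m_t2 _ (Or.inl i_p1.1),
        hTx _ m_t2 _ (Or.inl i_p2.1),
        hTx _ m_t2 _ (Or.inl i_a1.1),
        hTx _ m_t2 _ (Or.inl i_a2.1),
        hTx _ m_t2 _ (Or.inr i_b1.1),
        hTx _ m_t2 _ (Or.inr i_b2.1),
        hTx _ m_t3 _ (Or.inl i_p1.1),
        hTx _ m_t3 _ (Or.inl i_p2.1),
        hTx _ m_t3 _ (Or.inl i_a1.1),
        hTx _ m_t3 _ (Or.inl i_a2.1),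
        hTx _ m_t3 _ (Or.inr i_b1.1),
        hTx _ m_t3 _ (Or.inr i_b2.1),
        hTx _ m_t4 _ (Or.inl i_p1.1),
        hTx _ m_t4 _ (Or.inl i_p2.1),
        hTx _ m_t4 _ (Or.inl i_a1.1),
        hTx _ m_t4 _ (Or.inl i_a2.1),
        hTx _ m_t4 _ (Or.inr i_b1.1),
        hTx _ m_t4 _ (Or.inr i_b2.1)])
    have hwz' : z = w.1 := Finset.eq_of_subset_of_card_le hzw (by rw [hk, w.2])
    obtain ⟨l, hl, hwl⟩ := cov_t2_10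
    exact transfer _ hg l (good_t2_10 l hl) hwl (by decide) x y w (by rw [hx]; simp) (by rw [hy]; simp)
      (by rw [← hwz', ← hTz, hT]; simp)

theorem case3 {n : ℕ} (hn : 8 ≤ n) (x y w : {A : Finset (Fin n) // A.card = 4})
    (h : (x.1 ∩ y.1).card = 3) : OnInducedPath (johnson n 4 1) x y w := by
  have hx1 : (x.1 \ y.1).card = 1 := by
    have := Finset.card_inter_add_card_sdiff x.1 y.1
    rw [x.2, h] at this
    omega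
  have hy1 : (y.1 \ x.1).card = 1 := by
    have := Finset.card_inter_add_card_sdiff y.1 x.1
    rw [y.2, Finset.inter_comm, h] at this
    omega
  obtain ⟨p1, p2, p3, n_p1_p2, n_p1_p3, n_p2_p3, hP⟩ := Finset.card_eq_three.1 h
  obtain ⟨a1, hA⟩ := Finset.card_eq_one.1 hx1
  obtain ⟨b1, hB⟩ := Finset.card_eq_one.1 hy1
  have i_p1 : p1 ∈ x.1 ∩ y.1 := by rw [hP]; simp
  have i_p2 : p2 ∈ x.1 ∩ y.1 := by rw [hP]; simp
  have i_p3 : p3 ∈ x.1 ∩ y.1 := by rw [hP]; simp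
  have i_a1 : a1 ∈ x.1 \ y.1 := by rw [hA]; simp
  have i_b1 : b1 ∈ y.1 \ x.1 := by rw [hB]; simp
  rw [Finset.mem_inter] at i_p1
  rw [Finset.mem_inter] at i_p2
  rw [Finset.mem_inter] at i_p3
  rw [Finset.mem_sdiff] at i_a1
  rw [Finset.mem_sdiff] at i_b1
  have n_p1_a1 : p1 ≠ a1 := fun e => i_a1.2 (e ▸ i_p1.2)
  have n_p1_b1 : p1 ≠ b1 := fun e => i_b1.2 (e ▸ i_p1.1)
  have n_p2_a1 : p2 ≠ a1 := fun e => i_a1.2 (e ▸ i_p2.2)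
  have n_p2_b1 : p2 ≠ b1 := fun e => i_b1.2 (e ▸ i_p2.1)
  have n_p3_a1 : p3 ≠ a1 := fun e => i_a1.2 (e ▸ i_p3.2)
  have n_p3_b1 : p3 ≠ b1 := fun e => i_b1.2 (e ▸ i_p3.1)
  have n_a1_b1 : a1 ≠ b1 := fun e => i_b1.2 (e ▸ i_a1.1)
  have hx : x.1 = {p1, p2, p3, a1} := by
    rw [← Finset.sdiff_union_inter x.1 y.1, hP, hA]
    ext v; simp; try tauto
  have hy : y.1 = {p1, p2, p3, b1} := by
    rw [← Finset.sdiff_union_inter y.1 x.1, Finset.inter_comm, hP, hB]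
    ext v; simp; try tauto
  have hU : (x.1 ∪ y.1).card = 5 := by
    have := Finset.card_union_add_card_inter x.1 y.1
    rw [x.2, y.2, h] at this
    omega
  obtain ⟨z, hz⟩ : ∃ z, z = w.1 \ (x.1 ∪ y.1) := ⟨_, rfl⟩
  have hzw : z ⊆ w.1 := by rw [hz]; exact Finset.sdiff_subset
  have hz4 : z.card ≤ 4 := by
    have := Finset.card_le_card hzw
    rwa [w.2] at this
  have hwz : ∀ a ∈ w.1, a ∈ x.1 ∨ a ∈ y.1 ∨ a ∈ z := by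
    intro a ha
    by_cases h1 : a ∈ x.1
    · exact Or.inl h1
    · by_cases h2 : a ∈ y.1
      · exact Or.inr (Or.inl h2)
      · exact Or.inr (Or.inr (by rw [hz, Finset.mem_sdiff, Finset.mem_union]; tauto))
  have hzU : z ⊆ (x.1 ∪ y.1)ᶜ := by
    intro a ha
    rw [hz, Finset.mem_sdiff] at ha
    rw [Finset.mem_compl]
    exact ha.2
  have hcases : z.card ≤ 3 ∨ z.card = 4 := by omega
  rcases hcases with hk | hk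
  · obtain ⟨T, hzT, hTU, hTc⟩ := Finset.exists_subsuperset_card_eq (n := 3) hzU (by omega) (by
      rw [Finset.card_compl, Fintype.card_fin, hU]; omega)
    obtain ⟨t1, t2, t3, n_t1_t2, n_t1_t3, n_t2_t3, hT⟩ := Finset.card_eq_three.1 hTc
    have m_t1 : t1 ∈ T := by rw [hT]; simp
    have m_t2 : t2 ∈ T := by rw [hT]; simp
    have m_t3 : t3 ∈ T := by rw [hT]; simp
    have hTx : ∀ c ∈ T, ∀ a, (a ∈ x.1 ∨ a ∈ y.1) → a ≠ c := by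
      rintro c hc a ha rfl
      have := hTU hc
      rw [Finset.mem_compl, Finset.mem_union] at this
      exact this ha
    have hg := inj_of ![p1, p2, p3, a1, b1, t1, t2, t3] (by
      show [p1, p2, p3, a1, b1, t1, t2, t3].Nodup
      simp [n_p1_p2,
        n_p1_p3,
        n_p2_p3,
        n_p1_a1,
        n_p1_b1,
        n_p2_a1,
        n_p2_b1,
        n_p3_a1,
        n_p3_b1,
        n_a1_b1,
        n_t1_t2,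
        n_t1_t3,
        n_t2_t3,
        hTx _ m_t1 _ (Or.inl i_p1.1),
        hTx _ m_t1 _ (Or.inl i_p2.1),
        hTx _ m_t1 _ (Or.inl i_p3.1),
        hTx _ m_t1 _ (Or.inl i_a1.1),
        hTx _ m_t1 _ (Or.inr i_b1.1),
        hTx _ m_t2 _ (Or.inl i_p1.1),
        hTx _ m_t2 _ (Or.inl i_p2.1),
        hTx _ m_t2 _ (Or.inl i_p3.1),
        hTx _ m_t2 _ (Or.inl i_a1.1),
        hTx _ m_t2 _ (Or.inr i_b1.1),
        hTx _ m_t3 _ (Or.inl i_p1.1),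
        hTx _ m_t3 _ (Or.inl i_p2.1),
        hTx _ m_t3 _ (Or.inl i_p3.1),
        hTx _ m_t3 _ (Or.inl i_a1.1),
        hTx _ m_t3 _ (Or.inr i_b1.1)])
    obtain ⟨w0, hw0, hc0, hm0⟩ := pre ![p1, p2, p3, a1, b1, t1, t2, t3] hg w.1 (by
      intro a ha
      apply mem_of
      show a ∈ [p1, p2, p3, a1, b1, t1, t2, t3]
      rcases hwz a ha with h1 | h1 | h1
      · rw [hx] at h1; simp at h1 ⊢; tauto
      · rw [hy] at h1; simp at h1 ⊢; tauto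
      · have h1 := hzT h1
        rw [hT] at h1; simp at h1 ⊢; try tauto)
    obtain ⟨l, hl, hwl⟩ := cov_t3_8 w0 (by rw [hc0, w.2])
    exact transfer _ hg l (good_t3_8 l hl) hwl (by decide) x y w (by rw [hx]; simp) (by rw [hy]; simp) hw0
  · obtain ⟨T, hTz⟩ : ∃ T, T = z := ⟨z, rfl⟩
    have hzT : z ⊆ T := by rw [hTz]
    have hTU : T ⊆ (x.1 ∪ y.1)ᶜ := by rw [hTz]; exact hzU
    have hTc : T.card = 4 := by rw [hTz, hk]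
    obtain ⟨t1, t2, t3, t4, n_t1_t2, n_t1_t3, n_t1_t4, n_t2_t3, n_t2_t4, n_t3_t4, hT⟩ := four hTc
    have m_t1 : t1 ∈ T := by rw [hT]; simp
    have m_t2 : t2 ∈ T := by rw [hT]; simp
    have m_t3 : t3 ∈ T := by rw [hT]; simp
    have m_t4 : t4 ∈ T := by rw [hT]; simp
    have hTx : ∀ c ∈ T, ∀ a, (a ∈ x.1 ∨ a ∈ y.1) → a ≠ c := by
      rintro c hc a ha rfl
      have := hTU hc
      rw [Finset.mem_compl, Finset.mem_union] at this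
      exact this ha
    have hg := inj_of ![p1, p2, p3, a1, b1, t1, t2, t3, t4] (by
      show [p1, p2, p3, a1, b1, t1, t2, t3, t4].Nodup
      simp [n_p1_p2,
        n_p1_p3,
        n_p2_p3,
        n_p1_a1,
        n_p1_b1,
        n_p2_a1,
        n_p2_b1,
        n_p3_a1,
        n_p3_b1,
        n_a1_b1,
        n_t1_t2,
        n_t1_t3,
        n_t1_t4,
        n_t2_t3,
        n_t2_t4,
        n_t3_t4,
        hTx _ m_t1 _ (Or.inl i_p1.1),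
        hTx _ m_t1 _ (Or.inl i_p2.1),
        hTx _ m_t1 _ (Or.inl i_p3.1),
        hTx _ m_t1 _ (Or.inl i_a1.1),
        hTx _ m_t1 _ (Or.inr i_b1.1),
        hTx _ m_t2 _ (Or.inl i_p1.1),
        hTx _ m_t2 _ (Or.inl i_p2.1),
        hTx _ m_t2 _ (Or.inl i_p3.1),
        hTx _ m_t2 _ (Or.inl i_a1.1),
        hTx _ m_t2 _ (Or.inr i_b1.1),
        hTx _ m_t3 _ (Or.inl i_p1.1),
        hTx _ m_t3 _ (Or.inl i_p2.1),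
        hTx _ m_t3 _ (Or.inl i_p3.1),
        hTx _ m_t3 _ (Or.inl i_a1.1),
        hTx _ m_t3 _ (Or.inr i_b1.1),
        hTx _ m_t4 _ (Or.inl i_p1.1),
        hTx _ m_t4 _ (Or.inl i_p2.1),
        hTx _ m_t4 _ (Or.inl i_p3.1),
        hTx _ m_t4 _ (Or.inl i_a1.1),
        hTx _ m_t4 _ (Or.inr i_b1.1)])
    have hwz' : z = w.1 := Finset.eq_of_subset_of_card_le hzw (by rw [hk, w.2])
    obtain ⟨l, hl, hwl⟩ := cov_t3_9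
    exact transfer _ hg l (good_t3_9 l hl) hwl (by decide) x y w (by rw [hx]; simp) (by rw [hy]; simp)
      (by rw [← hwz', ← hTz, hT]; simp)

/-- Only the one-vertex path joins a vertex to itself. -/
theorem eq_of_onInducedPath_self {V : Type} {G : SimpleGraph V} {x w : V}
    (h : OnInducedPath G x x w) : w = x := by
  obtain ⟨l, f, h0, hl, hinj, _, c, hc, hfc⟩ := h
  have h1 : 0 = l := hinj 0 (by omega) l le_rfl (h0.trans hl.symm)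
  have h2 : c = 0 := by omega
  rw [← hfc, h2, h0]

/-- **Theorem.** For every `n ≥ 8` the generalized Johnson graph `J(n, 4, 1)` is strongly
2-monophonic: its monophonic number is two, and every two distinct non-adjacent vertices form a
monophonic set. -/
theorem result (n : ℕ) (hn : 8 ≤ n) :
    MonophonicNumberTwo (johnson n 4 1) ∧
    ∀ x y : {A : Finset (Fin n) // A.card = 4}, x ≠ y → ¬ (johnson n 4 1).Adj x y →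
      Monophonic (johnson n 4 1) {x, y} := by
  have key : ∀ x y : {A : Finset (Fin n) // A.card = 4}, x ≠ y → ¬ (johnson n 4 1).Adj x y →
      Monophonic (johnson n 4 1) {x, y} := by
    intro x y hxy hadj w
    refine ⟨x, by simp, y, by simp, ?_⟩
    have h1 : (x.1 ∩ y.1).card ≠ 1 := fun h => hadj ⟨hxy, h⟩
    have h2 : (x.1 ∩ y.1).card ≤ 4 := by
      have := Finset.card_le_card (Finset.inter_subset_left (s₁ := x.1) (s₂ := y.1))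
      rwa [x.2] at this
    have h3 : (x.1 ∩ y.1).card ≠ 4 := by
      intro h
      have e1 : x.1 ∩ y.1 = x.1 :=
        Finset.eq_of_subset_of_card_le Finset.inter_subset_left (by rw [h, x.2])
      have e2 : x.1 ∩ y.1 = y.1 :=
        Finset.eq_of_subset_of_card_le Finset.inter_subset_right (by rw [h, y.2])
      exact hxy (Subtype.ext (e1.symm.trans e2))
    have h4 : (x.1 ∩ y.1).card = 0 ∨ (x.1 ∩ y.1).card = 2 ∨ (x.1 ∩ y.1).card = 3 := by omega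
    rcases h4 with h4 | h4 | h4
    · exact case0 hn x y w h4
    · exact case2 hn x y w h4
    · exact case3 hn x y w h4
  obtain ⟨x, hx⟩ : ∃ x : {A : Finset (Fin n) // A.card = 4}, True := by
    obtain ⟨t, _, ht⟩ := Finset.exists_subset_card_eq (s := (Finset.univ : Finset (Fin n)))
      (n := 4) (by rw [Finset.card_univ, Fintype.card_fin]; omega)
    exact ⟨⟨t, ht⟩, trivial⟩
  obtain ⟨y, hy⟩ : ∃ y : {A : Finset (Fin n) // A.card = 4}, (x.1 ∩ y.1).card = 0 := by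
    obtain ⟨t, ht, htc⟩ := Finset.exists_subset_card_eq (s := x.1ᶜ)
      (n := 4) (by rw [Finset.card_compl, Fintype.card_fin, x.2]; omega)
    refine ⟨⟨t, htc⟩, ?_⟩
    rw [Finset.card_eq_zero, ← Finset.disjoint_iff_inter_eq_empty]
    exact Finset.disjoint_left.2 fun a ha hat => by
      have := ht hat
      rw [Finset.mem_compl] at this
      exact this ha
  have hxy : x ≠ y := by
    rintro rfl
    rw [Finset.inter_self, x.2] at hy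
    omega
  refine ⟨⟨⟨{x, y}, Finset.card_pair hxy, key x y hxy fun h => ?_⟩, fun S hS => ?_⟩, key⟩
  · have := h.2
    omega
  · by_contra hlt
    push Not at hlt
    obtain ⟨u, hu, v, hv, huv⟩ := hS x
    have h1 : S.card = 1 := by
      have := Finset.card_pos.2 ⟨u, hu⟩
      omega
    obtain ⟨s, hs⟩ := Finset.card_eq_one.1 h1
    have h2 : ∀ w, w = s := by
      intro w
      obtain ⟨u, hu, v, hv, huv⟩ := hS w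
      rw [hs, Finset.mem_singleton] at hu hv
      subst hu
      subst hv
      exact eq_of_onInducedPath_self huv
    exact hxy ((h2 x).trans (h2 y).symm)

end Pool.Agent.Results.MP_785afb_co.FourSubsets
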