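import Mathlib

/-!
# Generalized Johnson graphs on a large ground set are strongly 2-monophonic

For `2 ≤ i ≤ r - 2` and `n ≥ 9 r` the generalized Johnson graph `J(n,r,i)` is strongly 2-monophonic.
One writes down a sequence that starts with the elements of `x` (last an `i`-set `P₁`), goes on with new
elements and ends with the elements of `w` (first an `i`-set `P₂`); its windows of length `r` at the
multiples of `r - i` form an induced path from `x` to `w`. Such a path is glued to one from `w` to `y`; the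
sets `P₁, P₂ , P₃, P₄` are chosen so that there are no edges between the two halves.
For `i = 2` there is one position of `x, y, w` in which the second half is a path `w, e, y` instead.
For `6 ≤ 2 i ≤ r` a short path does it for `n ≥ 7 r - 4 i`: between `x` and `w` one puts the path
`x, P₁ ∪ A, P₂ ∪ D, w`, where `A`, `D` consist of new elements.
-/

set_option autoImplicit false

namespace Pool.Agent.Results.MP_785afb_co.LargeGroundSet

/-- The generalized Johnson graph `J(n,r,i)`. -/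
def J (n r i : ℕ) : SimpleGraph {s : Finset (Fin n) // s.card = r} where
  Adj A B := A ≠ B ∧ (A.1 ∩ B.1).card = i
  symm := ⟨fun A B h => ⟨h.1.symm, by rw [Finset.inter_comm]; exact h.2⟩⟩
  loopless := ⟨fun A h => h.1 rfl⟩

/-- `l` is the vertex sequence of an induced path of `G`. -/
def IsInducedPath {V : Type} (G : SimpleGraph V) (l : List V) : Prop :=
  l.Nodup ∧ ∀ (i j : ℕ) (hi : i < l.length) (hj : j < l.length),
    G.Adj l[i] l[j] ↔ (i + 1 = j ∨ j + 1 = i)

/-- The monophonic interval `J_G(u,v)`. -/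
def interval {V : Type} (G : SimpleGraph V) (u v : V) : Set V :=
  {w | ∃ l : List V, IsInducedPath G l ∧ l.head? = some u ∧ l.getLast? = some v ∧ w ∈ l}

/-- A monophonic set. -/
def Monophonic {V : Type} (G : SimpleGraph V) (S : Set V) : Prop :=
  ∀ w, ∃ x ∈ S, ∃ y ∈ S, w ∈ interval G x y

/-- The smallest size of a monophonic set is `2`, and every pair of different non-adjacent vertices is
a monophonic set. -/
def StronglyTwoMonophonic {V : Type} (G : SimpleGraph V) : Prop :=
  IsLeast {k : ℕ | ∃ S : Set V, S.Finite ∧ S.ncard = k ∧ Monophonic G S} 2 ∧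
    ∀ x y : V, x ≠ y → ¬ G.Adj x y → Monophonic G {x, y}

section paths

variable {V : Type} (G : SimpleGraph V)

lemma interval_self (u w : V) (h : w ∈ interval G u u) : w = u := by
  obtain ⟨l, ⟨h1, _⟩, h3, h4, h5⟩ := h
  cases l with
  | nil => simp at h5
  | cons a l =>
    simp at h3
    subst h3
    cases l with
    | nil => simpa using h5
    | cons b l =>
      exfalso
      have : (a :: b :: l).getLast? = (b :: l).getLast? := by simp [List.getLast?_cons_cons]
      rw [this] at h4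
      have hm : a ∈ b :: l := List.mem_of_getLast? h4
      exact (List.nodup_cons.1 h1).1 hm

lemma pathFn {m : ℕ} (v : Fin m → V)
    (h : ∀ i j : Fin m, i < j → v i ≠ v j ∧ (G.Adj (v i) (v j) ↔ (i : ℕ) + 1 = (j : ℕ))) :
    IsInducedPath G (List.ofFn v) := by
  constructor
  · rw [List.nodup_ofFn]
    intro i j hij
    by_contra hne
    rcases lt_or_gt_of_ne hne with h1 | h1
    · exact (h i j h1).1 hij
    · exact (h j i h1).1 hij.symm
  · intro i j hi hj
    rw [List.getElem_ofFn, List.getElem_ofFn]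
    rw [List.length_ofFn] at hi hj
    rcases lt_trichotomy i j with h1 | h1 | h1
    · have h2 := (h ⟨i, hi⟩ ⟨j, hj⟩ h1).2
      rw [h2]
      constructor
      · intro h3; exact Or.inl h3
      · rintro (h3 | h3)
        · exact h3
        · omega
    · subst h1
      constructor
      · intro h3; exact absurd rfl h3.ne
      · intro h3; omega
    · have h2 := (h ⟨j, hj⟩ ⟨i, hi⟩ h1).2
      rw [G.adj_comm, h2]
      constructor
      · intro h3; exact Or.inr h3
      · rintro (h3 | h3)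
        · omega
        · exact h3

/-- different and not adjacent -/
def Sep (x y : V) : Prop := x ≠ y ∧ ¬ G.Adj x y

lemma path3 (x0 x1 x2 : V) (h01 : G.Adj x0 x1) (h12 : G.Adj x1 x2) (n02 : Sep G x0 x2) :
    IsInducedPath G (List.ofFn ![x0, x1, x2]) := by
  apply pathFn
  intro i j hij
  unfold Sep at n02
  fin_cases i <;> fin_cases j <;> first
    | exact absurd hij (by decide)
    | exact ⟨h01.ne, by simpa using h01⟩
    | exact ⟨h12.ne, by simpa using h12⟩
    | exact ⟨n02.1, by simpa using n02.2⟩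

lemma path5 (x0 x1 x2 x3 x4 : V) (h01 : G.Adj x0 x1) (h12 : G.Adj x1 x2) (h23 : G.Adj x2 x3)
    (h34 : G.Adj x3 x4) (n02 : Sep G x0 x2) (n03 : Sep G x0 x3) (n04 : Sep G x0 x4)
    (n13 : Sep G x1 x3) (n14 : Sep G x1 x4) (n24 : Sep G x2 x4) :
    IsInducedPath G (List.ofFn ![x0, x1, x2, x3, x4]) := by
  apply pathFn
  intro i j hij
  unfold Sep at n02 n03 n04 n13 n14 n24
  fin_cases i <;> fin_cases j <;> first
    | exact absurd hij (by decide)
    | exact ⟨h01.ne, by simpa using h01⟩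
    | exact ⟨h12.ne, by simpa using h12⟩
    | exact ⟨h23.ne, by simpa using h23⟩
    | exact ⟨h34.ne, by simpa using h34⟩
    | exact ⟨n02.1, by simpa using n02.2⟩
    | exact ⟨n03.1, by simpa using n03.2⟩
    | exact ⟨n04.1, by simpa using n04.2⟩
    | exact ⟨n13.1, by simpa using n13.2⟩
    | exact ⟨n14.1, by simpa using n14.2⟩
    | exact ⟨n24.1, by simpa using n24.2⟩

lemma path7 (x0 x1 x2 x3 x4 x5 x6 : V) (h01 : G.Adj x0 x1) (h12 : G.Adj x1 x2)
    (h23 : G.Adj x2 x3) (h34 : G.Adj x3 x4) (h45 : G.Adj x4 x5) (h56 : G.Adj x5 x6)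
    (n02 : Sep G x0 x2) (n03 : Sep G x0 x3) (n04 : Sep G x0 x4) (n05 : Sep G x0 x5)
    (n06 : Sep G x0 x6) (n13 : Sep G x1 x3) (n14 : Sep G x1 x4) (n15 : Sep G x1 x5)
    (n16 : Sep G x1 x6) (n24 : Sep G x2 x4) (n25 : Sep G x2 x5) (n26 : Sep G x2 x6)
    (n35 : Sep G x3 x5) (n36 : Sep G x3 x6) (n46 : Sep G x4 x6) :
    IsInducedPath G (List.ofFn ![x0, x1, x2, x3, x4, x5, x6]) := by
  apply pathFn
  intro i j hij
  unfold Sep at *
  fin_cases i <;> fin_cases j <;> first
    | exact absurd hij (by decide)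
    | exact ⟨h01.ne, by simpa using h01⟩
    | exact ⟨h12.ne, by simpa using h12⟩
    | exact ⟨h23.ne, by simpa using h23⟩
    | exact ⟨h34.ne, by simpa using h34⟩
    | exact ⟨h45.ne, by simpa using h45⟩
    | exact ⟨h56.ne, by simpa using h56⟩
    | exact ⟨n02.1, by simpa using n02.2⟩
    | exact ⟨n03.1, by simpa using n03.2⟩
    | exact ⟨n04.1, by simpa using n04.2⟩
    | exact ⟨n05.1, by simpa using n05.2⟩
    | exact ⟨n06.1, by simpa using n06.2⟩
    | exact ⟨n13.1, by simpa using n13.2⟩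
    | exact ⟨n14.1, by simpa using n14.2⟩
    | exact ⟨n15.1, by simpa using n15.2⟩
    | exact ⟨n16.1, by simpa using n16.2⟩
    | exact ⟨n24.1, by simpa using n24.2⟩
    | exact ⟨n25.1, by simpa using n25.2⟩
    | exact ⟨n26.1, by simpa using n26.2⟩
    | exact ⟨n35.1, by simpa using n35.2⟩
    | exact ⟨n36.1, by simpa using n36.2⟩
    | exact ⟨n46.1, by simpa using n46.2⟩

/-- `p 0, …, p m` is an induced path. -/
def Seg (m : ℕ) (p : ℕ → V) : Prop :=
  ∀ a b, a < b → b ≤ m → p a ≠ p b ∧ (G.Adj (p a) (p b) ↔ a + 1 = b)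

lemma glue (m1 m2 : ℕ) (p q : ℕ → V) (h1 : Seg G m1 p) (h2 : Seg G m2 q) (h : p m1 = q 0)
    (hm2 : 0 < m2) (cross : ∀ j l, j < m1 → 0 < l → l ≤ m2 → Sep G (p j) (q l)) :
    p m1 ∈ interval G (p 0) (q m2) := by
  refine ⟨List.ofFn (fun t : Fin (m1 + m2 + 1) => if (t : ℕ) ≤ m1 then p t else q (t - m1)),
    ?_, ?_, ?_, ?_⟩
  · apply pathFn
    intro a b hab
    have hb := b.2
    have hab' : (a : ℕ) < (b : ℕ) := hab
    show (if (a : ℕ) ≤ m1 then p a else q (a - m1)) ≠ (if (b : ℕ) ≤ m1 then p b else q (b - m1)) ∧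
      (G.Adj (if (a : ℕ) ≤ m1 then p a else q (a - m1))
        (if (b : ℕ) ≤ m1 then p b else q (b - m1)) ↔ (a : ℕ) + 1 = (b : ℕ))
    by_cases hb1 : (b : ℕ) ≤ m1
    · have ha1 : (a : ℕ) ≤ m1 := by omega
      rw [if_pos hb1, if_pos ha1]
      exact h1 a b hab' hb1
    · by_cases ha1 : (a : ℕ) < m1
      · rw [if_neg hb1, if_pos ha1.le]
        have h3 := cross a (b - m1) ha1 (by omega) (by omega)
        exact ⟨h3.1, fun h => absurd h h3.2, fun h => by omega⟩
      · have key : (if (a : ℕ) ≤ m1 then p a else q (a - m1)) = q (a - m1) := by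
          by_cases ha2 : (a : ℕ) ≤ m1
          · have ha3 : (a : ℕ) = m1 := by omega
            rw [if_pos ha2, ha3, h, Nat.sub_self]
          · rw [if_neg ha2]
        rw [key, if_neg hb1]
        have h3 := h2 (a - m1) (b - m1) (by omega) (by omega)
        exact ⟨h3.1, h3.2.trans (by constructor <;> intro h <;> omega)⟩
  · rw [List.head?_eq_getElem?, List.getElem?_ofFn, dif_pos (by omega)]
    simp
  · rw [List.getLast?_eq_getElem?, List.length_ofFn, List.getElem?_ofFn, dif_pos (by omega)]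
    have h3 : ¬ (m1 + m2 + 1 - 1 ≤ m1) := by omega
    have h4 : m1 + m2 + 1 - 1 - m1 = m2 := by omega
    simp only [h3, if_false, h4]
  · rw [List.mem_ofFn]
    exact ⟨⟨m1, by omega⟩, by simp⟩

end paths

section sets

variable {n r i : ℕ}

lemma card_inter (B P Q A D : Finset (Fin n)) (hP : P ⊆ B) (hQ : Q ⊆ B) (hA : A ⊆ Bᶜ)
    (hD : D ⊆ Bᶜ) : ((P ∪ A) ∩ (Q ∪ D)).card = (P ∩ Q).card + (A ∩ D).card := by
  have h : (P ∪ A) ∩ (Q ∪ D) = (P ∩ Q) ∪ (A ∩ D) := by
    ext t
    simp only [Finset.mem_inter, Finset.mem_union]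
    constructor
    · rintro ⟨h1 | h1, h2 | h2⟩
      · exact Or.inl ⟨h1, h2⟩
      · exact absurd (hP h1) (Finset.mem_compl.mp (hD h2))
      · exact absurd (hQ h2) (Finset.mem_compl.mp (hA h1))
      · exact Or.inr ⟨h1, h2⟩
    · rintro (⟨h1, h2⟩ | ⟨h1, h2⟩)
      · exact ⟨Or.inl h1, Or.inl h2⟩
      · exact ⟨Or.inr h1, Or.inr h2⟩
  rw [h, Finset.card_union_of_disjoint]
  rw [Finset.disjoint_left]
  intro t h1 h2
  exact Finset.mem_compl.mp (hA (Finset.mem_inter.mp h2).1) (hP (Finset.mem_inter.mp h1).1)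

lemma lt_of_not_subset {P Q : Finset (Fin n)} (hP : P.card = i) (h : ¬ P ⊆ Q) :
    (P ∩ Q).card < i := by
  rw [← hP]
  apply Finset.card_lt_card
  rw [Finset.ssubset_iff_subset_ne]
  refine ⟨Finset.inter_subset_left, fun h1 => h ?_⟩
  rw [← h1]
  exact Finset.inter_subset_right

lemma exists_not_mem {X Y : Finset (Fin n)} (h : Y.card ≤ X.card) (hne : X ≠ Y) :
    ∃ u ∈ X, u ∉ Y := by
  by_contra hcon
  push Not at hcon
  exact hne (Finset.eq_of_subset_of_card_le hcon h)

lemma exP (X Y Z : Finset (Fin n)) (hX : X.card = r) (hY : Y.card = r) (hZ : Z.card = r)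
    (hXY : X ≠ Y) (hXZ : X ≠ Z) (hi : 2 ≤ i) (hir : i ≤ r) :
    ∃ P ⊆ X, P.card = i ∧ ¬ P ⊆ Y ∧ ¬ P ⊆ Z := by
  obtain ⟨u, hu, hu'⟩ := exists_not_mem (hY.trans hX.symm).le hXY
  obtain ⟨v, hv, hv'⟩ := exists_not_mem (hZ.trans hX.symm).le hXZ
  obtain ⟨P, hP1, hP2, hP3⟩ := Finset.exists_subsuperset_card_eq (s := {u, v}) (t := X) (n := i)
    (by
      intro t ht
      rw [Finset.mem_insert, Finset.mem_singleton] at ht
      rcases ht with rfl | rfl
      · exact hu
      · exact hv) (Finset.card_le_two.trans hi) (by rw [hX]; exact hir)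
  exact ⟨P, hP2, hP3, fun h => hu' (h (hP1 (by simp))), fun h => hv' (h (hP1 (by simp)))⟩

lemma exP' (X Y Z Q : Finset (Fin n)) (hX : X.card = r) (hY : Y.card = r) (hZ : Z.card = r)
    (hXY : X ≠ Y) (hXZ : X ≠ Z) (hQ : Q.card = i) (hi : 3 ≤ i) (hir : i < r) :
    ∃ P ⊆ X, P.card = i ∧ ¬ P ⊆ Y ∧ ¬ P ⊆ Z ∧ ¬ Q ⊆ P := by
  obtain ⟨u, hu, hu'⟩ := exists_not_mem (hY.trans hX.symm).le hXY
  obtain ⟨v, hv, hv'⟩ := exists_not_mem (hZ.trans hX.symm).le hXZ
  obtain ⟨q, hq, hq'⟩ := exists_not_mem (X := X) (Y := Q) (by omega) (by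
    rintro rfl
    omega)
  obtain ⟨P, hP1, hP2, hP3⟩ := Finset.exists_subsuperset_card_eq (s := {u, v, q}) (t := X) (n := i)
    (by
      intro t ht
      simp only [Finset.mem_insert, Finset.mem_singleton] at ht
      rcases ht with rfl | rfl | rfl
      · exact hu
      · exact hv
      · exact hq) (Finset.card_le_three.trans hi) (by rw [hX]; exact hir.le)
  refine ⟨P, hP2, hP3, fun h => hu' (h (hP1 (by simp))), fun h => hv' (h (hP1 (by simp))), ?_⟩
  intro h
  have h1 : Q = P := Finset.eq_of_subset_of_card_le h (by omega)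
  exact hq' (h1 ▸ hP1 (by simp))

/-- new elements for the second vertex of a link -/
lemma exD (U1 U2 : Finset (Fin n)) (h12 : Disjoint U1 U2) (c : ℕ) (hc : c ≤ i) (hr : 2 * i ≤ r)
    (h1 : U1.card = r - i) (h2 : U2.card = r - i) :
    ∃ D ⊆ U1 ∪ U2, D.card = r - i ∧ (U1 ∩ D).card = i - c := by
  obtain ⟨S, hS, hSc⟩ := Finset.exists_subset_card_eq (s := U1) (n := i - c) (by omega)
  obtain ⟨T, hT, hTc⟩ := Finset.exists_subset_card_eq (s := U2) (n := r - i - (i - c)) (by omega)
  have hST : Disjoint S T := Finset.disjoint_of_subset_left hS (Finset.disjoint_of_subset_right hT h12)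
  refine ⟨S ∪ T, Finset.union_subset_union hS hT, ?_, ?_⟩
  · rw [Finset.card_union_of_disjoint hST]
    omega
  · have h3 : U1 ∩ (S ∪ T) = S := by
      rw [Finset.inter_union_distrib_left, Finset.inter_eq_right.mpr hS,
        Finset.disjoint_iff_inter_eq_empty.mp (Finset.disjoint_of_subset_right hT h12),
        Finset.union_empty]
    rw [h3, hSc]

/-- `f` enumerates `S` on the interval `[lo, hi)`. -/
def Enum (f : ℕ → Fin n) (lo hi : ℕ) (S : Finset (Fin n)) : Prop :=
  Set.InjOn f (Set.Ico lo hi) ∧ (Finset.Ico lo hi).image f = S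

lemma Enum.mem {f : ℕ → Fin n} {lo hi : ℕ} {S : Finset (Fin n)} (h : Enum f lo hi S) (t : ℕ)
    (h1 : lo ≤ t) (h2 : t < hi) : f t ∈ S := by
  rw [← h.2]
  exact Finset.mem_image_of_mem f (Finset.mem_Ico.mpr ⟨h1, h2⟩)

lemma Enum.union {f : ℕ → Fin n} {lo mid hi : ℕ} {S T : Finset (Fin n)} (h1 : Enum f lo mid S)
    (h2 : Enum f mid hi T) (hd : Disjoint S T) (h : lo ≤ mid) (h' : mid ≤ hi) :
    Enum f lo hi (S ∪ T) := by
  constructor
  · intro a ha b hb hab
    rw [Set.mem_Ico] at ha hb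
    by_cases ha' : a < mid
    · by_cases hb' : b < mid
      · exact h1.1 (Set.mem_Ico.mpr ⟨ha.1, ha'⟩) (Set.mem_Ico.mpr ⟨hb.1, hb'⟩) hab
      · exact absurd (hab ▸ h2.mem b (by omega) hb.2) (Finset.disjoint_left.mp hd (h1.mem a ha.1 ha'))
    · by_cases hb' : b < mid
      · exact absurd (hab ▸ h2.mem a (by omega) ha.2) (Finset.disjoint_left.mp hd (h1.mem b hb.1 hb'))
      · exact h2.1 (Set.mem_Ico.mpr ⟨by omega, ha.2⟩) (Set.mem_Ico.mpr ⟨by omega, hb.2⟩) hab
  · rw [← h1.2, ← h2.2, ← Finset.image_union, Finset.Ico_union_Ico_eq_Ico h h']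

lemma exists_enum (S : Finset (Fin n)) (lo hi : ℕ) (hc : lo + S.card = hi) (x0 : Fin n) :
    ∃ f, Enum f lo hi S := by
  classical
  refine ⟨fun t => if h : t - lo < S.card then (S.equivFin.symm ⟨t - lo, h⟩).1 else x0, ?_, ?_⟩
  · intro a ha b hb hab
    rw [Set.mem_Ico] at ha hb
    have h1 : a - lo < S.card := by omega
    have h2 : b - lo < S.card := by omega
    simp only [h1, h2, dif_pos] at hab
    have h3 := S.equivFin.symm.injective (Subtype.ext hab)
    rw [Fin.mk.injEq] at h3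
    omega
  · ext t
    rw [Finset.mem_image]
    constructor
    · rintro ⟨a, ha, rfl⟩
      rw [Finset.mem_Ico] at ha
      have h1 : a - lo < S.card := by omega
      simp only [h1, dif_pos]
      exact (S.equivFin.symm ⟨a - lo, h1⟩).2
    · intro ht
      refine ⟨lo + (S.equivFin ⟨t, ht⟩).1, ?_, ?_⟩
      · rw [Finset.mem_Ico]
        have := (S.equivFin ⟨t, ht⟩).2
        omega
      · have h1 : lo + (S.equivFin ⟨t, ht⟩).1 - lo = (S.equivFin ⟨t, ht⟩).1 := by omega
        have h2 : lo + (S.equivFin ⟨t, ht⟩).1 - lo < S.card := by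
          rw [h1]
          exact (S.equivFin ⟨t, ht⟩).2
        simp only [h2, dif_pos]
        have h3 : (⟨lo + (S.equivFin ⟨t, ht⟩).1 - lo, h2⟩ : Fin S.card) = S.equivFin ⟨t, ht⟩ :=
          Fin.ext h1
        rw [h3, Equiv.symm_apply_apply]

lemma Enum.congr {f g : ℕ → Fin n} {lo hi : ℕ} {S : Finset (Fin n)} (h : Enum f lo hi S)
    (hfg : ∀ t, lo ≤ t → t < hi → g t = f t) : Enum g lo hi S := by
  constructor
  · intro a ha b hb hab
    rw [Set.mem_Ico] at ha hb
    rw [hfg a ha.1 ha.2, hfg b hb.1 hb.2] at hab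
    exact h.1 ha hb hab
  · rw [← h.2]
    apply Finset.image_congr
    intro t ht
    rw [Finset.coe_Ico, Set.mem_Ico] at ht
    exact hfg t ht.1 ht.2

lemma Enum.card {f : ℕ → Fin n} {lo hi : ℕ} {S : Finset (Fin n)} (h : Enum f lo hi S) (a b : ℕ)
    (ha : lo ≤ a) (hb : b ≤ hi) : ((Finset.Ico a b).image f).card = b - a := by
  rw [Finset.card_image_of_injOn, Nat.card_Ico]
  apply h.1.mono
  intro t ht
  rw [Finset.coe_Ico, Set.mem_Ico] at ht
  rw [Set.mem_Ico]
  omega

lemma Enum.sub {f : ℕ → Fin n} {lo hi : ℕ} {S : Finset (Fin n)} (h : Enum f lo hi S) (a b : ℕ)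
    (ha : lo ≤ a) (hb : b ≤ hi) : (Finset.Ico a b).image f ⊆ S := by
  rw [← h.2]
  apply Finset.image_subset_image
  intro t ht
  rw [Finset.mem_Ico] at *
  omega

lemma Enum.inter {f : ℕ → Fin n} {lo hi : ℕ} {S : Finset (Fin n)} (h : Enum f lo hi S)
    (a b c d : ℕ) (ha : lo ≤ a) (hac : a ≤ c) (hbd : b ≤ d) (hd : d ≤ hi) :
    ((Finset.Ico a b).image f ∩ (Finset.Ico c d).image f).card = b - c := by
  rw [← Finset.image_inter_of_injOn, Finset.Ico_inter_Ico, max_eq_right hac, min_eq_left hbd]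
  · rw [h.card c b (by omega) (by omega)]
  · apply h.1.mono
    intro t ht
    rw [Set.mem_union, Finset.coe_Ico, Finset.coe_Ico, Set.mem_Ico, Set.mem_Ico] at ht
    rw [Set.mem_Ico]
    omega

/-- One sequence through `x`, new elements and `w`. -/
lemma exSeq (r i N : ℕ) (B x w P1 P2 S3 : Finset (Fin n)) (hir : i < r) (hx : x.card = r)
    (hw : w.card = r) (hxB : x ⊆ B) (hwB : w ⊆ B) (hP1 : P1 ⊆ x) (hP2 : P2 ⊆ w)
    (c1 : P1.card = i) (c2 : P2.card = i) (hS : S3 ⊆ Bᶜ) (hSc : S3.card = N) :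
    ∃ s : ℕ → Fin n, Enum s 0 r x ∧ Enum s (r - i) r P1 ∧ Enum s r (r + N) S3 ∧
      Enum s 0 (r + N) (x ∪ S3) ∧ Enum s (r + N) (r + N + i) P2 ∧
      Enum s (r + N) (2 * r + N) w ∧ Enum s r (2 * r + N) (S3 ∪ w) := by
  obtain ⟨x0, -⟩ : x.Nonempty := by
    rw [← Finset.card_pos]
    omega
  have k1 : (x \ P1).card = r - i := by rw [Finset.card_sdiff_of_subset hP1]; omega
  have k5 : (w \ P2).card = r - i := by rw [Finset.card_sdiff_of_subset hP2]; omega
  obtain ⟨e1, g1⟩ := exists_enum (x \ P1) 0 (r - i) (by omega) x0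
  obtain ⟨e2, g2⟩ := exists_enum P1 (r - i) r (by omega) x0
  obtain ⟨e3, g3⟩ := exists_enum S3 r (r + N) (by omega) x0
  obtain ⟨e4, g4⟩ := exists_enum P2 (r + N) (r + N + i) (by omega) x0
  obtain ⟨e5, g5⟩ := exists_enum (w \ P2) (r + N + i) (2 * r + N) (by omega) x0
  have hd : ∀ X Y : Finset (Fin n), X ⊆ B → Y ⊆ Bᶜ → Disjoint X Y := by
    intro X Y h1 h2
    rw [Finset.disjoint_left]
    intro t h3 h4
    exact Finset.mem_compl.mp (h2 h4) (h1 h3)
  let s : ℕ → Fin n := fun t => if t < r - i then e1 t else if t < r then e2 t else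
    if t < r + N then e3 t else if t < r + N + i then e4 t else e5 t
  have s1 : Enum s 0 (r - i) (x \ P1) := g1.congr (fun t _ h => by simp only [s]; rw [if_pos h])
  have s2 : Enum s (r - i) r P1 := g2.congr (fun t h h' => by
    simp only [s]; rw [if_neg (by omega), if_pos h'])
  have s3 : Enum s r (r + N) S3 := g3.congr (fun t h h' => by
    simp only [s]; rw [if_neg (by omega), if_neg (by omega), if_pos h'])
  have s4 : Enum s (r + N) (r + N + i) P2 := g4.congr (fun t h h' => by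
    simp only [s]; rw [if_neg (by omega), if_neg (by omega), if_neg (by omega), if_pos h'])
  have s5 : Enum s (r + N + i) (2 * r + N) (w \ P2) := g5.congr (fun t h h' => by
    simp only [s]; rw [if_neg (by omega), if_neg (by omega), if_neg (by omega), if_neg (by omega)])
  have sx : Enum s 0 r x := by
    have := s1.union s2 Finset.sdiff_disjoint (by omega) (by omega)
    rwa [Finset.sdiff_union_of_subset hP1] at this
  have sw : Enum s (r + N) (2 * r + N) w := by
    have := s4.union s5 Finset.disjoint_sdiff (by omega) (by omega)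
    rwa [Finset.union_sdiff_of_subset hP2] at this
  exact ⟨s, sx, s2, s3, sx.union s3 (hd _ _ hxB hS) (by omega) (by omega), s4, sw,
    s3.union sw (hd _ _ hwB hS).symm (by omega) (by omega)⟩
lemma split (s : ℕ → Fin n) (a b c : ℕ) (h : a ≤ b) (h' : b ≤ c) :
    (Finset.Ico a c).image s = (Finset.Ico a b).image s ∪ (Finset.Ico b c).image s := by
  rw [← Finset.image_union, Finset.Ico_union_Ico_eq_Ico h h']

/-- The windows of the sequence form a segment from `x` to `w`. -/
lemma windows (r i : ℕ) (B F x w P1 P2 : Finset (Fin n)) (hi : 0 < i) (hir : i < r)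
    (hx : x.card = r) (hw : w.card = r) (hxB : x ⊆ B) (hwB : w ⊆ B) (hP1 : P1 ⊆ x) (hP2 : P2 ⊆ w)
    (c1 : P1.card = i) (c2 : P2.card = i) (h1 : ¬ P1 ⊆ w) (h2 : ¬ P2 ⊆ x) (hF : F ⊆ Bᶜ)
    (hFc : 3 * r ≤ F.card) :
    ∃ (m : ℕ) (p : ℕ → Finset (Fin n)), 2 ≤ m ∧ p 0 = x ∧ p m = w ∧ (∀ j ≤ m, (p j).card = r) ∧
      (∀ j < m, (p j ∩ p (j + 1)).card = i) ∧
      (∀ a b, a + 2 ≤ b → b ≤ m → (0 < a ∨ b < m) → (p a ∩ p b).card < i) ∧
      (∀ j, 0 < j → j < m → ∃ C A, p j = C ∪ A ∧ A ⊆ F ∧ C ⊆ B ∧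
        (C.card < i ∨ C = P1 ∨ C = P2)) := by
  obtain ⟨k, hk⟩ : ∃ k, k = r - i := ⟨_, rfl⟩
  have hk0 : 0 < k := by omega
  obtain ⟨m, hm⟩ : ∃ m, m = 3 * r / k + 1 := ⟨_, rfl⟩
  obtain ⟨M, hM⟩ : ∃ M, M = m * k := ⟨_, rfl⟩
  have hM1 : 3 * r < M ∧ M ≤ 3 * r + k := by
    have g1 := Nat.div_add_mod (3 * r) k
    have g2 := Nat.mod_lt (3 * r) hk0
    have g3 : M = k * (3 * r / k) + k := by rw [hM, hm]; ring
    omega
  have hm2 : 2 ≤ m := by
    by_contra hcon
    have g1 : m ≤ 1 := by omega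
    have g2 : m * k ≤ 1 * k := Nat.mul_le_mul_right k g1
    omega
  obtain ⟨N, hN⟩ : ∃ N, N = M - r := ⟨_, rfl⟩
  obtain ⟨S3, hS3, hS3c⟩ := Finset.exists_subset_card_eq (s := F) (n := N) (by omega)
  have hSB := hS3.trans hF
  obtain ⟨s, sx, s2, s3, s03, s4, sw, s35⟩ :=
    exSeq r i N B x w P1 P2 S3 hir hx hw hxB hwB hP1 hP2 c1 c2 hSB hS3c
  have mono : ∀ a b, a ≤ b → a * k ≤ b * k := fun a b h => Nat.mul_le_mul_right k h
  have mono2 : ∀ a b, a + 2 ≤ b → a * k + 2 * k ≤ b * k := fun a b h => by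
    have := Nat.mul_le_mul_right k h
    rw [Nat.add_mul] at this
    exact this
  have mono1 : ∀ a b, a + 1 ≤ b → a * k + k ≤ b * k := fun a b h => by
    have := Nat.mul_le_mul_right k h
    rw [Nat.add_mul, Nat.one_mul] at this
    exact this
  have left : ∀ j, j * k < r → ∃ C A, (Finset.Ico (j * k) (j * k + r)).image s = C ∪ A ∧
      C = (Finset.Ico (j * k) r).image s ∧ A = (Finset.Ico r (j * k + r)).image s ∧ A ⊆ S3 ∧
      C ⊆ x ∧ C.card = r - j * k ∧ (j = 1 → C = P1) := by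
    intro j hj
    refine ⟨_, _, split s (j * k) r (j * k + r) hj.le (by omega), rfl, rfl,
      s3.sub _ _ le_rfl (by omega), sx.sub _ _ (by omega) le_rfl, sx.card _ _ (by omega) le_rfl, ?_⟩
    rintro rfl
    rw [Nat.one_mul, hk]
    exact s2.2
  have right : ∀ j, j < m → N < j * k → ∃ C A,
      (Finset.Ico (j * k) (j * k + r)).image s = C ∪ A ∧
      A = (Finset.Ico (j * k) (r + N)).image s ∧ A ⊆ S3 ∧
      C ⊆ w ∧ C.card = j * k - N ∧ (j + 1 = m → C = P2) := by
    intro j hj hjN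
    have g1 := mono1 j m hj
    refine ⟨(Finset.Ico (r + N) (j * k + r)).image s, _, ?_, rfl,
      s3.sub _ _ (by omega) le_rfl, sw.sub _ _ le_rfl (by omega), ?_, ?_⟩
    · rw [Finset.union_comm]
      exact split s (j * k) (r + N) (j * k + r) (by omega) (by omega)
    · rw [sw.card _ _ le_rfl (by omega)]
      omega
    · intro hjm
      have g2 : (j + 1) * k = m * k := by rw [hjm]
      rw [Nat.add_mul, Nat.one_mul] at g2
      have g3 : j * k + r = r + N + i := by omega
      rw [g3]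
      exact s4.2
  refine ⟨m, fun j => (Finset.Ico (j * k) (j * k + r)).image s, hm2, ?_, ?_, ?_, ?_, ?_, ?_⟩
  · show (Finset.Ico (0 * k) (0 * k + r)).image s = x
    rw [Nat.zero_mul, Nat.zero_add]
    exact sx.2
  · show (Finset.Ico (m * k) (m * k + r)).image s = w
    have g1 : m * k = r + N := by omega
    have g2 : m * k + r = 2 * r + N := by omega
    rw [g2, g1]
    exact sw.2
  · intro j hj
    have g1 := mono j m hj
    show ((Finset.Ico (j * k) (j * k + r)).image s).card = r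
    by_cases h : j * k < r
    · rw [s03.card _ _ (by omega) (by omega)]
      omega
    · rw [s35.card _ _ (by omega) (by omega)]
      omega
  · intro j hj
    have g1 := mono1 j m hj
    have g2 : (j + 1) * k = j * k + k := by rw [Nat.add_mul, Nat.one_mul]
    show ((Finset.Ico (j * k) (j * k + r)).image s ∩
      (Finset.Ico ((j + 1) * k) ((j + 1) * k + r)).image s).card = i
    by_cases h : (j + 1) * k ≤ N
    · rw [s03.inter _ _ _ _ (by omega) (by omega) (by omega) (by omega)]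
      omega
    · rw [s35.inter _ _ _ _ (by omega) (by omega) (by omega) (by omega)]
      omega
  · intro a b hab hb hor
    have g1 := mono2 a b hab
    have g2 := mono b m hb
    show ((Finset.Ico (a * k) (a * k + r)).image s ∩
      (Finset.Ico (b * k) (b * k + r)).image s).card < i
    by_cases h : b * k ≤ N
    · rw [s03.inter _ _ _ _ (by omega) (by omega) (by omega) (by omega)]
      omega
    · by_cases h' : r ≤ a * k
      · rw [s35.inter _ _ _ _ (by omega) (by omega) (by omega) (by omega)]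
        omega
      · obtain ⟨C, A, e1, e2, e3, e4, e5, e6, e7⟩ := left a (by omega)
        rcases Nat.lt_or_ge b m with hbm | hbm
        · obtain ⟨C', A', f1, f2, f3, f4, f5, f6⟩ := right b hbm (by omega)
          rw [e1, f1, card_inter B C C' A A' (e5.trans hxB) (f4.trans hwB) (e4.trans hSB)
            (f3.trans hSB), e3, f2, s3.inter _ _ _ _ le_rfl (by omega) (by omega) le_rfl]
          have g3 : a * k + r - b * k = 0 := by omega
          rw [g3, Nat.add_zero]
          rcases Nat.lt_or_ge a 1 with ha | ha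
          · have ha0 : a = 0 := by omega
            subst ha0
            rcases Nat.lt_or_ge (b + 1) m with hbm' | hbm'
            · have g4 := mono2 b m hbm'
              have g5 : (C ∩ C').card ≤ C'.card := Finset.card_le_card Finset.inter_subset_right
              omega
            · rw [f6 (by omega), Finset.inter_comm]
              exact lt_of_not_subset c2 (fun g => h2 (g.trans e5))
          · rcases Nat.lt_or_ge 1 a with ha' | ha'
            · have g4 := mono 2 a ha'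
              have g5 : (C ∩ C').card ≤ C.card := Finset.card_le_card Finset.inter_subset_left
              omega
            · rw [e7 (by omega)]
              exact lt_of_not_subset c1 (fun g => h1 (g.trans f4))
        · have hbm' : b = m := by omega
          have ha : 0 < a := by omega
          have g3 : (Finset.Ico (b * k) (b * k + r)).image s = w ∪ ∅ := by
            rw [hbm', Finset.union_empty]
            have g1 : m * k = r + N := by omega
            have g2 : m * k + r = 2 * r + N := by omega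
            rw [g2, g1]
            exact sw.2
          rw [e1, g3, card_inter B C w A ∅ (e5.trans hxB) hwB (e4.trans hSB)
            (Finset.empty_subset _), Finset.inter_empty, Finset.card_empty, Nat.add_zero]
          rcases Nat.lt_or_ge 1 a with ha' | ha'
          · have g4 := mono 2 a ha'
            have g5 : (C ∩ w).card ≤ C.card := Finset.card_le_card Finset.inter_subset_left
            omega
          · rw [e7 (by omega)]
            exact lt_of_not_subset c1 h1
  · intro j hj hjm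
    have g1 := mono1 j m hjm
    have g0 := mono 1 j hj
    show ∃ C A, (Finset.Ico (j * k) (j * k + r)).image s = C ∪ A ∧ A ⊆ F ∧ C ⊆ B ∧
        (C.card < i ∨ C = P1 ∨ C = P2)
    by_cases h : j * k < r
    · obtain ⟨C, A, e1, e2, e3, e4, e5, e6, e7⟩ := left j h
      refine ⟨C, A, e1, e4.trans hS3, e5.trans hxB, ?_⟩
      rcases Nat.lt_or_ge 1 j with ha' | ha'
      · have g4 := mono 2 j ha'
        exact Or.inl (by omega)
      · exact Or.inr (Or.inl (e7 (by omega)))
    · by_cases h' : j * k ≤ N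
      · refine ⟨∅, (Finset.Ico (j * k) (j * k + r)).image s, (Finset.empty_union _).symm,
          (s3.sub _ _ (by omega) (by omega)).trans hS3, Finset.empty_subset _, Or.inl ?_⟩
        rw [Finset.card_empty]
        exact hi
      · obtain ⟨C', A', f1, f2, f3, f4, f5, f6⟩ := right j hjm (by omega)
        refine ⟨C', A', f1, f3.trans hS3, f4.trans hwB, ?_⟩
        rcases Nat.lt_or_ge (j + 1) m with hbm' | hbm'
        · have g4 := mono2 j m hbm'
          exact Or.inl (by omega)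
        · exact Or.inr (Or.inr (f6 (by omega)))

end sets

section main

variable {n r i : ℕ}

abbrev Vx (n r : ℕ) : Type := {s : Finset (Fin n) // s.card = r}

lemma adj_of (hir : i < r) (a b : Vx n r) (h : (a.1 ∩ b.1).card = i) : (J n r i).Adj a b := by
  refine ⟨?_, h⟩
  rintro rfl
  rw [Finset.inter_self, a.2] at h
  omega

lemma sep_of (hir : i < r) (a b : Vx n r) (h : (a.1 ∩ b.1).card < i) : Sep (J n r i) a b := by
  refine ⟨?_, fun h1 => ?_⟩
  · rintro rfl
    rw [Finset.inter_self, a.2] at h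
    omega
  · have := h1.2
    omega

/-- A link from `x` to `w` (first the part `P₁` of `x`, then the part `P₂` of `w`). -/
lemma link (hr : 2 * i ≤ r) (hi : 0 < i) (B U1 U2 P1 P2 : Finset (Fin n))
    (hP1 : P1 ⊆ B) (hP2 : P2 ⊆ B) (hc1 : P1.card = i) (hc2 : P2.card = i)
    (hU1 : U1 ⊆ Bᶜ) (hU2 : U2 ⊆ Bᶜ) (h12 : Disjoint U1 U2) (h1 : U1.card = r - i)
    (h2 : U2.card = r - i) :
    ∃ (D : Finset (Fin n)) (a d : Vx n r), D ⊆ U1 ∪ U2 ∧ a.1 = P1 ∪ U1 ∧ d.1 = P2 ∪ D ∧
      (J n r i).Adj a d := by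
  obtain ⟨D, hD, hDc, hDi⟩ := exD (i := i) (r := r) U1 U2 h12 (P1 ∩ P2).card
    (by rw [← hc1]; exact Finset.card_le_card Finset.inter_subset_left) hr h1 h2
  have hDB : D ⊆ Bᶜ := hD.trans (Finset.union_subset hU1 hU2)
  have hle : (P1 ∩ P2).card ≤ i := by
    rw [← hc1]; exact Finset.card_le_card Finset.inter_subset_left
  have dis : ∀ P U : Finset (Fin n), P ⊆ B → U ⊆ Bᶜ → Disjoint P U := by
    intro P U hP hU
    rw [Finset.disjoint_left]
    intro t h3 h4
    exact Finset.mem_compl.mp (hU h4) (hP h3)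
  refine ⟨D, ⟨P1 ∪ U1, ?_⟩, ⟨P2 ∪ D, ?_⟩, hD, rfl, rfl, ?_⟩
  · rw [Finset.card_union_of_disjoint (dis _ _ hP1 hU1)]
    omega
  · rw [Finset.card_union_of_disjoint (dis _ _ hP2 hDB)]
    omega
  · apply adj_of (by omega)
    show ((P1 ∪ U1) ∩ (P2 ∪ D)).card = i
    rw [card_inter B P1 P2 U1 D hP1 hP2 hU1 hDB]
    omega

/-- four blocks of new elements -/
lemma exU (B : Finset (Fin n)) (k : ℕ) (h : B.card + 4 * k ≤ n) :
    ∃ U1 U2 U3 U4 : Finset (Fin n), U1 ⊆ Bᶜ ∧ U2 ⊆ Bᶜ ∧ U3 ⊆ Bᶜ ∧ U4 ⊆ Bᶜ ∧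
      U1.card = k ∧ U2.card = k ∧ U3.card = k ∧ U4.card = k ∧
      Disjoint U1 U2 ∧ Disjoint U3 U4 ∧ Disjoint (U1 ∪ U2) (U3 ∪ U4) := by
  have one : ∀ C : Finset (Fin n), C.card + k ≤ n → ∃ U ⊆ Cᶜ, U.card = k := by
    intro C hC
    apply Finset.exists_subset_card_eq
    rw [Finset.card_compl, Fintype.card_fin]
    omega
  obtain ⟨U1, h1, c1⟩ := one B (by omega)
  have g1 := Finset.card_union_le B U1
  obtain ⟨U2, h2, c2⟩ := one (B ∪ U1) (by omega)
  have g2 := Finset.card_union_le (B ∪ U1) U2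
  obtain ⟨U3, h3, c3⟩ := one (B ∪ U1 ∪ U2) (by omega)
  have g3 := Finset.card_union_le (B ∪ U1 ∪ U2) U3
  obtain ⟨U4, h4, c4⟩ := one (B ∪ U1 ∪ U2 ∪ U3) (by omega)
  have k1 : ∀ t ∈ U1, t ∉ B := fun t ht => Finset.mem_compl.mp (h1 ht)
  have k2 : ∀ t ∈ U2, ¬ (t ∈ B ∨ t ∈ U1) := fun t ht => by
    have := Finset.mem_compl.mp (h2 ht)
    simpa only [Finset.mem_union] using this
  have k3 : ∀ t ∈ U3, ¬ ((t ∈ B ∨ t ∈ U1) ∨ t ∈ U2) := fun t ht => by
    have := Finset.mem_compl.mp (h3 ht)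
    simpa only [Finset.mem_union] using this
  have k4 : ∀ t ∈ U4, ¬ (((t ∈ B ∨ t ∈ U1) ∨ t ∈ U2) ∨ t ∈ U3) := fun t ht => by
    have := Finset.mem_compl.mp (h4 ht)
    simpa only [Finset.mem_union] using this
  refine ⟨U1, U2, U3, U4, h1, ?_, ?_, ?_, c1, c2, c3, c4, ?_, ?_, ?_⟩
  · intro t ht
    rw [Finset.mem_compl]
    have := k2 t ht
    tauto
  · intro t ht
    rw [Finset.mem_compl]
    have := k3 t ht
    tauto
  · intro t ht
    rw [Finset.mem_compl]
    have := k4 t ht
    tauto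
  · rw [Finset.disjoint_left]
    intro t ht ht'
    have := k2 t ht'
    tauto
  · rw [Finset.disjoint_left]
    intro t ht ht'
    have := k4 t ht'
    tauto
  · rw [Finset.disjoint_left]
    intro t ht ht'
    rw [Finset.mem_union] at ht ht'
    rcases ht' with ht' | ht'
    · have := k3 t ht'
      tauto
    · have := k4 t ht'
      tauto

lemma adjP (hir : i < r) (B P A : Finset (Fin n)) (a z : Vx n r) (ha : a.1 = P ∪ A)
    (hP : P ⊆ z.1) (hz : z.1 ⊆ B) (hA : A ⊆ Bᶜ) (hc : P.card = i) : (J n r i).Adj a z := by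
  apply adj_of hir
  have h := card_inter B P z.1 A ∅ (hP.trans hz) hz hA (Finset.empty_subset _)
  rw [Finset.union_empty, Finset.inter_empty, Finset.card_empty, add_zero] at h
  rw [ha, h, Finset.inter_eq_left.mpr hP, hc]

lemma sepP (hir : i < r) (B P A Q D : Finset (Fin n)) (a b : Vx n r) (ha : a.1 = P ∪ A)
    (hb : b.1 = Q ∪ D) (hP : P ⊆ B) (hQ : Q ⊆ B) (hA : A ⊆ Bᶜ) (hD : D ⊆ Bᶜ)
    (hAD : Disjoint A D) (hc : P.card = i) (h : ¬ P ⊆ Q) : Sep (J n r i) a b := by
  apply sep_of hir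
  rw [ha, hb, card_inter B P Q A D hP hQ hA hD, Finset.disjoint_iff_inter_eq_empty.mp hAD,
    Finset.card_empty, add_zero]
  exact lt_of_not_subset hc h

lemma sepZ (hir : i < r) (B P A : Finset (Fin n)) (a b : Vx n r) (ha : a.1 = P ∪ A)
    (hP : P ⊆ B) (hb : b.1 ⊆ B) (hA : A ⊆ Bᶜ) (hc : P.card = i) (h : ¬ P ⊆ b.1) :
    Sep (J n r i) a b :=
  sepP hir B P A b.1 ∅ a b ha (Finset.union_empty _).symm hP hb hA (Finset.empty_subset _)
    (Finset.disjoint_empty_right _) hc h

lemma sep_symm {a b : Vx n r} (h : Sep (J n r i) a b) : Sep (J n r i) b a :=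
  ⟨h.1.symm, fun h1 => h.2 h1.symm⟩

lemma core (hi : 3 ≤ i) (hr : 2 * i ≤ r) (hn : 7 * r ≤ n + 4 * i) (x y w : Vx n r) (hxy : x ≠ y)
    (hna : ¬ (J n r i).Adj x y) (hwx : w ≠ x) (hwy : w ≠ y) : w ∈ interval (J n r i) x y := by
  have hir : i < r := by omega
  have hB : (x.1 ∪ y.1 ∪ w.1).card ≤ 3 * r := by
    have h1 := Finset.card_union_le (x.1 ∪ y.1) w.1
    have h2 := Finset.card_union_le x.1 y.1
    rw [x.2, y.2] at h2
    rw [w.2] at h1
    omega
  obtain ⟨U1, U2, U3, U4, hU1, hU2, hU3, hU4, c1, c2, c3, c4, d12, d34, dU⟩ :=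
    exU (x.1 ∪ y.1 ∪ w.1) (r - i) (by omega)
  have hxB : x.1 ⊆ x.1 ∪ y.1 ∪ w.1 := fun t ht => by simp [ht]
  have hyB : y.1 ⊆ x.1 ∪ y.1 ∪ w.1 := fun t ht => by simp [ht]
  have hwB : w.1 ⊆ x.1 ∪ y.1 ∪ w.1 := fun t ht => by simp [ht]
  generalize x.1 ∪ y.1 ∪ w.1 = B at *
  have nxy : x.1 ≠ y.1 := fun h => hxy (Subtype.ext h)
  have nwx : w.1 ≠ x.1 := fun h => hwx (Subtype.ext h)
  have nwy : w.1 ≠ y.1 := fun h => hwy (Subtype.ext h)
  obtain ⟨P1, p1, q1, P1w, P1y⟩ :=
    exP x.1 w.1 y.1 x.2 w.2 y.2 nwx.symm nxy (by omega) hir.le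
  obtain ⟨P2, p2, q2, P2x, P2y⟩ := exP w.1 x.1 y.1 w.2 x.2 y.2 nwx nwy (by omega) hir.le
  obtain ⟨P3, p3, q3, P3x, P3y, P23⟩ := exP' w.1 x.1 y.1 P2 w.2 x.2 y.2 nwx nwy q2 hi hir
  obtain ⟨P4, p4, q4, P4x, P4w⟩ :=
    exP y.1 x.1 w.1 y.2 x.2 w.2 nxy.symm nwy.symm (by omega) hir.le
  obtain ⟨D, a, d, hD, ha, hd, had⟩ := link hr (by omega) B U1 U2 P1 P2 (p1.trans hxB)
    (p2.trans hwB) q1 q2 hU1 hU2 d12 c1 c2
  obtain ⟨F, e, f, hF, he, hf, hef⟩ := link hr (by omega) B U3 U4 P3 P4 (p3.trans hwB)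
    (p4.trans hyB) q3 q4 hU3 hU4 d34 c3 c4
  have hDB : D ⊆ Bᶜ := hD.trans (Finset.union_subset hU1 hU2)
  have hFB : F ⊆ Bᶜ := hF.trans (Finset.union_subset hU3 hU4)
  have hU13 : Disjoint U1 U3 :=
    Finset.disjoint_of_subset_left Finset.subset_union_left
      (Finset.disjoint_of_subset_right Finset.subset_union_left dU)
  have hU1F : Disjoint U1 F :=
    Finset.disjoint_of_subset_left Finset.subset_union_left
      (Finset.disjoint_of_subset_right hF dU)
  have hDU3 : Disjoint D U3 :=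
    Finset.disjoint_of_subset_left hD
      (Finset.disjoint_of_subset_right Finset.subset_union_left dU)
  have hDF : Disjoint D F :=
    Finset.disjoint_of_subset_left hD (Finset.disjoint_of_subset_right hF dU)
  have P1B := p1.trans hxB
  have P2B := p2.trans hwB
  have P3B := p3.trans hwB
  have P4B := p4.trans hyB
  have axa : (J n r i).Adj x a := (adjP hir B P1 U1 a x ha p1 hxB hU1 q1).symm
  have adw : (J n r i).Adj d w := adjP hir B P2 D d w hd p2 hwB hDB q2
  have awe : (J n r i).Adj w e := (adjP hir B P3 U3 e w he p3 hwB hU3 q3).symm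
  have afy : (J n r i).Adj f y := adjP hir B P4 F f y hf p4 hyB hFB q4
  have xd : Sep (J n r i) x d := sep_symm (sepZ hir B P2 D d x hd P2B hxB hDB q2 P2x)
  have xe : Sep (J n r i) x e := sep_symm (sepZ hir B P3 U3 e x he P3B hxB hU3 q3 P3x)
  have xf : Sep (J n r i) x f := sep_symm (sepZ hir B P4 F f x hf P4B hxB hFB q4 P4x)
  have xy : Sep (J n r i) x y := ⟨hxy, hna⟩
  have aw : Sep (J n r i) a w := sepZ hir B P1 U1 a w ha P1B hwB hU1 q1 P1w
  have ae : Sep (J n r i) a e := sepP hir B P1 U1 P3 U3 a e ha he P1B P3B hU1 hU3 hU13 q1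
    (fun h => P1w (h.trans p3))
  have af : Sep (J n r i) a f := sepP hir B P1 U1 P4 F a f ha hf P1B P4B hU1 hFB hU1F q1
    (fun h => P1y (h.trans p4))
  have ay : Sep (J n r i) a y := sepZ hir B P1 U1 a y ha P1B hyB hU1 q1 P1y
  have de : Sep (J n r i) d e := sepP hir B P2 D P3 U3 d e hd he P2B P3B hDB hU3 hDU3 q2 P23
  have df : Sep (J n r i) d f := sepP hir B P2 D P4 F d f hd hf P2B P4B hDB hFB hDF q2
    (fun h => P2y (h.trans p4))
  have dy : Sep (J n r i) d y := sepZ hir B P2 D d y hd P2B hyB hDB q2 P2y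
  have wf : Sep (J n r i) w f := sep_symm (sepZ hir B P4 F f w hf P4B hwB hFB q4 P4w)
  have ey : Sep (J n r i) e y := sepZ hir B P3 U3 e y he P3B hyB hU3 q3 P3y
  by_cases hxw : (J n r i).Adj x w
  · by_cases hwy' : (J n r i).Adj w y
    · exact ⟨_, path3 _ x w y hxw hwy' xy, by simp, by simp, by simp⟩
    · have wy : Sep (J n r i) w y := ⟨hwy, hwy'⟩
      exact ⟨_, path5 _ x w e f y hxw awe hef afy xe xf xy wf wy ey, by simp, by simp, by simp⟩
  · have xw : Sep (J n r i) x w := ⟨hwx.symm, hxw⟩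
    by_cases hwy' : (J n r i).Adj w y
    · exact ⟨_, path5 _ x a d w y axa had adw hwy' xd xw xy aw ay dy, by simp, by simp, by simp⟩
    · have wy : Sep (J n r i) w y := ⟨hwy, hwy'⟩
      exact ⟨_, path7 _ x a d w e f y axa had adw awe hef afy xd xw xe xf xy aw ae af ay de df dy
        wf wy ey, by simp, by simp, by simp⟩

/-- The segment between two vertices `x` and `w`. -/
lemma seg (B F : Finset (Fin n)) (P1 P2 : Finset (Fin n)) (hi : 0 < i) (hir : i < r)
    (x w : Vx n r) (hxw : x ≠ w) (hxB : x.1 ⊆ B) (hwB : w.1 ⊆ B) (hP1 : P1 ⊆ x.1)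
    (hP2 : P2 ⊆ w.1) (c1 : P1.card = i) (c2 : P2.card = i) (h1 : ¬ P1 ⊆ w.1) (h2 : ¬ P2 ⊆ x.1)
    (hF : F ⊆ Bᶜ) (hFc : 3 * r ≤ F.card) :
    ∃ (m : ℕ) (q : ℕ → Vx n r), 0 < m ∧ q 0 = x ∧ q m = w ∧ Seg (J n r i) m q ∧
      (∀ j, 0 < j → j < m → ∃ C A, (q j).1 = C ∪ A ∧ A ⊆ F ∧ C ⊆ B ∧
        (C.card < i ∨ C = P1 ∨ C = P2)) := by
  by_cases hadj : (J n r i).Adj x w
  · refine ⟨1, fun j => if j = 0 then x else w, by omega, by simp, by simp, ?_, ?_⟩
    · intro a b hab hb
      have ha0 : a = 0 := by omega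
      have hb1 : b = 1 := by omega
      subst ha0
      subst hb1
      exact ⟨hxw, fun _ => rfl, fun _ => hadj⟩
    · intro j hj hj'
      omega
  · obtain ⟨m, p, hm, p0, pm, pc, padj, psep, pin⟩ :=
      windows r i B F x.1 w.1 P1 P2 hi hir x.2 w.2 hxB hwB hP1 hP2 c1 c2 h1 h2 hF hFc
    have hq : ∀ j, j ≤ m → p (min j m) = p j := fun j hj => by rw [min_eq_left hj]
    refine ⟨m, fun j => ⟨p (min j m), pc _ (min_le_right _ _)⟩, by omega, ?_, ?_, ?_, ?_⟩
    · apply Subtype.ext
      show p (min 0 m) = x.1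
      rw [hq 0 (by omega), p0]
    · apply Subtype.ext
      show p (min m m) = w.1
      rw [hq m le_rfl, pm]
    · intro a b hab hb
      rcases Nat.lt_or_ge (a + 1) b with h3 | h3
      · have hs : Sep (J n r i) (⟨p (min a m), pc _ (min_le_right _ _)⟩ : Vx n r)
            ⟨p (min b m), pc _ (min_le_right _ _)⟩ := by
          by_cases h4 : 0 < a ∨ b < m
          · apply sep_of hir
            show (p (min a m) ∩ p (min b m)).card < i
            rw [hq a (by omega), hq b hb]
            exact psep a b h3 hb h4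
          · have ha0 : a = 0 := by omega
            have hbm : b = m := by omega
            have e1 : (⟨p (min a m), pc _ (min_le_right _ _)⟩ : Vx n r) = x := by
              apply Subtype.ext
              show p (min a m) = x.1
              rw [ha0, hq 0 (by omega), p0]
            have e2 : (⟨p (min b m), pc _ (min_le_right _ _)⟩ : Vx n r) = w := by
              apply Subtype.ext
              show p (min b m) = w.1
              rw [hbm, hq m le_rfl, pm]
            rw [e1, e2]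
            exact ⟨hxw, hadj⟩
        exact ⟨hs.1, fun h => absurd h hs.2, fun h => by omega⟩
      · have hb1 : b = a + 1 := by omega
        have hs : (J n r i).Adj (⟨p (min a m), pc _ (min_le_right _ _)⟩ : Vx n r)
            ⟨p (min b m), pc _ (min_le_right _ _)⟩ := by
          apply adj_of hir
          show (p (min a m) ∩ p (min b m)).card = i
          rw [hq a (by omega), hq b hb, hb1]
          exact padj a (by omega)
        exact ⟨hs.ne, fun _ => hb1.symm, fun _ => hs⟩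
    · intro j hj hj'
      obtain ⟨C, A, g1, g2⟩ := pin j hj hj'
      refine ⟨C, A, ?_, g2⟩
      show p (min j m) = C ∪ A
      rw [hq j hj'.le, g1]

/-- The case of a general `i`, when the two `i`-sets `P₂`, `P₃` in `w` are given. -/
lemma core3 (hi : 2 ≤ i) (hir : i < r) (hn : 9 * r ≤ n) (x y w : Vx n r) (hxy : x ≠ y)
    (hna : ¬ (J n r i).Adj x y) (hwx : w ≠ x) (hwy : w ≠ y) (P2 P3 : Finset (Fin n))
    (p2 : P2 ⊆ w.1) (q2 : P2.card = i) (P2x : ¬ P2 ⊆ x.1) (P2y : ¬ P2 ⊆ y.1)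
    (p3 : P3 ⊆ w.1) (q3 : P3.card = i) (P3x : ¬ P3 ⊆ x.1) (P3y : ¬ P3 ⊆ y.1)
    (P23 : ¬ P2 ⊆ P3) : w ∈ interval (J n r i) x y := by
  have hB : (x.1 ∪ y.1 ∪ w.1).card ≤ 3 * r := by
    have h1 := Finset.card_union_le (x.1 ∪ y.1) w.1
    have h2 := Finset.card_union_le x.1 y.1
    rw [x.2, y.2] at h2
    rw [w.2] at h1
    omega
  have hxB : x.1 ⊆ x.1 ∪ y.1 ∪ w.1 := fun t ht => by simp [ht]
  have hyB : y.1 ⊆ x.1 ∪ y.1 ∪ w.1 := fun t ht => by simp [ht]
  have hwB : w.1 ⊆ x.1 ∪ y.1 ∪ w.1 := fun t ht => by simp [ht]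
  generalize x.1 ∪ y.1 ∪ w.1 = B at *
  obtain ⟨F1, hF1, cF1⟩ := Finset.exists_subset_card_eq (s := Bᶜ) (n := 3 * r)
    (by rw [Finset.card_compl, Fintype.card_fin]; omega)
  obtain ⟨F2, hF2, cF2⟩ := Finset.exists_subset_card_eq (s := (B ∪ F1)ᶜ) (n := 3 * r)
    (by
      have h1 := Finset.card_union_le B F1
      rw [Finset.card_compl, Fintype.card_fin]
      omega)
  have hF2B : F2 ⊆ Bᶜ := by
    intro t ht
    have h1 := Finset.mem_compl.mp (hF2 ht)
    rw [Finset.mem_union] at h1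
    rw [Finset.mem_compl]
    tauto
  have hFF : Disjoint F1 F2 := by
    rw [Finset.disjoint_left]
    intro t ht ht'
    have h1 := Finset.mem_compl.mp (hF2 ht')
    rw [Finset.mem_union] at h1
    tauto
  have nxy : x.1 ≠ y.1 := fun h => hxy (Subtype.ext h)
  have nwx : w.1 ≠ x.1 := fun h => hwx (Subtype.ext h)
  have nwy : w.1 ≠ y.1 := fun h => hwy (Subtype.ext h)
  obtain ⟨P1, p1, q1, P1w, P1y⟩ :=
    exP x.1 w.1 y.1 x.2 w.2 y.2 nwx.symm nxy (by omega) hir.le
  obtain ⟨P4, p4, q4, P4x, P4w⟩ :=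
    exP y.1 x.1 w.1 y.2 x.2 w.2 nxy.symm nwy.symm (by omega) hir.le
  obtain ⟨m1, p, hm1, hp0, hpm, hps, hpi⟩ := seg B F1 P1 P2 (by omega) hir x w hwx.symm hxB hwB
    p1 p2 q1 q2 P1w P2x hF1 cF1.ge
  obtain ⟨m2, q, hm2, hq0, hqm, hqs, hqi⟩ := seg B F2 P3 P4 (by omega) hir w y hwy hwB hyB
    p3 p4 q3 q4 P3y P4w hF2B cF2.ge
  have hlt : ∀ C C' : Finset (Fin n), (C.card < i ∨ C = P1 ∨ C = P2) →
      (C'.card < i ∨ C' = P3 ∨ C' = P4) → (C ∩ C').card < i := by
    intro C C' h1 h2
    have g1 : (C ∩ C').card ≤ C.card := Finset.card_le_card Finset.inter_subset_left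
    have g2 : (C ∩ C').card ≤ C'.card := Finset.card_le_card Finset.inter_subset_right
    rcases h1 with h1 | h1 | h1
    · omega
    · rcases h2 with h2 | h2 | h2
      · omega
      · rw [h1, h2]
        exact lt_of_not_subset q1 (fun h => P1w (h.trans p3))
      · rw [h1, h2]
        exact lt_of_not_subset q1 (fun h => P1y (h.trans p4))
    · rcases h2 with h2 | h2 | h2
      · omega
      · rw [h1, h2]
        exact lt_of_not_subset q2 P23
      · rw [h1, h2]
        exact lt_of_not_subset q2 (fun h => P2y (h.trans p4))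
  have hltx : ∀ C' : Finset (Fin n), (C'.card < i ∨ C' = P3 ∨ C' = P4) → (C' ∩ x.1).card < i := by
    intro C' h2
    have g2 : (C' ∩ x.1).card ≤ C'.card := Finset.card_le_card Finset.inter_subset_left
    rcases h2 with h2 | h2 | h2
    · omega
    · rw [h2]
      exact lt_of_not_subset q3 P3x
    · rw [h2]
      exact lt_of_not_subset q4 P4x
  have hlty : ∀ C : Finset (Fin n), (C.card < i ∨ C = P1 ∨ C = P2) → (C ∩ y.1).card < i := by
    intro C h2
    have g2 : (C ∩ y.1).card ≤ C.card := Finset.card_le_card Finset.inter_subset_left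
    rcases h2 with h2 | h2 | h2
    · omega
    · rw [h2]
      exact lt_of_not_subset q1 P1y
    · rw [h2]
      exact lt_of_not_subset q2 P2y
  have cross : ∀ j l, j < m1 → 0 < l → l ≤ m2 → Sep (J n r i) (p j) (q l) := by
    intro j l hj hl hl'
    rcases Nat.eq_zero_or_pos j with hj0 | hj0
    · rw [hj0, hp0]
      rcases Nat.lt_or_ge l m2 with hl2 | hl2
      · obtain ⟨C', A', f1, f2, f3, f4⟩ := hqi l hl hl2
        apply sep_symm
        apply sep_of hir
        have g := card_inter B C' x.1 A' ∅ f3 hxB (f2.trans hF2B) (Finset.empty_subset _)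
        rw [Finset.union_empty, Finset.inter_empty, Finset.card_empty, add_zero] at g
        rw [f1, g]
        exact hltx C' f4
      · have hl3 : l = m2 := by omega
        rw [hl3, hqm]
        exact ⟨hxy, hna⟩
    · obtain ⟨C, A, e1, e2, e3, e4⟩ := hpi j hj0 hj
      rcases Nat.lt_or_ge l m2 with hl2 | hl2
      · obtain ⟨C', A', f1, f2, f3, f4⟩ := hqi l hl hl2
        apply sep_of hir
        rw [e1, f1, card_inter B C C' A A' e3 f3 (e2.trans hF1) (f2.trans hF2B),
          Finset.disjoint_iff_inter_eq_empty.mp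
            (Finset.disjoint_of_subset_left e2 (Finset.disjoint_of_subset_right f2 hFF)),
          Finset.card_empty, add_zero]
        exact hlt C C' e4 f4
      · have hl3 : l = m2 := by omega
        rw [hl3, hqm]
        apply sep_of hir
        have g := card_inter B C y.1 A ∅ e3 hyB (e2.trans hF1) (Finset.empty_subset _)
        rw [Finset.union_empty, Finset.inter_empty, Finset.card_empty, add_zero] at g
        rw [e1, g]
        exact hlty C e4
  have h := glue (J n r i) m1 m2 p q hps hqs (hpm.trans hq0.symm) hm2 cross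
  rw [hpm, hp0, hqm] at h
  exact h

/-- The case `3 ≤ i`. -/
lemma core2 (hi : 3 ≤ i) (hir : i < r) (hn : 9 * r ≤ n) (x y w : Vx n r) (hxy : x ≠ y)
    (hna : ¬ (J n r i).Adj x y) (hwx : w ≠ x) (hwy : w ≠ y) : w ∈ interval (J n r i) x y := by
  have nwx : w.1 ≠ x.1 := fun h => hwx (Subtype.ext h)
  have nwy : w.1 ≠ y.1 := fun h => hwy (Subtype.ext h)
  obtain ⟨P2, p2, q2, P2x, P2y⟩ := exP w.1 x.1 y.1 w.2 x.2 y.2 nwx nwy (by omega) hir.le
  obtain ⟨P3, p3, q3, P3x, P3y, P23⟩ := exP' w.1 x.1 y.1 P2 w.2 x.2 y.2 nwx nwy q2 hi hir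
  exact core3 (by omega) hir hn x y w hxy hna hwx hwy P2 P3 p2 q2 P2x P2y p3 q3 P3x P3y P23

/-- The special position for `i = 2`: `w` misses only `u` in `x` and only `v` in `y`. -/
lemma caseB (hir : 4 ≤ r) (hn : 9 * r ≤ n) (x y w : Vx n r) (hxy : x ≠ y)
    (hna : ¬ (J n r 2).Adj x y) (hwx : w ≠ x) (hwy : w ≠ y) (u v : Fin n) (hu : u ∈ w.1)
    (hv : v ∈ w.1) (hux : u ∉ x.1) (hvy : v ∉ y.1) (huv : u ≠ v)
    (hy : ∀ t ∈ w.1, t ≠ v → t ∈ y.1) : w ∈ interval (J n r 2) x y := by
  have hB : (x.1 ∪ y.1 ∪ w.1).card ≤ 3 * r := by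
    have h1 := Finset.card_union_le (x.1 ∪ y.1) w.1
    have h2 := Finset.card_union_le x.1 y.1
    rw [x.2, y.2] at h2
    rw [w.2] at h1
    omega
  have hxB : x.1 ⊆ x.1 ∪ y.1 ∪ w.1 := fun t ht => by simp [ht]
  have hyB : y.1 ⊆ x.1 ∪ y.1 ∪ w.1 := fun t ht => by simp [ht]
  have hwB : w.1 ⊆ x.1 ∪ y.1 ∪ w.1 := fun t ht => by simp [ht]
  generalize x.1 ∪ y.1 ∪ w.1 = B at *
  obtain ⟨F1, hF1, cF1⟩ := Finset.exists_subset_card_eq (s := Bᶜ) (n := 3 * r)
    (by rw [Finset.card_compl, Fintype.card_fin]; omega)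
  obtain ⟨A2, hA2, cA2⟩ := Finset.exists_subset_card_eq (s := (B ∪ F1)ᶜ) (n := r - 2)
    (by
      have h1 := Finset.card_union_le B F1
      rw [Finset.card_compl, Fintype.card_fin]
      omega)
  have hA2B : A2 ⊆ Bᶜ := by
    intro t ht
    have h1 := Finset.mem_compl.mp (hA2 ht)
    rw [Finset.mem_union] at h1
    rw [Finset.mem_compl]
    tauto
  have hFF : Disjoint F1 A2 := by
    rw [Finset.disjoint_left]
    intro t ht ht'
    have h1 := Finset.mem_compl.mp (hA2 ht')
    rw [Finset.mem_union] at h1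
    tauto
  have nxy : x.1 ≠ y.1 := fun h => hxy (Subtype.ext h)
  have nwx : w.1 ≠ x.1 := fun h => hwx (Subtype.ext h)
  obtain ⟨P1, p1, q1, P1w, P1y⟩ :=
    exP (i := 2) x.1 w.1 y.1 x.2 w.2 y.2 nwx.symm nxy le_rfl (by omega)
  obtain ⟨s, hs, hs'⟩ : ∃ s ∈ w.1, s ∉ ({u, v} : Finset (Fin n)) := by
    by_contra hcon
    push Not at hcon
    have h1 := Finset.card_le_card (show w.1 ⊆ {u, v} from hcon)
    have h2 : ({u, v} : Finset (Fin n)).card ≤ 2 := Finset.card_le_two
    rw [w.2] at h1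
    omega
  rw [Finset.mem_insert, Finset.mem_singleton, not_or] at hs'
  have p2 : ({u, v} : Finset (Fin n)) ⊆ w.1 := by
    intro t ht
    rw [Finset.mem_insert, Finset.mem_singleton] at ht
    rcases ht with rfl | rfl
    · exact hu
    · exact hv
  have q2 : ({u, v} : Finset (Fin n)).card = 2 := Finset.card_pair huv
  have P2x : ¬ ({u, v} : Finset (Fin n)) ⊆ x.1 := fun h => hux (h (by simp))
  have P2y : ¬ ({u, v} : Finset (Fin n)) ⊆ y.1 := fun h => hvy (h (by simp))
  have p3 : ({u, s} : Finset (Fin n)) ⊆ w.1 := by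
    intro t ht
    rw [Finset.mem_insert, Finset.mem_singleton] at ht
    rcases ht with rfl | rfl
    · exact hu
    · exact hs
  have p3y : ({u, s} : Finset (Fin n)) ⊆ y.1 := by
    intro t ht
    rw [Finset.mem_insert, Finset.mem_singleton] at ht
    rcases ht with rfl | rfl
    · exact hy _ hu huv
    · exact hy _ hs hs'.2
  have q3 : ({u, s} : Finset (Fin n)).card = 2 := Finset.card_pair (Ne.symm hs'.1)
  have P3x : ¬ ({u, s} : Finset (Fin n)) ⊆ x.1 := fun h => hux (h (by simp))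
  have p3B := p3.trans hwB
  obtain ⟨e, he⟩ : ∃ e : Vx n r, e.1 = {u, s} ∪ A2 := by
    refine ⟨⟨{u, s} ∪ A2, ?_⟩, rfl⟩
    rw [Finset.card_union_of_disjoint, q3]
    · omega
    · rw [Finset.disjoint_left]
      intro t h3 h4
      exact Finset.mem_compl.mp (hA2B h4) (p3B h3)
  obtain ⟨m1, p, hm1, hp0, hpm, hps, hpi⟩ := seg B F1 P1 {u, v} (by omega) (by omega) x w hwx.symm
    hxB hwB p1 p2 q1 q2 P1w P2x hF1 cF1.ge
  have awe : (J n r 2).Adj w e := (adjP (by omega) B _ A2 e w he p3 hwB hA2B q3).symm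
  have aey : (J n r 2).Adj e y := adjP (by omega) B _ A2 e y he p3y hyB hA2B q3
  have nwy' : ¬ (J n r 2).Adj w y := by
    intro h
    have h1 := h.2
    have h2 : w.1.erase v ⊆ w.1 ∩ y.1 := by
      intro t ht
      rw [Finset.mem_erase] at ht
      exact Finset.mem_inter.mpr ⟨ht.2, hy t ht.2 ht.1⟩
    have h3 := Finset.card_le_card h2
    rw [Finset.card_erase_of_mem hv, w.2] at h3
    omega
  have cross : ∀ j l, j < m1 → 0 < l → l ≤ 2 →
      Sep (J n r 2) (p j) (if l = 0 then w else if l = 1 then e else y) := by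
    intro j l hj hl hl'
    have hl12 : l = 1 ∨ l = 2 := by omega
    rcases Nat.eq_zero_or_pos j with hj0 | hj0
    · rw [hj0, hp0]
      rcases hl12 with rfl | rfl
      · rw [if_neg (by omega), if_pos rfl]
        exact sep_symm (sepZ (by omega) B _ A2 e x he p3B hxB hA2B q3 P3x)
      · rw [if_neg (by omega), if_neg (by omega)]
        exact ⟨hxy, hna⟩
    · obtain ⟨C, A, e1, e2, e3, e4⟩ := hpi j hj0 hj
      rcases hl12 with rfl | rfl
      · rw [if_neg (by omega), if_pos rfl]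
        apply sep_of (by omega)
        rw [e1, he, card_inter B C _ A A2 e3 p3B (e2.trans hF1) hA2B,
          Finset.disjoint_iff_inter_eq_empty.mp (Finset.disjoint_of_subset_left e2 hFF),
          Finset.card_empty, add_zero]
        have g1 : (C ∩ {u, s}).card ≤ C.card := Finset.card_le_card Finset.inter_subset_left
        rcases e4 with e4 | e4 | e4
        · omega
        · rw [e4, Finset.inter_comm]
          exact lt_of_not_subset q3 (fun h => hux (p1 (h (by simp))))
        · rw [e4, Finset.inter_comm]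
          refine lt_of_not_subset q3 (fun h => ?_)
          have h5 : s ∈ ({u, v} : Finset (Fin n)) := h (by simp)
          rw [Finset.mem_insert, Finset.mem_singleton] at h5
          tauto
      · rw [if_neg (by omega), if_neg (by omega)]
        apply sep_of (by omega)
        have g := card_inter B C y.1 A ∅ e3 hyB (e2.trans hF1) (Finset.empty_subset _)
        rw [Finset.union_empty, Finset.inter_empty, Finset.card_empty, add_zero] at g
        rw [e1, g]
        have g1 : (C ∩ y.1).card ≤ C.card := Finset.card_le_card Finset.inter_subset_left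
        rcases e4 with e4 | e4 | e4
        · omega
        · rw [e4]
          exact lt_of_not_subset q1 P1y
        · rw [e4]
          exact lt_of_not_subset q2 P2y
  have hseg : Seg (J n r 2) 2 (fun l => if l = 0 then w else if l = 1 then e else y) := by
    intro a b hab hb
    have hab' : (a = 0 ∧ b = 1) ∨ (a = 0 ∧ b = 2) ∨ (a = 1 ∧ b = 2) := by omega
    rcases hab' with ⟨rfl, rfl⟩ | ⟨rfl, rfl⟩ | ⟨rfl, rfl⟩
    · exact ⟨awe.ne, fun _ => rfl, fun _ => awe⟩
    · exact ⟨hwy, fun h => absurd h nwy', fun h => by omega⟩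
    · exact ⟨aey.ne, fun _ => rfl, fun _ => aey⟩
  have h := glue (J n r 2) m1 2 p (fun l => if l = 0 then w else if l = 1 then e else y) hps hseg
    hpm (by omega) cross
  rw [hpm, hp0] at h
  exact h

/-- The case `i = 2`. -/
lemma coreTwo (hir : 4 ≤ r) (hn : 9 * r ≤ n) (x y w : Vx n r) (hxy : x ≠ y)
    (hna : ¬ (J n r 2).Adj x y) (hwx : w ≠ x) (hwy : w ≠ y) : w ∈ interval (J n r 2) x y := by
  have nwx : w.1 ≠ x.1 := fun h => hwx (Subtype.ext h)
  have nwy : w.1 ≠ y.1 := fun h => hwy (Subtype.ext h)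
  have pair : ∀ a b : Fin n, a ∈ w.1 → b ∈ w.1 → ({a, b} : Finset (Fin n)) ⊆ w.1 := by
    intro a b ha hb t ht
    rw [Finset.mem_insert, Finset.mem_singleton] at ht
    rcases ht with rfl | rfl
    · exact ha
    · exact hb
  have other : ∀ a b : Fin n, ∃ s ∈ w.1, s ≠ a ∧ s ≠ b := by
    intro a b
    by_contra hcon
    push Not at hcon
    have h0 : w.1 ⊆ {a, b} := by
      intro t ht
      rw [Finset.mem_insert, Finset.mem_singleton]
      by_cases h : t = a
      · exact Or.inl h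
      · exact Or.inr (hcon t ht h)
    have h1 := Finset.card_le_card h0
    have h2 : ({a, b} : Finset (Fin n)).card ≤ 2 := Finset.card_le_two
    rw [w.2] at h1
    omega
  by_cases k1 : ∃ u ∈ w.1, u ∉ x.1 ∧ u ∉ y.1
  · obtain ⟨u, hu, hux, huy⟩ := k1
    obtain ⟨q, hq, hq1, -⟩ := other u u
    obtain ⟨q', hq', hq1', hq2'⟩ := other u q
    refine core3 le_rfl (by omega) hn x y w hxy hna hwx hwy {u, q} {u, q'} (pair _ _ hu hq)
      (Finset.card_pair hq1.symm) (fun h => hux (h (by simp))) (fun h => huy (h (by simp)))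
      (pair _ _ hu hq') (Finset.card_pair hq1'.symm) (fun h => hux (h (by simp)))
      (fun h => huy (h (by simp))) (fun h => ?_)
    have h5 : q ∈ ({u, q'} : Finset (Fin n)) := h (by simp)
    rw [Finset.mem_insert, Finset.mem_singleton] at h5
    rcases h5 with h5 | h5
    · exact hq1 h5
    · exact hq2' h5.symm
  · push Not at k1
    obtain ⟨u, hu, hux⟩ := exists_not_mem (x.2.trans w.2.symm).le nwx
    obtain ⟨v, hv, hvy⟩ := exists_not_mem (y.2.trans w.2.symm).le nwy
    have huy := k1 u hu hux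
    have hvx : v ∈ x.1 := by
      by_contra h
      exact hvy (k1 v hv h)
    have huv : u ≠ v := fun h => hux (h ▸ hvx)
    by_cases k2 : ∃ u' ∈ w.1, u' ∉ x.1 ∧ u' ≠ u
    · obtain ⟨u', hu', hux', hne⟩ := k2
      have huv' : u' ≠ v := fun h => hux' (h ▸ hvx)
      refine core3 le_rfl (by omega) hn x y w hxy hna hwx hwy {u, v} {u', v} (pair _ _ hu hv)
        (Finset.card_pair huv) (fun h => hux (h (by simp))) (fun h => hvy (h (by simp)))
        (pair _ _ hu' hv) (Finset.card_pair huv') (fun h => hux' (h (by simp)))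
        (fun h => hvy (h (by simp))) (fun h => ?_)
      have h5 : u ∈ ({u', v} : Finset (Fin n)) := h (by simp)
      rw [Finset.mem_insert, Finset.mem_singleton] at h5
      rcases h5 with h5 | h5
      · exact hne h5.symm
      · exact huv h5
    · by_cases k3 : ∃ v' ∈ w.1, v' ∉ y.1 ∧ v' ≠ v
      · obtain ⟨v', hv', hvy', hne⟩ := k3
        have huv' : u ≠ v' := fun h => hvy' (h ▸ huy)
        refine core3 le_rfl (by omega) hn x y w hxy hna hwx hwy {u, v} {u, v'} (pair _ _ hu hv)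
          (Finset.card_pair huv) (fun h => hux (h (by simp))) (fun h => hvy (h (by simp)))
          (pair _ _ hu hv') (Finset.card_pair huv') (fun h => hux (h (by simp)))
          (fun h => hvy' (h (by simp))) (fun h => ?_)
        have h5 : v ∈ ({u, v'} : Finset (Fin n)) := h (by simp)
        rw [Finset.mem_insert, Finset.mem_singleton] at h5
        rcases h5 with h5 | h5
        · exact huv h5.symm
        · exact hne h5.symm
      · push Not at k3
        refine caseB hir hn x y w hxy hna hwx hwy u v hu hv hux hvy huv (fun t ht htv => ?_)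
        by_contra h
        exact htv (k3 t ht h)

lemma mono_pair (hcore : ∀ x y w : Vx n r, x ≠ y → ¬ (J n r i).Adj x y → w ≠ x → w ≠ y →
    w ∈ interval (J n r i) x y) (x y : Vx n r)
    (hxy : x ≠ y) (hna : ¬ (J n r i).Adj x y) : Monophonic (J n r i) {x, y} := by
  have self : ∀ u : Vx n r, u ∈ interval (J n r i) u u := by
    intro u
    refine ⟨[u], ⟨by simp, ?_⟩, by simp, by simp, by simp⟩
    intro a b ha hb
    simp only [List.length_singleton, Nat.lt_one_iff] at ha hb
    subst ha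
    subst hb
    simp
  intro w
  by_cases h1 : w = x
  · subst h1
    exact ⟨w, by simp, w, by simp, self w⟩
  · by_cases h2 : w = y
    · subst h2
      exact ⟨w, by simp, w, by simp, self w⟩
    · exact ⟨x, by simp, y, by simp, hcore x y w hxy hna h1 h2⟩

/-- For `2 ≤ i ≤ r - 2` the graph `J(n,r,i)` is strongly 2-monophonic as soon as `n ≥ 9 r`; for
`3 ≤ i ≤ r / 2` this holds already for `n ≥ 7 r - 4 i`. -/
theorem result : ∀ n r i : ℕ, 2 ≤ i → i + 2 ≤ r →
    (9 * r ≤ n ∨ (3 ≤ i ∧ 2 * i ≤ r ∧ 7 * r ≤ n + 4 * i)) → StronglyTwoMonophonic (J n r i) := by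
  intro n r i hi hir' hor
  have hir : i < r := by omega
  have hcore : ∀ x y w : Vx n r, x ≠ y → ¬ (J n r i).Adj x y → w ≠ x → w ≠ y →
      w ∈ interval (J n r i) x y := by
    intro x y w h1 h2 h3 h4
    rcases hor with h | h
    · rcases Nat.lt_or_ge 2 i with h5 | h5
      · exact core2 h5 hir h x y w h1 h2 h3 h4
      · have h6 : i = 2 := by omega
        subst h6
        exact coreTwo (by omega) h x y w h1 h2 h3 h4
    · exact core h.1 h.2.1 h.2.2 x y w h1 h2 h3 h4
  have hn : 2 * r ≤ n := by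
    rcases hor with h | h <;> omega
  obtain ⟨X, -, hX⟩ := Finset.exists_subset_card_eq (s := (Finset.univ : Finset (Fin n))) (n := r)
    (by rw [Finset.card_univ, Fintype.card_fin]; omega)
  obtain ⟨Y, hY, hYc⟩ := Finset.exists_subset_card_eq (s := Xᶜ) (n := r)
    (by rw [Finset.card_compl, Fintype.card_fin, hX]; omega)
  have hXY : (X ∩ Y).card = 0 := by
    rw [Finset.card_eq_zero, ← Finset.disjoint_iff_inter_eq_empty, Finset.disjoint_left]
    intro t h1 h2
    exact Finset.mem_compl.mp (hY h2) h1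
  have hsep : Sep (J n r i) ⟨X, hX⟩ ⟨Y, hYc⟩ := by
    apply sep_of hir
    show (X ∩ Y).card < i
    omega
  refine ⟨⟨⟨{⟨X, hX⟩, ⟨Y, hYc⟩}, Set.toFinite _, Set.ncard_pair hsep.1,
    mono_pair hcore _ _ hsep.1 hsep.2⟩, ?_⟩, fun x y h1 h2 => mono_pair hcore x y h1 h2⟩
  rintro k ⟨S, hS, hk, hm⟩
  by_contra hcon
  push Not at hcon
  obtain ⟨x1, hx1, y1, hy1, hxy1⟩ := hm ⟨X, hX⟩
  obtain ⟨x2, hx2, y2, hy2, hxy2⟩ := hm ⟨Y, hYc⟩
  have hle : ∀ a ∈ S, ∀ b ∈ S, a = b := by
    have h3 : S.ncard ≤ 1 := by omega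
    intro a ha b hb
    exact (Set.ncard_le_one hS).mp h3 a ha b hb
  have e1 := hle x1 hx1 y1 hy1
  have e2 := hle x2 hx2 y2 hy2
  have e3 := hle x1 hx1 x2 hx2
  subst e1
  subst e2
  subst e3
  have f1 := interval_self _ _ _ hxy1
  have f2 := interval_self _ _ _ hxy2
  exact hsep.1 (f1.trans f2.symm)

end main

end Pool.Agent.Results.MP_785afb_co.LargeGroundSet
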