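import Mathlib

/-!
# The generalized Johnson graphs `J(n, 3, 1)` are strongly 2-monophonic

For every `n ≥ 6` and every two distinct non-adjacent vertices `x, y` of `J(n, 3, 1)`, every vertex
lies on an induced path from `x` to `y` or is `x` or `y`; and the monophonic number is `2`.

Proof: for `x, y, w` let `k` be the number of elements of `w` which are not in `x ∪ y`. If
`x ∩ y = ∅` then `x, y, w` are contained in a set of `6 + k` elements; if `x ∩ y` has two elements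
they are contained in a set of `max (6, 4 + k)` elements. In these small sets the induced paths are
listed, up to the order of the elements.
-/

set_option autoImplicit false

namespace Pool.Agent.Results.MP_785afb_co.ThreeSubsets

/-- The generalized Johnson graph `J(n, r, i)`: the vertices are the `r`-element subsets of an
`n`-element set, two distinct vertices are adjacent if and only if they have exactly `i` common
elements. -/
def johnson (n r i : ℕ) : SimpleGraph {A : Finset (Fin n) // A.card = r} where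
  Adj A B := A ≠ B ∧ (A.1 ∩ B.1).card = i
  symm := ⟨fun A B h => ⟨h.1.symm, by rw [Finset.inter_comm]; exact h.2⟩⟩
  loopless := ⟨fun _ h => h.1 rfl⟩

/-- `w` lies on an induced path `f 0, f 1, …, f l` from `u` to `v` in the graph `G`: the vertices
`f 0, …, f l` are distinct, and two of them are adjacent in `G` if and only if they are consecutive. -/
def OnInducedPath {V : Type} (G : SimpleGraph V) (u v w : V) : Prop :=
  ∃ (l : ℕ) (f : ℕ → V), f 0 = u ∧ f l = v ∧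
    (∀ a ≤ l, ∀ b ≤ l, f a = f b → a = b) ∧
    (∀ a ≤ l, ∀ b ≤ l, G.Adj (f a) (f b) ↔ (a + 1 = b ∨ b + 1 = a)) ∧
    ∃ c ≤ l, f c = w

/-- A set `S` of vertices is monophonic if every vertex lies on an induced path between two vertices
of `S` (which may be equal). -/
def Monophonic {V : Type} (G : SimpleGraph V) (S : Finset V) : Prop :=
  ∀ w : V, ∃ x ∈ S, ∃ y ∈ S, OnInducedPath G x y w

/-- The monophonic number of `G` is two: there is a monophonic set with two vertices, and none with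
fewer vertices. -/
def MonophonicNumberTwo {V : Type} (G : SimpleGraph V) : Prop :=
  (∃ S : Finset V, S.card = 2 ∧ Monophonic G S) ∧ ∀ S : Finset V, Monophonic G S → 2 ≤ S.card

/-- `l` is a list of 3-element sets which form an induced path from `x` to `y`. -/
def Good {m : ℕ} (x y : Finset (Fin m)) (l : List (Finset (Fin m))) : Prop :=
  0 < l.length ∧ l.getD 0 x = x ∧ l.getD (l.length - 1) x = y ∧
  (∀ a < l.length, (l.getD a x).card = 3) ∧
  (∀ a < l.length, ∀ b < l.length, (l.getD a x ∩ l.getD b x).card = 1 ↔ (a + 1 = b ∨ b + 1 = a)) ∧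
  (∀ a < l.length, ∀ b < l.length, l.getD a x = l.getD b x → a = b)

instance {m : ℕ} (x y : Finset (Fin m)) (l : List (Finset (Fin m))) : Decidable (Good x y l) := by
  unfold Good; infer_instance

def tabA6 : List (List (Finset (Fin 6))) :=
  [[{0, 1, 2}, {0, 4, 5}, {0, 1, 3}, {3, 4, 5}],
   [{0, 1, 2}, {0, 3, 5}, {0, 1, 4}, {3, 4, 5}],
   [{0, 1, 2}, {0, 3, 4}, {0, 1, 5}, {3, 4, 5}],
   [{0, 1, 2}, {0, 4, 5}, {0, 2, 3}, {3, 4, 5}],
   [{0, 1, 2}, {0, 3, 5}, {0, 2, 4}, {3, 4, 5}],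
   [{0, 1, 2}, {0, 3, 4}, {0, 2, 5}, {3, 4, 5}],
   [{0, 1, 2}, {0, 3, 4}, {1, 2, 3}, {3, 4, 5}],
   [{0, 1, 2}, {0, 3, 4}, {1, 2, 4}, {3, 4, 5}],
   [{0, 1, 2}, {0, 3, 5}, {1, 2, 5}, {3, 4, 5}],
   [{0, 1, 2}, {1, 3, 4}, {0, 1, 5}, {3, 4, 5}],
   [{0, 1, 2}, {1, 3, 5}, {0, 1, 4}, {3, 4, 5}],
   [{0, 1, 2}, {1, 4, 5}, {0, 1, 3}, {3, 4, 5}],
   [{0, 1, 2}, {2, 3, 4}, {0, 1, 3}, {3, 4, 5}],
   [{0, 1, 2}, {2, 3, 5}, {0, 1, 3}, {3, 4, 5}],
   [{0, 1, 2}, {2, 4, 5}, {0, 1, 4}, {3, 4, 5}]]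

def tabA7 : List (List (Finset (Fin 7))) :=
  [[{0, 1, 2}, {0, 3, 4}, {0, 1, 6}, {0, 2, 3}, {3, 4, 5}],
   [{0, 1, 2}, {0, 3, 4}, {0, 2, 6}, {0, 1, 3}, {3, 4, 5}],
   [{0, 1, 2}, {0, 3, 6}, {3, 4, 5}],
   [{0, 1, 2}, {0, 4, 6}, {3, 4, 5}],
   [{0, 1, 2}, {0, 5, 6}, {3, 4, 5}],
   [{0, 1, 2}, {1, 3, 4}, {1, 2, 6}, {0, 1, 3}, {3, 4, 5}],
   [{0, 1, 2}, {1, 3, 6}, {3, 4, 5}],
   [{0, 1, 2}, {1, 4, 6}, {3, 4, 5}],
   [{0, 1, 2}, {1, 5, 6}, {3, 4, 5}],
   [{0, 1, 2}, {2, 3, 6}, {3, 4, 5}],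
   [{0, 1, 2}, {2, 4, 6}, {3, 4, 5}],
   [{0, 1, 2}, {2, 5, 6}, {3, 4, 5}],
   [{0, 1, 2}, {0, 3, 5}, {3, 4, 6}, {0, 1, 3}, {3, 4, 5}],
   [{0, 1, 2}, {0, 3, 4}, {3, 5, 6}, {0, 1, 3}, {3, 4, 5}],
   [{0, 1, 2}, {0, 3, 4}, {4, 5, 6}, {0, 1, 4}, {3, 4, 5}]]

def tabA8 : List (List (Finset (Fin 8))) :=
  [[{0, 1, 2}, {0, 6, 7}, {0, 1, 3}, {3, 4, 5}],
   [{0, 1, 2}, {1, 6, 7}, {0, 1, 3}, {3, 4, 5}],
   [{0, 1, 2}, {2, 6, 7}, {0, 2, 3}, {3, 4, 5}],
   [{0, 1, 2}, {0, 3, 4}, {3, 6, 7}, {3, 4, 5}],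
   [{0, 1, 2}, {0, 3, 4}, {4, 6, 7}, {3, 4, 5}],
   [{0, 1, 2}, {0, 3, 5}, {5, 6, 7}, {3, 4, 5}]]

def tabA9 : List (List (Finset (Fin 9))) :=
  [[{0, 1, 2}, {0, 3, 4}, {0, 1, 6}, {6, 7, 8}, {1, 2, 6}, {0, 1, 3}, {3, 4, 5}]]

def tabB6 : List (List (Finset (Fin 6))) :=
  [[{0, 1, 2}, {0, 3, 5}, {0, 1, 4}, {0, 2, 5}, {0, 1, 3}],
   [{0, 1, 2}, {0, 3, 4}, {0, 1, 5}, {0, 2, 4}, {0, 1, 3}],
   [{0, 1, 2}, {1, 3, 4}, {0, 2, 3}, {1, 2, 4}, {0, 1, 3}],
   [{0, 1, 2}, {0, 4, 5}, {0, 1, 3}],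
   [{0, 1, 2}, {0, 3, 4}, {1, 2, 3}, {0, 2, 4}, {0, 1, 3}],
   [{0, 1, 2}, {0, 3, 5}, {1, 2, 5}, {0, 1, 3}],
   [{0, 1, 2}, {1, 3, 5}, {0, 2, 5}, {0, 1, 3}],
   [{0, 1, 2}, {1, 4, 5}, {0, 1, 3}],
   [{0, 1, 2}, {2, 3, 4}, {0, 1, 3}],
   [{0, 1, 2}, {2, 3, 5}, {0, 1, 3}],
   [{0, 1, 2}, {2, 4, 5}, {0, 1, 4}, {0, 2, 5}, {0, 1, 3}],
   [{0, 1, 2}, {0, 3, 4}, {0, 1, 5}, {3, 4, 5}, {0, 1, 3}]]

def tabB7 : List (List (Finset (Fin 7))) :=
  [[{0, 1, 2}, {0, 3, 4}, {4, 5, 6}, {0, 2, 4}, {0, 1, 3}]]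

theorem goodA6 : ∀ l ∈ tabA6, Good {0, 1, 2} {3, 4, 5} l := by decide
theorem goodA7 : ∀ l ∈ tabA7, Good {0, 1, 2} {3, 4, 5} l := by decide
theorem goodA8 : ∀ l ∈ tabA8, Good {0, 1, 2} {3, 4, 5} l := by decide
theorem goodA9 : ∀ l ∈ tabA9, Good {0, 1, 2} {3, 4, 5} l := by decide
theorem goodB6 : ∀ l ∈ tabB6, Good {0, 1, 2} {0, 1, 3} l := by decide
theorem goodB7 : ∀ l ∈ tabB7, Good {0, 1, 2} {0, 1, 3} l := by decide

theorem covA6 : ∀ w : Finset (Fin 6), w.card = 3 → ∃ l ∈ tabA6, w ∈ l := by decide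
set_option maxRecDepth 100000 in
theorem covA7 : ∀ w : Finset (Fin 7), w.card = 3 → 6 ∈ w → ∃ l ∈ tabA7, w ∈ l := by decide
set_option maxRecDepth 100000 in
theorem covA8 : ∀ w : Finset (Fin 8), w.card = 3 → 6 ∈ w → 7 ∈ w → ∃ l ∈ tabA8, w ∈ l := by decide
theorem covB6 : ∀ w : Finset (Fin 6), w.card = 3 → ∃ l ∈ tabB6, w ∈ l := by decide

/-- Transfer of an induced path along an injection. -/
theorem transfer {m n : ℕ} (g : Fin m → Fin n) (hg : Function.Injective g) {x0 y0 w0 : Finset (Fin m)}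
    (l : List (Finset (Fin m))) (h : Good x0 y0 l) (hw0 : w0 ∈ l) (hx0 : x0.card = 3)
    (x y w : {A : Finset (Fin n) // A.card = 3}) (hx : x.1 = x0.image g) (hy : y.1 = y0.image g)
    (hw : w.1 = w0.image g) : OnInducedPath (johnson n 3 1) x y w := by
  obtain ⟨h0, h1, h2, h3, h4, h5⟩ := h
  have hc : ∀ a, (l.getD a x0).card = 3 := by
    intro a
    rcases Nat.lt_or_ge a l.length with ha | ha
    · exact h3 a ha
    · rw [List.getD_eq_default _ _ ha]; exact hx0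
  have hci : ∀ A : Finset (Fin m), (A.image g).card = A.card := fun A =>
    Finset.card_image_of_injective A hg
  have hii : ∀ A B : Finset (Fin m), (A.image g ∩ B.image g).card = (A ∩ B).card := by
    intro A B
    rw [← Finset.image_inter A B hg, hci]
  have hinj : ∀ A B : Finset (Fin m), A.image g = B.image g → A = B := fun A B hAB =>
    Finset.image_injective hg hAB
  refine ⟨l.length - 1, fun a => ⟨(l.getD a x0).image g, by rw [hci, hc]⟩, ?_, ?_, ?_, ?_, ?_⟩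
  · apply Subtype.ext
    show (l.getD 0 x0).image g = x.1
    rw [h1, hx]
  · apply Subtype.ext
    show (l.getD (l.length - 1) x0).image g = y.1
    rw [h2, hy]
  · intro a ha b hb hab
    have h6 : (l.getD a x0).image g = (l.getD b x0).image g := congrArg Subtype.val hab
    exact h5 a (by omega) b (by omega) (hinj _ _ h6)
  · intro a ha b hb
    rw [← h4 a (by omega) b (by omega), ← hii]
    constructor
    · exact fun h6 => h6.2
    · intro h6
      refine ⟨fun h7 => ?_, h6⟩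
      have h8 : (l.getD a x0).image g = (l.getD b x0).image g := congrArg Subtype.val h7
      rw [h8, Finset.inter_self, hci, hc] at h6
      omega
  · obtain ⟨c, hc1, hc2⟩ := List.mem_iff_getElem.1 hw0
    refine ⟨c, by omega, ?_⟩
    apply Subtype.ext
    show (l.getD c x0).image g = w.1
    rw [List.getD_eq_getElem _ _ hc1, hc2, hw]

/-- The preimage of `w` under an injection whose range contains `w`. -/
theorem pre {m n : ℕ} (g : Fin m → Fin n) (hg : Function.Injective g) (w : Finset (Fin n))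
    (hw : ∀ a ∈ w, ∃ i, g i = a) :
    ∃ w0 : Finset (Fin m), w = w0.image g ∧ w0.card = w.card ∧ ∀ i, i ∈ w0 ↔ g i ∈ w := by
  classical
  refine ⟨Finset.univ.filter fun i => g i ∈ w, ?_, ?_, fun i => by simp⟩
  · ext a
    simp only [Finset.mem_image, Finset.mem_filter, Finset.mem_univ, true_and]
    constructor
    · intro ha
      obtain ⟨i, hi⟩ := hw a ha
      exact ⟨i, by rw [hi]; exact ha, hi⟩
    · rintro ⟨i, hi, rfl⟩
      exact hi
  · have h1 : w = (Finset.univ.filter fun i => g i ∈ w).image g := by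
      ext a
      simp only [Finset.mem_image, Finset.mem_filter, Finset.mem_univ, true_and]
      constructor
      · intro ha
        obtain ⟨i, hi⟩ := hw a ha
        exact ⟨i, by rw [hi]; exact ha, hi⟩
      · rintro ⟨i, hi, rfl⟩
        exact hi
    conv_rhs => rw [h1]
    rw [Finset.card_image_of_injective _ hg]

theorem covA9 : ∃ l ∈ tabA9, ({6, 7, 8} : Finset (Fin 9)) ∈ l := by decide
theorem covB7 : ∃ l ∈ tabB7, ({4, 5, 6} : Finset (Fin 7)) ∈ l := by decide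

/-- Distinct values listed by `g`. -/
theorem inj_of {m n : ℕ} (g : Fin m → Fin n) (h : (List.ofFn g).Nodup) : Function.Injective g :=
  List.nodup_ofFn.1 h

theorem mem_of {m n : ℕ} (g : Fin m → Fin n) {a : Fin n} (h : a ∈ List.ofFn g) : ∃ i, g i = a := by
  rw [List.mem_ofFn] at h
  exact h

/-- The case of disjoint `x` and `y`. -/
theorem caseA {n : ℕ} (x y w : {A : Finset (Fin n) // A.card = 3}) (h : (x.1 ∩ y.1).card = 0) :
    OnInducedPath (johnson n 3 1) x y w := by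
  obtain ⟨a1, a2, a3, h12, h13, h23, hx⟩ := Finset.card_eq_three.1 x.2
  obtain ⟨b1, b2, b3, k12, k13, k23, hy⟩ := Finset.card_eq_three.1 y.2
  have hd : Disjoint x.1 y.1 := Finset.disjoint_iff_inter_eq_empty.2 (Finset.card_eq_zero.1 h)
  have hab : ∀ a ∈ x.1, ∀ b ∈ y.1, a ≠ b := fun a ha b hb e =>
    Finset.disjoint_left.1 hd ha (e ▸ hb)
  have m1 : a1 ∈ x.1 := by rw [hx]; simp
  have m2 : a2 ∈ x.1 := by rw [hx]; simp
  have m3 : a3 ∈ x.1 := by rw [hx]; simp
  have q1 : b1 ∈ y.1 := by rw [hy]; simp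
  have q2 : b2 ∈ y.1 := by rw [hy]; simp
  have q3 : b3 ∈ y.1 := by rw [hy]; simp
  have e11 := hab _ m1 _ q1
  have e12 := hab _ m1 _ q2
  have e13 := hab _ m1 _ q3
  have e21 := hab _ m2 _ q1
  have e22 := hab _ m2 _ q2
  have e23 := hab _ m2 _ q3
  have e31 := hab _ m3 _ q1
  have e32 := hab _ m3 _ q2
  have e33 := hab _ m3 _ q3
  obtain ⟨z, hz⟩ : ∃ z, z = w.1 \ (x.1 ∪ y.1) := ⟨_, rfl⟩
  have hzw : z ⊆ w.1 := by rw [hz]; exact Finset.sdiff_subset
  have hz3 : z.card ≤ 3 := by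
    have := Finset.card_le_card hzw
    rwa [w.2] at this
  have hwz : ∀ a ∈ w.1, a ∈ x.1 ∨ a ∈ y.1 ∨ a ∈ z := by
    intro a ha
    by_cases h1 : a ∈ x.1
    · exact Or.inl h1
    · by_cases h2 : a ∈ y.1
      · exact Or.inr (Or.inl h2)
      · exact Or.inr (Or.inr (by rw [hz, Finset.mem_sdiff, Finset.mem_union]; tauto))
  have hzx : ∀ c ∈ z, ∀ a ∈ x.1, a ≠ c := by
    rintro c hc a ha rfl
    rw [hz, Finset.mem_sdiff, Finset.mem_union] at hc
    exact hc.2 (Or.inl ha)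
  have hzy : ∀ c ∈ z, ∀ a ∈ y.1, a ≠ c := by
    rintro c hc a ha rfl
    rw [hz, Finset.mem_sdiff, Finset.mem_union] at hc
    exact hc.2 (Or.inr ha)
  have hcases : z.card = 0 ∨ z.card = 1 ∨ z.card = 2 ∨ z.card = 3 := by omega
  rcases hcases with hk | hk | hk | hk
  · have hz0 : z = ∅ := Finset.card_eq_zero.1 hk
    have hg := inj_of ![a1, a2, a3, b1, b2, b3] (by
      show [a1, a2, a3, b1, b2, b3].Nodup
      simp [h12, h13, h23, k12, k13, k23, e11, e12, e13, e21, e22, e23, e31, e32, e33])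
    obtain ⟨w0, hw0, hc0, _⟩ := pre ![a1, a2, a3, b1, b2, b3] hg w.1 (by
      intro a ha
      apply mem_of
      show a ∈ [a1, a2, a3, b1, b2, b3]
      rcases hwz a ha with h1 | h1 | h1
      · rw [hx] at h1; simp at h1 ⊢; tauto
      · rw [hy] at h1; simp at h1 ⊢; tauto
      · rw [hz0] at h1; simp at h1)
    obtain ⟨l, hl, hwl⟩ := covA6 w0 (by rw [hc0, w.2])
    exact transfer _ hg l (goodA6 l hl) hwl (by decide) x y w (by rw [hx]; simp) (by rw [hy]; simp) hw0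
  · obtain ⟨c, hc⟩ := Finset.card_eq_one.1 hk
    have mc : c ∈ z := by rw [hc]; simp
    have hg := inj_of ![a1, a2, a3, b1, b2, b3, c] (by
      show [a1, a2, a3, b1, b2, b3, c].Nodup
      simp [h12, h13, h23, k12, k13, k23, e11, e12, e13, e21, e22, e23, e31, e32, e33,
        hzx _ mc _ m1, hzx _ mc _ m2, hzx _ mc _ m3, hzy _ mc _ q1, hzy _ mc _ q2, hzy _ mc _ q3])
    obtain ⟨w0, hw0, hc0, hm0⟩ := pre ![a1, a2, a3, b1, b2, b3, c] hg w.1 (by
      intro a ha
      apply mem_of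
      show a ∈ [a1, a2, a3, b1, b2, b3, c]
      rcases hwz a ha with h1 | h1 | h1
      · rw [hx] at h1; simp at h1 ⊢; tauto
      · rw [hy] at h1; simp at h1 ⊢; tauto
      · rw [hc] at h1; simp at h1 ⊢; tauto)
    obtain ⟨l, hl, hwl⟩ := covA7 w0 (by rw [hc0, w.2]) ((hm0 6).2 (hzw mc))
    exact transfer _ hg l (goodA7 l hl) hwl (by decide) x y w (by rw [hx]; simp) (by rw [hy]; simp) hw0
  · obtain ⟨c, d, hcd, hc⟩ := Finset.card_eq_two.1 hk
    have mc : c ∈ z := by rw [hc]; simp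
    have md : d ∈ z := by rw [hc]; simp
    have hg := inj_of ![a1, a2, a3, b1, b2, b3, c, d] (by
      show [a1, a2, a3, b1, b2, b3, c, d].Nodup
      simp [h12, h13, h23, k12, k13, k23, e11, e12, e13, e21, e22, e23, e31, e32, e33, hcd,
        hzx _ mc _ m1, hzx _ mc _ m2, hzx _ mc _ m3, hzy _ mc _ q1, hzy _ mc _ q2, hzy _ mc _ q3,
        hzx _ md _ m1, hzx _ md _ m2, hzx _ md _ m3, hzy _ md _ q1, hzy _ md _ q2, hzy _ md _ q3])
    obtain ⟨w0, hw0, hc0, hm0⟩ := pre ![a1, a2, a3, b1, b2, b3, c, d] hg w.1 (by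
      intro a ha
      apply mem_of
      show a ∈ [a1, a2, a3, b1, b2, b3, c, d]
      rcases hwz a ha with h1 | h1 | h1
      · rw [hx] at h1; simp at h1 ⊢; tauto
      · rw [hy] at h1; simp at h1 ⊢; tauto
      · rw [hc] at h1; simp at h1 ⊢; tauto)
    obtain ⟨l, hl, hwl⟩ := covA8 w0 (by rw [hc0, w.2]) ((hm0 6).2 (hzw mc)) ((hm0 7).2 (hzw md))
    exact transfer _ hg l (goodA8 l hl) hwl (by decide) x y w (by rw [hx]; simp) (by rw [hy]; simp) hw0
  · obtain ⟨c, d, e, hcd, hce, hde, hc⟩ := Finset.card_eq_three.1 hk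
    have mc : c ∈ z := by rw [hc]; simp
    have md : d ∈ z := by rw [hc]; simp
    have me : e ∈ z := by rw [hc]; simp
    have hwz' : z = w.1 := Finset.eq_of_subset_of_card_le hzw (by rw [hk, w.2])
    have hg := inj_of ![a1, a2, a3, b1, b2, b3, c, d, e] (by
      show [a1, a2, a3, b1, b2, b3, c, d, e].Nodup
      simp [h12, h13, h23, k12, k13, k23, e11, e12, e13, e21, e22, e23, e31, e32, e33, hcd, hce,
        hde,
        hzx _ mc _ m1, hzx _ mc _ m2, hzx _ mc _ m3, hzy _ mc _ q1, hzy _ mc _ q2, hzy _ mc _ q3,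
        hzx _ md _ m1, hzx _ md _ m2, hzx _ md _ m3, hzy _ md _ q1, hzy _ md _ q2, hzy _ md _ q3,
        hzx _ me _ m1, hzx _ me _ m2, hzx _ me _ m3, hzy _ me _ q1, hzy _ me _ q2, hzy _ me _ q3])
    obtain ⟨l, hl, hwl⟩ := covA9
    exact transfer _ hg l (goodA9 l hl) hwl (by decide) x y w (by rw [hx]; simp) (by rw [hy]; simp)
      (by rw [← hwz', hc]; simp)

/-- The case of `x` and `y` with two common elements. -/
theorem caseB {n : ℕ} (hn : 6 ≤ n) (x y w : {A : Finset (Fin n) // A.card = 3})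
    (h : (x.1 ∩ y.1).card = 2) : OnInducedPath (johnson n 3 1) x y w := by
  obtain ⟨a1, a2, h12, hxy⟩ := Finset.card_eq_two.1 h
  have hx1 : (x.1 \ y.1).card = 1 := by
    have := Finset.card_inter_add_card_sdiff x.1 y.1
    rw [x.2, h] at this
    omega
  have hy1 : (y.1 \ x.1).card = 1 := by
    have := Finset.card_inter_add_card_sdiff y.1 x.1
    rw [y.2, Finset.inter_comm, h] at this
    omega
  obtain ⟨a3, ha3⟩ := Finset.card_eq_one.1 hx1
  obtain ⟨b, hb⟩ := Finset.card_eq_one.1 hy1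
  have i1 : a1 ∈ x.1 ∩ y.1 := by rw [hxy]; simp
  have i2 : a2 ∈ x.1 ∩ y.1 := by rw [hxy]; simp
  have i3 : a3 ∈ x.1 \ y.1 := by rw [ha3]; simp
  have i4 : b ∈ y.1 \ x.1 := by rw [hb]; simp
  rw [Finset.mem_inter] at i1 i2
  rw [Finset.mem_sdiff] at i3 i4
  have h13 : a1 ≠ a3 := by rintro rfl; exact i3.2 i1.2
  have h23 : a2 ≠ a3 := by rintro rfl; exact i3.2 i2.2
  have h14 : a1 ≠ b := by rintro rfl; exact i4.2 i1.1
  have h24 : a2 ≠ b := by rintro rfl; exact i4.2 i2.1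
  have h34 : a3 ≠ b := by rintro rfl; exact i4.2 i3.1
  have hx : x.1 = {a1, a2, a3} := by
    rw [← Finset.sdiff_union_inter x.1 y.1, hxy, ha3]
    ext v; simp; tauto
  have hy : y.1 = {a1, a2, b} := by
    rw [← Finset.sdiff_union_inter y.1 x.1, Finset.inter_comm, hxy, hb]
    ext v; simp; tauto
  have hU : (x.1 ∪ y.1).card = 4 := by
    have := Finset.card_union_add_card_inter x.1 y.1
    rw [x.2, y.2, h] at this
    omega
  obtain ⟨z, hz⟩ : ∃ z, z = w.1 \ (x.1 ∪ y.1) := ⟨_, rfl⟩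
  have hzw : z ⊆ w.1 := by rw [hz]; exact Finset.sdiff_subset
  have hz3 : z.card ≤ 3 := by
    have := Finset.card_le_card hzw
    rwa [w.2] at this
  have hwz : ∀ a ∈ w.1, a ∈ x.1 ∨ a ∈ y.1 ∨ a ∈ z := by
    intro a ha
    by_cases h1 : a ∈ x.1
    · exact Or.inl h1
    · by_cases h2 : a ∈ y.1
      · exact Or.inr (Or.inl h2)
      · exact Or.inr (Or.inr (by rw [hz, Finset.mem_sdiff, Finset.mem_union]; tauto))
  have hzU : z ⊆ (x.1 ∪ y.1)ᶜ := by
    intro a ha
    rw [hz, Finset.mem_sdiff] at ha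
    rw [Finset.mem_compl]
    exact ha.2
  rcases Nat.lt_or_ge z.card 3 with hk | hk
  · obtain ⟨T, hzT, hTU, hTc⟩ := Finset.exists_subsuperset_card_eq (n := 2) hzU (by omega) (by
      rw [Finset.card_compl, Fintype.card_fin, hU]; omega)
    obtain ⟨c, d, hcd, hT⟩ := Finset.card_eq_two.1 hTc
    have hTx : ∀ c ∈ T, ∀ a, (a ∈ x.1 ∨ a ∈ y.1) → a ≠ c := by
      rintro c hc a ha rfl
      have := hTU hc
      rw [Finset.mem_compl, Finset.mem_union] at this
      exact this ha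
    have mc : c ∈ T := by rw [hT]; simp
    have md : d ∈ T := by rw [hT]; simp
    have hg := inj_of ![a1, a2, a3, b, c, d] (by
      show [a1, a2, a3, b, c, d].Nodup
      simp [h12, h13, h23, h14, h24, h34, hcd, hTx _ mc _ (Or.inl i1.1), hTx _ mc _ (Or.inl i2.1),
        hTx _ mc _ (Or.inl i3.1), hTx _ mc _ (Or.inr i4.1), hTx _ md _ (Or.inl i1.1),
        hTx _ md _ (Or.inl i2.1), hTx _ md _ (Or.inl i3.1), hTx _ md _ (Or.inr i4.1)])
    obtain ⟨w0, hw0, hc0, _⟩ := pre ![a1, a2, a3, b, c, d] hg w.1 (by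
      intro a ha
      apply mem_of
      show a ∈ [a1, a2, a3, b, c, d]
      rcases hwz a ha with h1 | h1 | h1
      · rw [hx] at h1; simp at h1 ⊢; tauto
      · rw [hy] at h1; simp at h1 ⊢; tauto
      · have h1 := hzT h1
        rw [hT] at h1; simp at h1 ⊢; tauto)
    obtain ⟨l, hl, hwl⟩ := covB6 w0 (by rw [hc0, w.2])
    exact transfer _ hg l (goodB6 l hl) hwl (by decide) x y w (by rw [hx]; simp) (by rw [hy]; simp) hw0
  · have hk : z.card = 3 := by omega
    obtain ⟨c, d, e, hcd, hce, hde, hc⟩ := Finset.card_eq_three.1 hk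
    have hzx : ∀ c ∈ z, ∀ a, (a ∈ x.1 ∨ a ∈ y.1) → a ≠ c := by
      rintro c hc a ha rfl
      have := hzU hc
      rw [Finset.mem_compl, Finset.mem_union] at this
      exact this ha
    have mc : c ∈ z := by rw [hc]; simp
    have md : d ∈ z := by rw [hc]; simp
    have me : e ∈ z := by rw [hc]; simp
    have hwz' : z = w.1 := Finset.eq_of_subset_of_card_le hzw (by rw [hk, w.2])
    have hg := inj_of ![a1, a2, a3, b, c, d, e] (by
      show [a1, a2, a3, b, c, d, e].Nodup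
      simp [h12, h13, h23, h14, h24, h34, hcd, hce, hde, hzx _ mc _ (Or.inl i1.1),
        hzx _ mc _ (Or.inl i2.1), hzx _ mc _ (Or.inl i3.1), hzx _ mc _ (Or.inr i4.1),
        hzx _ md _ (Or.inl i1.1), hzx _ md _ (Or.inl i2.1), hzx _ md _ (Or.inl i3.1),
        hzx _ md _ (Or.inr i4.1), hzx _ me _ (Or.inl i1.1), hzx _ me _ (Or.inl i2.1),
        hzx _ me _ (Or.inl i3.1), hzx _ me _ (Or.inr i4.1)])
    obtain ⟨l, hl, hwl⟩ := covB7
    exact transfer _ hg l (goodB7 l hl) hwl (by decide) x y w (by rw [hx]; simp) (by rw [hy]; simp)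
      (by rw [← hwz', hc]; simp)

/-- Only the one-vertex path joins a vertex to itself. -/
theorem eq_of_onInducedPath_self {V : Type} {G : SimpleGraph V} {x w : V}
    (h : OnInducedPath G x x w) : w = x := by
  obtain ⟨l, f, h0, hl, hinj, _, c, hc, hfc⟩ := h
  have h1 : 0 = l := hinj 0 (by omega) l le_rfl (h0.trans hl.symm)
  have h2 : c = 0 := by omega
  rw [← hfc, h2, h0]

/-- **Theorem.** For every `n ≥ 6` the generalized Johnson graph `J(n, 3, 1)` is strongly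
2-monophonic: its monophonic number is two, and every two distinct non-adjacent vertices form a
monophonic set. -/
theorem result (n : ℕ) (hn : 6 ≤ n) :
    MonophonicNumberTwo (johnson n 3 1) ∧
    ∀ x y : {A : Finset (Fin n) // A.card = 3}, x ≠ y → ¬ (johnson n 3 1).Adj x y →
      Monophonic (johnson n 3 1) {x, y} := by
  have key : ∀ x y : {A : Finset (Fin n) // A.card = 3}, x ≠ y → ¬ (johnson n 3 1).Adj x y →
      Monophonic (johnson n 3 1) {x, y} := by
    intro x y hxy hadj w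
    refine ⟨x, by simp, y, by simp, ?_⟩
    have h1 : (x.1 ∩ y.1).card ≠ 1 := fun h => hadj ⟨hxy, h⟩
    have h2 : (x.1 ∩ y.1).card ≤ 3 := by
      have := Finset.card_le_card (Finset.inter_subset_left (s₁ := x.1) (s₂ := y.1))
      rwa [x.2] at this
    have h3 : (x.1 ∩ y.1).card ≠ 3 := by
      intro h
      have e1 : x.1 ∩ y.1 = x.1 :=
        Finset.eq_of_subset_of_card_le Finset.inter_subset_left (by rw [h, x.2])
      have e2 : x.1 ∩ y.1 = y.1 :=
        Finset.eq_of_subset_of_card_le Finset.inter_subset_right (by rw [h, y.2])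
      exact hxy (Subtype.ext (e1.symm.trans e2))
    have h4 : (x.1 ∩ y.1).card = 0 ∨ (x.1 ∩ y.1).card = 2 := by omega
    rcases h4 with h4 | h4
    · exact caseA x y w h4
    · exact caseB hn x y w h4
  obtain ⟨x, hx⟩ : ∃ x : {A : Finset (Fin n) // A.card = 3}, True := by
    obtain ⟨t, _, ht⟩ := Finset.exists_subset_card_eq (s := (Finset.univ : Finset (Fin n)))
      (n := 3) (by rw [Finset.card_univ, Fintype.card_fin]; omega)
    exact ⟨⟨t, ht⟩, trivial⟩
  obtain ⟨y, hy⟩ : ∃ y : {A : Finset (Fin n) // A.card = 3}, (x.1 ∩ y.1).card = 0 := by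
    obtain ⟨t, ht, htc⟩ := Finset.exists_subset_card_eq (s := x.1ᶜ)
      (n := 3) (by rw [Finset.card_compl, Fintype.card_fin, x.2]; omega)
    refine ⟨⟨t, htc⟩, ?_⟩
    rw [Finset.card_eq_zero, ← Finset.disjoint_iff_inter_eq_empty]
    exact Finset.disjoint_left.2 fun a ha hat => by
      have := ht hat
      rw [Finset.mem_compl] at this
      exact this ha
  have hxy : x ≠ y := by
    rintro rfl
    rw [Finset.inter_self, x.2] at hy
    omega
  refine ⟨⟨⟨{x, y}, Finset.card_pair hxy, key x y hxy fun h => ?_⟩, fun S hS => ?_⟩, key⟩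
  · have := h.2
    omega
  · by_contra hlt
    push Not at hlt
    obtain ⟨u, hu, v, hv, huv⟩ := hS x
    have h1 : S.card = 1 := by
      have := Finset.card_pos.2 ⟨u, hu⟩
      omega
    obtain ⟨s, hs⟩ := Finset.card_eq_one.1 h1
    have h2 : ∀ w, w = s := by
      intro w
      obtain ⟨u, hu, v, hv, huv⟩ := hS w
      rw [hs, Finset.mem_singleton] at hu hv
      subst hu
      subst hv
      exact eq_of_onInducedPath_self huv
    exact hxy ((h2 x).trans (h2 y).symm)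

end Pool.Agent.Results.MP_785afb_co.ThreeSubsets
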